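import Mathlib

/-! Finite Ramsey theorem for pairs, monotone form. -/

namespace FB7530

namespace RamseyPairs

open Finset

theorem endhom (κ : Type) [Finite κ] (n : ℕ) :
    ∃ N : ℕ, ∀ S : Finset ℕ, N ≤ S.card → ∀ φ : ℕ → ℕ → κ, ∃ T : Finset ℕ, T ⊆ S ∧ T.card = n ∧
      ∃ ψ : ℕ → κ, ∀ x ∈ T, ∀ y ∈ T, x < y → φ x y = ψ x := by
  classical
  haveI := Fintype.ofFinite κ
  induction n with
  | zero =>
    refine ⟨0, fun S _ φ => ⟨∅, empty_subset _, rfl, fun _ => φ 0 0, ?_⟩⟩
    intro x hx
    exact absurd hx (notMem_empty x)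
  | succ n ih =>
    obtain ⟨N, hN⟩ := ih
    refine ⟨Fintype.card κ * N + 1, fun S hS φ => ?_⟩
    have hne : S.Nonempty := by
      rw [← card_pos]
      omega
    set a := S.min' hne with ha
    have haS : a ∈ S := min'_mem S hne
    have hcard : (univ : Finset κ).card * N ≤ (S.erase a).card := by
      rw [card_erase_of_mem haS, card_univ]
      omega
    obtain ⟨t, _, ht⟩ := exists_le_card_fiber_of_mul_le_card_of_maps_to
      (s := S.erase a) (t := (univ : Finset κ)) (f := fun y => φ a y) (n := N)
      (fun y _ => mem_univ _) ⟨φ a a, mem_univ _⟩ hcard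
    obtain ⟨T, hTS, hTc, ψ, hψ⟩ := hN _ ht φ
    have haT : a ∉ T := by
      intro h
      have h1 := hTS h
      rw [mem_filter, mem_erase] at h1
      exact h1.1.1 rfl
    refine ⟨insert a T, ?_, ?_, fun x => if x = a then t else ψ x, ?_⟩
    · intro x hx
      rw [mem_insert] at hx
      rcases hx with rfl | hx
      · exact haS
      · have h1 := hTS hx
        rw [mem_filter] at h1
        exact mem_of_mem_erase h1.1
    · rw [card_insert_of_notMem haT, hTc]
    · intro x hx y hy hxy
      rw [mem_insert] at hx hy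
      rcases hx with rfl | hx
      · rcases hy with rfl | hy
        · exact absurd hxy (lt_irrefl _)
        · have h1 := hTS hy
          rw [mem_filter] at h1
          show φ a y = if a = a then t else ψ a
          rw [if_pos rfl]
          exact h1.2
      · have hxa : x ≠ a := fun h => haT (h ▸ hx)
        show φ x y = if x = a then t else ψ x
        rw [if_neg hxa]
        rcases hy with rfl | hy
        · exfalso
          have h1 := hTS hx
          rw [mem_filter] at h1
          have h2 := min'_le S x (mem_of_mem_erase h1.1)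
          rw [← ha] at h2
          omega
        · exact hψ x hx y hy hxy

end RamseyPairs

/-- Finite Ramsey theorem for pairs, finitely many colours, monotone form. -/
theorem ramsey_pairs (κ : Type) [Finite κ] (w : ℕ) :
    ∃ N : ℕ, ∀ φ : Fin N → Fin N → κ, ∃ (s : Fin w → Fin N) (t : κ), StrictMono s ∧
      ∀ x y, x < y → φ (s x) (s y) = t := by
  classical
  haveI := Fintype.ofFinite κ
  obtain ⟨N, hN⟩ := RamseyPairs.endhom κ (Fintype.card κ * w)
  refine ⟨N + 1, fun φ => ?_⟩
  obtain ⟨T, hTS, hTc, ψ, hψ⟩ := hN (Finset.range (N + 1)) (by rw [Finset.card_range]; omega)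
    (fun x y => if h : x < N + 1 ∧ y < N + 1 then φ ⟨x, h.1⟩ ⟨y, h.2⟩ else φ 0 0)
  obtain ⟨t, _, ht⟩ := Finset.exists_le_card_fiber_of_mul_le_card_of_maps_to
      (s := T) (t := (Finset.univ : Finset κ)) (f := ψ) (n := w)
      (fun y _ => Finset.mem_univ _) ⟨φ 0 0, Finset.mem_univ _⟩ (by rw [Finset.card_univ, hTc])
  obtain ⟨U, hUT, hUc⟩ := Finset.exists_subset_card_eq ht
  have hmem : ∀ i : Fin w, U.orderEmbOfFin hUc i < N + 1 := by
    intro i
    have h1 := hUT (Finset.orderEmbOfFin_mem U hUc i)
    rw [Finset.mem_filter] at h1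
    exact Finset.mem_range.1 (hTS h1.1)
  refine ⟨fun i => ⟨U.orderEmbOfFin hUc i, hmem i⟩, t, ?_, ?_⟩
  · intro i j hij
    exact (U.orderEmbOfFin hUc).strictMono hij
  · intro x y hxy
    have hx := hUT (Finset.orderEmbOfFin_mem U hUc x)
    have hy := hUT (Finset.orderEmbOfFin_mem U hUc y)
    rw [Finset.mem_filter] at hx hy
    have h1 := hψ _ hx.1 _ hy.1 ((U.orderEmbOfFin hUc).strictMono hxy)
    rw [dif_pos ⟨hmem x, hmem y⟩, hx.2] at h1
    exact h1

end FB7530
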