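import Mathlib

/-!
# MP_fb7530_co: definitions used in the statements

`s_r(H)`, the semisaturation number `ssat_r(K_{k+1})` and the iterated logarithm.
-/

namespace FB7530

/-- `G` is `r`-Ramsey for `H`: every colouring of the edges of `G` with `r` colours contains a
monochromatic copy of `H`. -/
def Ramsey (r : ℕ) {V W : Type} (G : SimpleGraph V) (H : SimpleGraph W) : Prop :=
  ∀ c : G.edgeSet → Fin r,
    ∃ (i : Fin r) (f : W ↪ V) (hf : ∀ x y, H.Adj x y → G.Adj (f x) (f y)),
      ∀ x y (h : H.Adj x y), c ⟨s(f x, f y), hf x y h⟩ = i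

/-- `G` is `r`-Ramsey-minimal for `H`: it is `r`-Ramsey for `H` and no proper subgraph of `G` is. -/
def RamseyMinimal (r : ℕ) {V W : Type} (G : SimpleGraph V) (H : SimpleGraph W) : Prop :=
  Ramsey r G H ∧ ∀ S : G.Subgraph, S ≠ ⊤ → ¬ Ramsey r S.coe H

open Classical in
/-- `s_r(H)`: the least minimum degree of an `r`-Ramsey-minimal graph for `H`. -/
noncomputable def sMin (r : ℕ) {W : Type} (H : SimpleGraph W) : ℕ :=
  sInf {d : ℕ | ∃ (n : ℕ) (G : SimpleGraph (Fin n)), RamseyMinimal r G H ∧ G.minDegree = d}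

/-- `P_r(k) = s_r(K_{k+1})`. -/
noncomputable def P (r k : ℕ) : ℕ := sMin r (⊤ : SimpleGraph (Fin (k + 1)))

/-- The edge `r`-colouring `c` of the complete graph on `Fin n` (a function on unordered pairs, of
which only the values on pairs of distinct vertices matter) is `K_{k+1}`-semisaturated: every edge
`r`-colouring of the complete graph on `Fin (n + 1)` that agrees with `c` on `Fin n` contains a
monochromatic `K_{k+1}` through the added vertex. -/
def SemiSat (r k n : ℕ) (c : Sym2 (Fin n) → Fin r) : Prop :=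
  ∀ c' : Sym2 (Fin (n + 1)) → Fin r,
    (∀ x y : Fin n, x ≠ y → c' s(x.castSucc, y.castSucc) = c s(x, y)) →
      ∃ S : Finset (Fin (n + 1)), Fin.last n ∈ S ∧ S.card = k + 1 ∧
        ∃ i : Fin r, ∀ x ∈ S, ∀ y ∈ S, x ≠ y → c' s(x, y) = i

/-- `ssat_r(K_{k+1})`: the least `n` such that there is a `K_{k+1}`-semisaturated edge
`r`-colouring of `K_n`. -/
noncomputable def ssat (r k : ℕ) : ℕ :=
  sInf {n : ℕ | ∃ c : Sym2 (Fin n) → Fin r, SemiSat r k n c}

/-- The tower function `1, 2, 4, 16, 65536, ...`. -/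
def tower : ℕ → ℕ
  | 0 => 1
  | t + 1 => 2 ^ tower t

lemma lt_tower (t : ℕ) : t < tower t := by
  induction t with
  | zero => simp [tower]
  | succ t ih =>
    have h := Nat.lt_two_pow_self (n := tower t)
    simp only [tower]
    omega

/-- The iterated logarithm: the least `t` with `k ≤ tower t`. -/
noncomputable def logStar (k : ℕ) : ℕ := sInf {t : ℕ | k ≤ tower t}

end FB7530
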