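import Mathlib
import Pool.Agent.Lib_MP_fb7530_co.Defs

namespace FB7530

/-- The packing property of Fox, Grinshpun, Liebenau, Person and Szabo: pairwise edge-disjoint
`K_{k+1}`-free graphs on `V` such that in every vertex colouring some colour class `i` contains a
`K_k` of the `i`-th graph. -/
def Pack (r k : ℕ) (V : Type) : Prop :=
  ∃ G : Fin r → SimpleGraph V,
    (∀ i j x y, (G i).Adj x y → (G j).Adj x y → i = j) ∧
    (∀ i, (G i).CliqueFree (k + 1)) ∧
    ∀ χ : V → Fin r, ∃ i, ∃ S : Finset V, (G i).IsNClique k S ∧ ∀ x ∈ S, χ x = i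

/-- Coloured graphs with parts: `c x y i` means that the pair `x y` is an edge of colour `i`; edges
join different parts, and there is no monochromatic `K_m`. -/
structure Pic (r m N : ℕ) (V : Type) (c : V → V → Fin r → Prop) (q : V → Fin N) : Prop where
  symm : ∀ x y i, c x y i → c y x i
  uniq : ∀ x y i j, c x y i → c x y j → i = j
  part : ∀ x y i, c x y i → q x ≠ q y
  free : ∀ (S : Finset V) (i : Fin r), S.card = m → ¬ ∀ x ∈ S, ∀ y ∈ S, x ≠ y → c x y i

/-- A gadget: a graph `H` on `V` without `K_{a+1}` and a finite family of kill sets of total weight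
at most `β`, such that every set containing no kill set is disjoint from some `a`-clique. -/
def GadEx (a N b : ℕ) (β : ℝ) : Prop :=
  ∃ (V : Type) (_ : Fintype V) (_ : DecidableEq V) (H : SimpleGraph V) (K : Finset (Finset V)),
    Fintype.card V = N ∧ H.CliqueFree (a + 1) ∧
    (∑ A ∈ K, (1 / 2 : ℝ) ^ (b * A.card)) ≤ β ∧
    ∀ D : Finset V, (∀ A ∈ K, ¬ A ⊆ D) → ∃ S : Finset V, H.IsNClique a S ∧ Disjoint S D

end FB7530
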