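import Mathlib
import Pool.Agent.Lib_MP_fb7530_co.Pack

/-! One amalgamation step of the partite construction (Nesetril, Rodl), via Hales-Jewett. -/

namespace FB7530

open Combinatorics

/-- The edges of colour `i` from part `a` to part `b`. -/
def StepE {r N : ℕ} {V : Type} (c : V → V → Fin r → Prop) (q : V → Fin N) (a b : Fin N)
    (i : Fin r) : Type :=
  {e : V × V // q e.1 = a ∧ q e.2 = b ∧ c e.1 e.2 i}

open Classical in
/-- The copy of the picture belonging to a combinatorial line. -/
noncomputable def stepEmb {r N : ℕ} {V : Type} (c : V → V → Fin r → Prop) (q : V → Fin N)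
    (a b : Fin N) (i : Fin r) {ι : Type} (l : Line (StepE c q a b i) ι) (x : V) :
    (ι → V) ⊕ (Line (StepE c q a b i) ι × V) :=
  if q x = a then Sum.inl (fun t => ((l.idxFun t).map (fun e => e.1.1)).getD x)
  else if q x = b then Sum.inl (fun t => ((l.idxFun t).map (fun e => e.1.2)).getD x)
  else Sum.inr (l, x)

open Classical in
/-- The parts of the new picture. -/
noncomputable def stepQ {r N : ℕ} {V : Type} (c : V → V → Fin r → Prop) (q : V → Fin N)
    (a b : Fin N) (i : Fin r) {ι : Type} :
    (ι → V) ⊕ (Line (StepE c q a b i) ι × V) → Fin N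
  | Sum.inl u => if ∀ t, q (u t) = a then a else b
  | Sum.inr p => q p.2

section

variable {r m N : ℕ} {V : Type} {c : V → V → Fin r → Prop} {q : V → Fin N} {a b : Fin N}
  {i : Fin r} {ι : Type}

lemma stepEmb_a (l : Line (StepE c q a b i) ι) {x : V} (hx : q x = a) :
    stepEmb c q a b i l x = Sum.inl (fun t => ((l.idxFun t).map (fun e => e.1.1)).getD x) := by
  simp [stepEmb, hx]

lemma stepEmb_b (l : Line (StepE c q a b i) ι) {x : V} (hab : a ≠ b) (hx : q x = b) :
    stepEmb c q a b i l x = Sum.inl (fun t => ((l.idxFun t).map (fun e => e.1.2)).getD x) := by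
  simp [stepEmb, hx, hab.symm]

lemma stepEmb_o (l : Line (StepE c q a b i) ι) {x : V} (hxa : q x ≠ a) (hxb : q x ≠ b) :
    stepEmb c q a b i l x = Sum.inr (l, x) := by
  simp [stepEmb, hxa, hxb]

lemma stepEmb_inr {l l' : Line (StepE c q a b i) ι} {x x' : V}
    (h : stepEmb c q a b i l x = Sum.inr (l', x')) : l = l' ∧ x = x' ∧ q x ≠ a ∧ q x ≠ b := by
  unfold stepEmb at h
  split_ifs at h with h1 h2
  simp only [Sum.inr.injEq, Prod.mk.injEq] at h
  exact ⟨h.1, h.2, h1, h2⟩

lemma stepQ_emb (hab : a ≠ b) (l : Line (StepE c q a b i) ι) (x : V) :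
    stepQ c q a b i (stepEmb c q a b i l x) = q x := by
  by_cases hxa : q x = a
  · rw [stepEmb_a l hxa]
    have : ∀ t, q (((l.idxFun t).map (fun e => e.1.1)).getD x) = a := by
      intro t
      cases h : l.idxFun t with
      | none => simpa using hxa
      | some e => simpa using e.2.1
    simp only [stepQ]
    rw [if_pos this, hxa]
  · by_cases hxb : q x = b
    · rw [stepEmb_b l hab hxb]
      obtain ⟨t, ht⟩ := l.proper
      simp only [stepQ]
      rw [if_neg, hxb]
      intro hall
      have := hall t
      rw [ht] at this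
      exact hxa (by simpa using this)
    · rw [stepEmb_o l hxa hxb]
      simp only [stepQ]

lemma stepEmb_inj (hab : a ≠ b) (l : Line (StepE c q a b i) ι) :
    Function.Injective (stepEmb c q a b i l) := by
  intro x y hxy
  have hq : q x = q y := by
    rw [← stepQ_emb hab l x, ← stepQ_emb hab l y, hxy]
  obtain ⟨t, ht⟩ := l.proper
  by_cases hxa : q x = a
  · have hya : q y = a := hq ▸ hxa
    rw [stepEmb_a l hxa, stepEmb_a l hya] at hxy
    have := congrFun (Sum.inl.inj hxy) t
    simpa [ht] using this
  · by_cases hxb : q x = b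
    · have hyb : q y = b := hq ▸ hxb
      rw [stepEmb_b l hab hxb, stepEmb_b l hab hyb] at hxy
      have := congrFun (Sum.inl.inj hxy) t
      simpa [ht] using this
    · rw [stepEmb_o l hxa hxb] at hxy
      exact ((stepEmb_inr hxy.symm).2.1).symm

/-- The key lemma for a pair from part `a` to part `b`. -/
lemma step_key_ab (h : Pic r m N V c q) (hab : a ≠ b) {l l' : Line (StepE c q a b i) ι}
    {x y x' y' : V} {j : Fin r} (hx : stepEmb c q a b i l x = stepEmb c q a b i l' x')
    (hy : stepEmb c q a b i l y = stepEmb c q a b i l' y') (hc : c x' y' j)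
    (hxa : q x = a) (hyb : q y = b) : c x y j := by
  have hxa' : q x' = a := by rw [← stepQ_emb hab l' x', ← hx, stepQ_emb hab l x, hxa]
  have hyb' : q y' = b := by rw [← stepQ_emb hab l' y', ← hy, stepQ_emb hab l y, hyb]
  rw [stepEmb_a l hxa, stepEmb_a l' hxa'] at hx
  rw [stepEmb_b l hab hyb, stepEmb_b l' hab hyb'] at hy
  have hx := Sum.inl.inj hx
  have hy := Sum.inl.inj hy
  obtain ⟨t0, ht0⟩ := l.proper
  obtain ⟨t1, ht1⟩ := l'.proper
  have hx0 := congrFun hx t0
  have hy0 := congrFun hy t0
  have hx1 := congrFun hx t1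
  have hy1 := congrFun hy t1
  simp only [ht0, Option.map_none, Option.getD_none] at hx0 hy0
  simp only [ht1, Option.map_none, Option.getD_none] at hx1 hy1
  cases h0 : l'.idxFun t0 with
  | none =>
    rw [h0] at hx0 hy0
    simp only [Option.map_none, Option.getD_none] at hx0 hy0
    rw [hx0, hy0]
    exact hc
  | some e =>
    rw [h0] at hx0 hy0
    simp only [Option.map_some, Option.getD_some] at hx0 hy0
    have hci : c x y i := by
      rw [hx0, hy0]
      exact e.2.2.2
    cases h1 : l.idxFun t1 with
    | none =>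
      rw [h1] at hx1 hy1
      simp only [Option.map_none, Option.getD_none] at hx1 hy1
      rw [hx1, hy1]
      exact hc
    | some e' =>
      rw [h1] at hx1 hy1
      simp only [Option.map_some, Option.getD_some] at hx1 hy1
      have hci' : c x' y' i := by
        rw [← hx1, ← hy1]
        exact e'.2.2.2
      have hij : i = j := h.uniq _ _ _ _ hci' hc
      rw [← hij]
      exact hci

/-- The key lemma: the copies of the picture are induced. -/
lemma step_key (h : Pic r m N V c q) (hab : a ≠ b) {l l' : Line (StepE c q a b i) ι}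
    {x y x' y' : V} {j : Fin r} (hx : stepEmb c q a b i l x = stepEmb c q a b i l' x')
    (hy : stepEmb c q a b i l y = stepEmb c q a b i l' y') (hc : c x' y' j) : c x y j := by
  by_cases hxo : q x ≠ a ∧ q x ≠ b
  · rw [stepEmb_o l hxo.1 hxo.2] at hx
    obtain ⟨rfl, rfl, -, -⟩ := stepEmb_inr hx.symm
    have := stepEmb_inj hab _ hy
    rw [this]
    exact hc
  · by_cases hyo : q y ≠ a ∧ q y ≠ b
    · rw [stepEmb_o l hyo.1 hyo.2] at hy
      obtain ⟨rfl, rfl, -, -⟩ := stepEmb_inr hy.symm
      have := stepEmb_inj hab _ hx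
      rw [this]
      exact hc
    · have hqx : q x = q x' := by rw [← stepQ_emb hab l' x', ← hx, stepQ_emb hab l x]
      have hqy : q y = q y' := by rw [← stepQ_emb hab l' y', ← hy, stepQ_emb hab l y]
      have hne : q x ≠ q y := by
        rw [hqx, hqy]
        exact h.part _ _ _ hc
      by_cases hxa : q x = a
      · have hyb : q y = b := by
          by_contra hyb
          exact hyo ⟨fun hya => hne (hxa.trans hya.symm), hyb⟩
        exact step_key_ab h hab hx hy hc hxa hyb
      · have hxb : q x = b := by
          by_contra hxb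
          exact hxo ⟨hxa, hxb⟩
        have hya : q y = a := by
          by_contra hya
          exact hyo ⟨hya, fun hyb => hne (hxb.trans hyb.symm)⟩
        exact h.symm _ _ _ (step_key_ab h hab hy hx (h.symm _ _ _ hc) hya hxb)

/-- The new picture is a picture. -/
lemma step_pic (h : Pic r m N V c q) (hm : 3 ≤ m) (hab : a ≠ b) :
    Pic r m N ((ι → V) ⊕ (Line (StepE c q a b i) ι × V))
      (fun v w j => ∃ l x y, stepEmb c q a b i l x = v ∧ stepEmb c q a b i l y = w ∧ c x y j)
      (stepQ c q a b i) where
  symm := by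
    rintro _ _ j ⟨l, x, y, rfl, rfl, hc⟩
    exact ⟨l, y, x, rfl, rfl, h.symm _ _ _ hc⟩
  uniq := by
    rintro _ _ j j' ⟨l, x, y, rfl, rfl, hc⟩ ⟨l', x', y', hx, hy, hc'⟩
    exact h.uniq _ _ _ _ hc (step_key h hab hx.symm hy.symm hc')
  part := by
    rintro _ _ j ⟨l, x, y, rfl, rfl, hc⟩
    rw [stepQ_emb hab, stepQ_emb hab]
    exact h.part _ _ _ hc
  free := by
    classical
    intro S i0 hS hall
    by_cases hinr : ∃ l x, (Sum.inr (l, x) : (ι → V) ⊕ (Line (StepE c q a b i) ι × V)) ∈ S
    · obtain ⟨l, x, hlx⟩ := hinr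
      have hrange : ∀ w ∈ S, w ∈ Set.range (stepEmb c q a b i l) := by
        intro w hw
        by_cases hwv : w = Sum.inr (l, x)
        · obtain ⟨w', hw', hne⟩ : ∃ w' ∈ S, w' ≠ Sum.inr (l, x) :=
            Finset.exists_mem_ne (by omega) _
          obtain ⟨l', x', y', hx', hy', hc'⟩ := hall _ hlx w' hw' hne.symm
          obtain ⟨rfl, rfl, -, -⟩ := stepEmb_inr hx'
          exact ⟨x', by rw [hwv, hx']⟩
        · obtain ⟨l', x', y', hx', hy', hc'⟩ := hall _ hlx w hw (Ne.symm hwv)
          obtain ⟨rfl, rfl, -, -⟩ := stepEmb_inr hx'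
          exact ⟨y', hy'⟩
      have hinj := stepEmb_inj hab l
      have hcard : (S.preimage (stepEmb c q a b i l) hinj.injOn).card = m := by
        rw [← hS, ← Finset.card_image_of_injective _ hinj]
        congr 1
        ext w
        simp only [Finset.mem_image, Finset.mem_preimage]
        constructor
        · rintro ⟨y, hy, rfl⟩
          exact hy
        · intro hw
          obtain ⟨y, rfl⟩ := hrange w hw
          exact ⟨y, hw, rfl⟩
      refine h.free _ i0 hcard ?_
      intro y hy z hz hyz
      rw [Finset.mem_preimage] at hy hz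
      obtain ⟨l', x', y', hx', hy', hc'⟩ := hall _ hy _ hz (fun hh => hyz (hinj hh))
      exact step_key h hab hx'.symm hy'.symm hc'
    · have hsub : S.image (stepQ c q a b i) ⊆ {a, b} := by
        intro k hk
        rw [Finset.mem_image] at hk
        obtain ⟨v, hv, rfl⟩ := hk
        rcases v with u | ⟨l, x⟩
        · simp only [stepQ]
          split_ifs <;> simp
        · exact absurd ⟨l, x, hv⟩ hinr
      have hinj : Set.InjOn (stepQ c q a b i) (S : Set ((ι → V) ⊕ (Line (StepE c q a b i) ι × V))) := by
        intro v hv w hw hvw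
        by_contra hne
        obtain ⟨l, x, y, hx, hy, hc⟩ := hall v hv w hw hne
        rw [← hx, ← hy, stepQ_emb hab, stepQ_emb hab] at hvw
        exact h.part _ _ _ hc hvw
      have h1 := Finset.card_image_of_injOn hinj
      have h2 := Finset.card_le_card hsub
      have h3 := Finset.card_le_two (a := a) (b := b)
      omega

end

/-- One step: make the edges of colour `i` from part `a` to part `b` monochromatic. -/
theorem step {r m N : ℕ} {V : Type} [Finite V] {c : V → V → Fin r → Prop} {q : V → Fin N}
    (h : Pic r m N V c q) (hm : 3 ≤ m) (a b : Fin N) (i : Fin r) :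
    ∃ (V' : Type) (_ : Finite V') (c' : V' → V' → Fin r → Prop) (q' : V' → Fin N),
      Pic r m N V' c' q' ∧
      ∀ χ : V' → V' → Fin r, ∃ f : V → V', Function.Injective f ∧ (∀ x, q' (f x) = q x) ∧
        (∀ x y j, c x y j → c' (f x) (f y) j) ∧
        ∃ j, ∀ x y, q x = a → q y = b → c x y i → χ (f x) (f y) = j := by
  by_cases hab : a = b
  · refine ⟨V, inferInstance, c, q, h, fun χ => ⟨id, Function.injective_id, fun _ => rfl,
      fun _ _ _ hc => hc, i, fun x y hx hy hc => ?_⟩⟩
    exact absurd (hx.trans (hab.trans hy.symm)) (h.part _ _ _ hc)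
  · haveI hfE : Finite (StepE c q a b i) := by
      unfold StepE
      infer_instance
    obtain ⟨ι, hι, hHJ⟩ := Line.exists_mono_in_high_dimension (StepE c q a b i) (Fin r)
    haveI hfL : Finite (Line (StepE c q a b i) ι) := by
      refine Finite.of_injective (fun l => l.idxFun) ?_
      intro l l' hll
      cases l
      cases l'
      simp only at hll
      subst hll
      rfl
    refine ⟨(ι → V) ⊕ (Line (StepE c q a b i) ι × V), inferInstance,
      (fun v w j => ∃ l x y, stepEmb c q a b i l x = v ∧ stepEmb c q a b i l y = w ∧ c x y j),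
      stepQ c q a b i, step_pic h hm hab, ?_⟩
    intro χ
    obtain ⟨l, j, hl⟩ := hHJ (fun g => χ (Sum.inl (fun t => (g t).1.1))
      (Sum.inl (fun t => (g t).1.2)))
    refine ⟨stepEmb c q a b i l, stepEmb_inj hab l, stepQ_emb hab l,
      fun x y j hc => ⟨l, x, y, rfl, rfl, hc⟩, j, ?_⟩
    intro x y hx hy hc
    have := hl ⟨(x, y), hx, hy, hc⟩
    rw [← this, stepEmb_a l hx, stepEmb_b l hab hy]
    have e1 : (fun t => ((l.idxFun t).map (fun e => e.1.1)).getD x) =
        (fun t => (l ⟨(x, y), hx, hy, hc⟩ t).1.1) := by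
      funext t
      cases ht : l.idxFun t with
      | none =>
        rw [Line.apply_none l _ t ht]
        rfl
      | some e =>
        rw [Line.apply_some (l := l) (x := _) ht]
        rfl
    have e2 : (fun t => ((l.idxFun t).map (fun e => e.1.2)).getD y) =
        (fun t => (l ⟨(x, y), hx, hy, hc⟩ t).1.2) := by
      funext t
      cases ht : l.idxFun t with
      | none =>
        rw [Line.apply_none l _ t ht]
        rfl
      | some e =>
        rw [Line.apply_some (l := l) (x := _) ht]
        rfl
    rw [e1, e2]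

end FB7530
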