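import Mathlib
import Pool.Agent.Lib_MP_fb7530_co.Step
import Pool.Agent.Lib_MP_fb7530_co.Ramsey

/-! The partite construction: an edge-Ramsey theorem for `r`-coloured graphs without
monochromatic `K_m`. -/

namespace FB7530

theorem steps {r m N : ℕ} (hm : 3 ≤ m) (l : List (Fin N × Fin N × Fin r)) :
    ∀ {V : Type} [Finite V] {c : V → V → Fin r → Prop} {q : V → Fin N}, Pic r m N V c q →
    ∃ (V' : Type) (_ : Finite V') (c' : V' → V' → Fin r → Prop) (q' : V' → Fin N),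
      Pic r m N V' c' q' ∧
      ∀ χ : V' → V' → Fin r, ∃ f : V → V', Function.Injective f ∧ (∀ x, q' (f x) = q x) ∧
        (∀ x y j, c x y j → c' (f x) (f y) j) ∧
        ∀ s ∈ l, ∃ j, ∀ x y, q x = s.1 → q y = s.2.1 → c x y s.2.2 → χ (f x) (f y) = j := by
  induction l with
  | nil =>
    intro V hV c q h
    exact ⟨V, hV, c, q, h, fun χ => ⟨id, Function.injective_id, fun _ => rfl, fun _ _ _ h => h,
      fun s hs => absurd hs (List.not_mem_nil)⟩⟩
  | cons s l ih =>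
    intro V hV c q h
    obtain ⟨V1, hV1, c1, q1, h1, hχ1⟩ := ih h
    obtain ⟨V2, hV2, c2, q2, h2, hχ2⟩ := step h1 hm s.1 s.2.1 s.2.2
    refine ⟨V2, hV2, c2, q2, h2, fun χ => ?_⟩
    obtain ⟨f1, hf1, hq1, hc1, j1, hj1⟩ := hχ2 χ
    obtain ⟨f, hf, hq, hc, hj⟩ := hχ1 (fun x y => χ (f1 x) (f1 y))
    refine ⟨f1 ∘ f, hf1.comp hf, fun x => ?_, fun x y j hxy => hc1 _ _ _ (hc _ _ _ hxy), ?_⟩
    · rw [Function.comp_apply, hq1, hq]
    · intro s' hs'
      rcases List.mem_cons.1 hs' with rfl | hs'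
      · exact ⟨j1, fun x y hx hy hxy => hj1 _ _ ((hq x).trans hx) ((hq y).trans hy) (hc _ _ _ hxy)⟩
      · exact hj s' hs'

/-- Edge-Ramsey theorem for coloured graphs without monochromatic `K_m`. -/
theorem partite {r m w : ℕ} (hm : 3 ≤ m) (c : Fin w → Fin w → Fin r → Prop)
    (symm : ∀ x y i, c x y i → c y x i) (irr : ∀ x i, ¬ c x x i)
    (uniq : ∀ x y i j, c x y i → c x y j → i = j)
    (free : ∀ (S : Finset (Fin w)) (i : Fin r), S.card = m →
      ¬ ∀ x ∈ S, ∀ y ∈ S, x ≠ y → c x y i) :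
    ∃ (V : Type) (_ : Finite V) (c' : V → V → Fin r → Prop),
      (∀ x y i, c' x y i → c' y x i) ∧ (∀ x i, ¬ c' x x i) ∧
      (∀ x y i j, c' x y i → c' x y j → i = j) ∧
      (∀ (S : Finset V) (i : Fin r), S.card = m → ¬ ∀ x ∈ S, ∀ y ∈ S, x ≠ y → c' x y i) ∧
      ∀ χ : V → V → Fin r, (∀ x y, χ x y = χ y x) → ∃ (f : Fin w → V) (π : Fin r → Fin r),
        Function.Injective f ∧ (∀ x y i, c x y i → c' (f x) (f y) i) ∧
        ∀ x y i, c x y i → χ (f x) (f y) = π i := by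
  classical
  obtain ⟨N, hN⟩ := ramsey_pairs (Fin r → Fin r) w
  set V0 : Type := {s : Fin w → Fin N // StrictMono s} × Fin w with hV0
  set c0 : V0 → V0 → Fin r → Prop := fun a b j => a.1 = b.1 ∧ c a.2 b.2 j with hc0
  set q0 : V0 → Fin N := fun a => a.1.1 a.2 with hq0
  have hpic : Pic r m N V0 c0 q0 := by
    refine ⟨?_, ?_, ?_, ?_⟩
    · rintro a b i ⟨h1, h2⟩
      exact ⟨h1.symm, symm _ _ _ h2⟩
    · rintro a b i j ⟨_, h2⟩ ⟨_, h3⟩
      exact uniq _ _ _ _ h2 h3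
    · rintro ⟨s, x⟩ ⟨s', y⟩ i ⟨h1, h2⟩ h3
      simp only at h1 h2
      subst h1
      have h4 : x = y := s.2.injective h3
      subst h4
      exact irr _ _ h2
    · intro S i hS hall
      obtain ⟨p, hp⟩ : S.Nonempty := by
        rw [← Finset.card_pos]
        omega
      have hfst : ∀ a ∈ S, a.1 = p.1 := by
        intro a ha
        by_cases hap : a = p
        · rw [hap]
        · exact (hall a ha p hp hap).1
      have hinj : Set.InjOn Prod.snd (S : Set V0) := by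
        intro a ha b hb hab
        exact Prod.ext ((hfst a ha).trans (hfst b hb).symm) hab
      refine free (S.image Prod.snd) i ?_ ?_
      · rw [Finset.card_image_of_injOn hinj, hS]
      · intro x hx y hy hxy
        obtain ⟨a, ha, rfl⟩ := Finset.mem_image.1 hx
        obtain ⟨b, hb, rfl⟩ := Finset.mem_image.1 hy
        exact (hall a ha b hb (fun h => hxy (by rw [h]))).2
  obtain ⟨V', hV', c', q', hp', hχ⟩ :=
    steps hm (Finset.univ : Finset (Fin N × Fin N × Fin r)).toList hpic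
  refine ⟨V', hV', c', hp'.symm, fun x i h => hp'.part x x i h rfl, hp'.uniq, hp'.free, ?_⟩
  intro χ hsymm
  obtain ⟨f, hf, hq, hc, hj⟩ := hχ χ
  have hj' : ∀ s : Fin N × Fin N × Fin r, ∃ j, ∀ x y, q0 x = s.1 → q0 y = s.2.1 →
      c0 x y s.2.2 → χ (f x) (f y) = j := fun s => hj s (by simp)
  choose J hJ using hj'
  obtain ⟨s, t, hs, ht⟩ := hN (fun a b i => J (a, b, i))
  have key : ∀ x y i, c x y i → x < y → χ (f (⟨s, hs⟩, x)) (f (⟨s, hs⟩, y)) = t i := by
    intro x y i h hxy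
    have h1 := hJ (s x, s y, i) (⟨s, hs⟩, x) (⟨s, hs⟩, y) rfl rfl ⟨rfl, h⟩
    rw [h1]
    exact congrFun (ht x y hxy) i
  refine ⟨fun x => f (⟨s, hs⟩, x), t, ?_, ?_, ?_⟩
  · intro x y hxy
    exact (Prod.ext_iff.1 (hf hxy)).2
  · intro x y i h
    exact hc _ _ _ ⟨rfl, h⟩
  · intro x y i h
    rcases lt_trichotomy x y with hlt | heq | hlt
    · exact key x y i h hlt
    · subst heq
      exact absurd h (irr _ _)
    · rw [hsymm]
      exact key y x i (symm _ _ _ h) hlt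

end FB7530
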