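import Mathlib
import Pool.Agent.Lib_MP_fb7530_co.Partite

/-! `s_r(K_{k+1})` is at most the order of a packing. -/

namespace FB7530

/-- the coloured graph: the packing, and for every pair of colours a `K_{k+1}` with one edge of the
second colour and all the other edges of the first colour -/
def patCol {r k n : ℕ} (H : Fin r → SimpleGraph (Fin n)) :
    (Fin n ⊕ (Fin r × Fin r × Fin (k + 1))) → (Fin n ⊕ (Fin r × Fin r × Fin (k + 1))) →
      Fin r → Prop
  | Sum.inl x, Sum.inl y, i => (H i).Adj x y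
  | Sum.inr (a, b, u), Sum.inr (a', b', v), i =>
      a = a' ∧ b = b' ∧ a ≠ b ∧ u ≠ v ∧ i = if (u : ℕ) + v = 1 then b else a
  | _, _, _ => False

theorem patCol_symm {r k n : ℕ} (H : Fin r → SimpleGraph (Fin n))
    (x y : Fin n ⊕ (Fin r × Fin r × Fin (k + 1))) (i : Fin r) (h : patCol H x y i) :
    patCol H y x i := by
  rcases x with x | ⟨a, b, u⟩ <;> rcases y with y | ⟨a', b', v⟩
  · exact SimpleGraph.Adj.symm h
  · exact h
  · exact h
  · obtain ⟨h1, h2, h3, h4, h5⟩ := h
    subst h1; subst h2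
    refine ⟨rfl, rfl, h3, h4.symm, ?_⟩
    rw [add_comm]
    exact h5

theorem patCol_irr {r k n : ℕ} (H : Fin r → SimpleGraph (Fin n))
    (x : Fin n ⊕ (Fin r × Fin r × Fin (k + 1))) (i : Fin r) : ¬ patCol H x x i := by
  rcases x with x | ⟨a, b, u⟩
  · exact (H i).loopless.irrefl x
  · exact fun h => h.2.2.2.1 rfl

theorem patCol_uniq {r k n : ℕ} (H : Fin r → SimpleGraph (Fin n))
    (hH : ∀ i j x y, (H i).Adj x y → (H j).Adj x y → i = j)
    (x y : Fin n ⊕ (Fin r × Fin r × Fin (k + 1))) (i j : Fin r) (h : patCol H x y i)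
    (h' : patCol H x y j) : i = j := by
  rcases x with x | ⟨a, b, u⟩ <;> rcases y with y | ⟨a', b', v⟩
  · exact hH i j x y h h'
  · exact h.elim
  · exact h.elim
  · rw [h.2.2.2.2, h'.2.2.2.2]

theorem patCol_free {r k n : ℕ} (H : Fin r → SimpleGraph (Fin n))
    (hH : ∀ i, (H i).CliqueFree (k + 1)) (hk : 2 ≤ k)
    (S : Finset (Fin n ⊕ (Fin r × Fin r × Fin (k + 1)))) (i : Fin r) (hS : S.card = k + 1)
    (hall : ∀ x ∈ S, ∀ y ∈ S, x ≠ y → patCol H x y i) : False := by
  classical
  have hne : S.Nonempty := by rw [← Finset.card_pos]; omega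
  obtain ⟨z, hz⟩ := hne
  rcases z with z | ⟨a, b, u⟩
  · -- all elements on the left
    have hl : ∀ x ∈ S, ∃ y, x = Sum.inl y := by
      intro x hx
      rcases x with x | ⟨a, b, u⟩
      · exact ⟨x, rfl⟩
      · exact (hall _ hz _ hx (by simp)).elim
    refine hH i (S.toLeft) ⟨?_, ?_⟩
    · intro x hx y hy hxy
      have h1 := hall (Sum.inl x) (by simpa using hx) (Sum.inl y) (by simpa using hy)
        (fun h => hxy (Sum.inl_injective h))
      exact h1
    · have h1 := S.card_toLeft_add_card_toRight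
      have h2 : S.toRight = ∅ := by
        rw [Finset.eq_empty_iff_forall_notMem]
        intro x hx
        rw [Finset.mem_toRight] at hx
        obtain ⟨y, hy⟩ := hl _ hx
        simp at hy
      rw [h2, Finset.card_empty] at h1
      omega
  · -- all elements in the same gadget
    have hr' : ∀ x ∈ S, ∃ v, x = Sum.inr (a, b, v) := by
      intro x hx
      by_cases hxz : x = Sum.inr (a, b, u)
      · exact ⟨u, hxz⟩
      · rcases x with x | ⟨a', b', v⟩
        · exact (hall _ hx _ hz hxz).elim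
        · obtain ⟨h1, h2, _⟩ := hall _ hx _ hz hxz
          subst h1; subst h2
          exact ⟨v, rfl⟩
    have hab : a ≠ b := by
      have h1 : ∃ x ∈ S, x ≠ Sum.inr (a, b, u) := by
        by_contra hcon
        push Not at hcon
        have h2 : S ⊆ {Sum.inr (a, b, u)} := fun x hx => by
          rw [Finset.mem_singleton]; exact hcon x hx
        have h3 := Finset.card_le_card h2
        rw [Finset.card_singleton] at h3
        omega
      obtain ⟨x, hx, hxne⟩ := h1
      obtain ⟨v, rfl⟩ := hr' x hx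
      exact (hall _ hx _ hz hxne).2.2.1
    -- all `k + 1` vertices of the gadget are in `S`
    let emb : Fin (k + 1) ↪ (Fin n ⊕ (Fin r × Fin r × Fin (k + 1))) :=
      ⟨fun v => Sum.inr (a, b, v), fun v v' h => by simpa using h⟩
    have h1 : S ⊆ Finset.univ.map emb := by
      intro x hx
      obtain ⟨v, rfl⟩ := hr' x hx
      rw [Finset.mem_map]
      exact ⟨v, Finset.mem_univ _, rfl⟩
    have h2 : S = Finset.univ.map emb := by
      apply Finset.eq_of_subset_of_card_le h1
      rw [Finset.card_map, hS]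
      simp
    have hin : ∀ v, (Sum.inr (a, b, v) : Fin n ⊕ (Fin r × Fin r × Fin (k + 1))) ∈ S := by
      intro v
      rw [h2, Finset.mem_map]
      exact ⟨v, Finset.mem_univ _, rfl⟩
    have h01 := hall _ (hin ⟨0, by omega⟩) _ (hin ⟨1, by omega⟩) (by simp)
    have h02 := hall _ (hin ⟨0, by omega⟩) _ (hin ⟨2, by omega⟩) (by simp)
    have e1 : i = b := by
      have := h01.2.2.2.2
      rwa [if_pos (by simp)] at this
    have e2 : i = a := by
      have := h02.2.2.2.2
      rwa [if_neg (by simp)] at this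
    exact hab (e2.symm.trans e1)

/-- A graph that is not `r`-Ramsey for `K_{k+1}` but all of whose colourings without monochromatic
`K_{k+1}` contain the pattern of the packing. -/
theorem exists_pattern {r k n : ℕ} (hr : 1 ≤ r) (hk : 2 ≤ k) (h : Pack r k (Fin n)) :
    ∃ (V : Type) (_ : Finite V) (G : SimpleGraph V), ¬ Ramsey r G (⊤ : SimpleGraph (Fin (k + 1))) ∧
      ∀ χ : V → V → Fin r, (∀ x y, χ x y = χ y x) →
        (∃ (i : Fin r) (f : Fin (k + 1) → V), Function.Injective f ∧
          ∀ x y, x ≠ y → G.Adj (f x) (f y) ∧ χ (f x) (f y) = i) ∨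
        ∃ g : Fin n → V, Function.Injective g ∧ ∀ ψ : Fin n → Fin r,
          ∃ (i : Fin r) (S : Finset (Fin n)), S.card = k ∧ (∀ x ∈ S, ψ x = i) ∧
            ∀ x ∈ S, ∀ y ∈ S, x ≠ y → G.Adj (g x) (g y) ∧ χ (g x) (g y) = i := by
  classical
  obtain ⟨H, hH1, hH2, hH3⟩ := h
  let W := Fin n ⊕ (Fin r × Fin r × Fin (k + 1))
  let e : W ≃ Fin (Fintype.card W) := Fintype.equivFin W
  obtain ⟨V, hV, c', hs, hi, hu, hfree, hχ⟩ := partite (r := r) (m := k + 1)
    (w := Fintype.card W) (by omega) (fun x y i => patCol H (e.symm x) (e.symm y) i)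
    (fun x y i hc => patCol_symm H _ _ i hc) (fun x i => patCol_irr H _ i)
    (fun x y i j h1 h2 => patCol_uniq H hH1 _ _ i j h1 h2)
    (by
      intro S i hS hall
      refine patCol_free H hH2 hk (S.map e.symm.toEmbedding) i (by rw [Finset.card_map]; exact hS) ?_
      intro x hx y hy hxy
      rw [Finset.mem_map] at hx hy
      obtain ⟨x', hx', rfl⟩ := hx
      obtain ⟨y', hy', rfl⟩ := hy
      exact hall x' hx' y' hy' (fun hne => hxy (by rw [hne])))
  let G : SimpleGraph V :=
    { Adj := fun x y => ∃ i, c' x y i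
      symm := ⟨fun x y ⟨i, hc⟩ => ⟨i, hs x y i hc⟩⟩
      loopless := ⟨fun x ⟨i, hc⟩ => hi x i hc⟩ }
  refine ⟨V, hV, G, ?_, ?_⟩
  · intro hR
    have hcol : ∀ ed : G.edgeSet, ∃ i : Fin r, ∀ x y, (ed : Sym2 V) = s(x, y) → c' x y i := by
      rintro ⟨ed, hed⟩
      induction ed using Sym2.ind with
      | _ x y =>
        obtain ⟨i, hc⟩ : ∃ i, c' x y i := hed
        refine ⟨i, fun x' y' hxy => ?_⟩
        rcases Sym2.eq_iff.1 hxy with ⟨rfl, rfl⟩ | ⟨rfl, rfl⟩
        · exact hc
        · exact hs _ _ _ hc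
    choose col hcol using hcol
    obtain ⟨i, f, hf, hmono⟩ := hR col
    refine hfree (Finset.univ.map f) i (by rw [Finset.card_map]; simp) ?_
    intro x hx y hy hxy
    rw [Finset.mem_map] at hx hy
    obtain ⟨x', _, rfl⟩ := hx
    obtain ⟨y', _, rfl⟩ := hy
    have hne : x' ≠ y' := fun hne => hxy (by rw [hne])
    have h1 : (⊤ : SimpleGraph (Fin (k + 1))).Adj x' y' := hne
    rw [← hmono x' y' h1]
    exact hcol _ _ _ rfl
  · intro χ hsym
    obtain ⟨f, π, hf, hfc, hfχ⟩ := hχ χ hsym
    by_cases hπ : Function.Injective π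
    · right
      have hbij : Function.Bijective π := (Finite.injective_iff_bijective).1 hπ
      let σ : Fin r ≃ Fin r := Equiv.ofBijective π hbij
      refine ⟨fun x => f (e (Sum.inl x)), ?_, ?_⟩
      · intro x y hxy
        have h1 := e.injective (hf hxy)
        exact Sum.inl_injective h1
      · intro ψ
        obtain ⟨i, S, hS, hSψ⟩ := hH3 (fun x => σ.symm (ψ x))
        refine ⟨π i, S, hS.card_eq, ?_, ?_⟩
        · intro x hx
          have h1 := hSψ x hx
          have h2 : ψ x = σ i := by rw [← h1, Equiv.apply_symm_apply]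
          exact h2
        · intro x hx y hy hxy
          have hadj : (H i).Adj x y := hS.isClique hx hy hxy
          have hc : patCol H (e.symm (e (Sum.inl x))) (e.symm (e (Sum.inl y))) i := by
            rw [Equiv.symm_apply_apply, Equiv.symm_apply_apply]
            exact hadj
          exact ⟨⟨i, hfc _ _ _ hc⟩, hfχ _ _ _ hc⟩
    · left
      rw [Function.Injective] at hπ
      push Not at hπ
      obtain ⟨i, j, hij, hne⟩ := hπ
      refine ⟨π i, fun u => f (e (Sum.inr (i, j, u))), ?_, ?_⟩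
      · intro u v huv
        have h1 := e.injective (hf huv)
        have h2 := Sum.inr_injective h1
        simpa using h2
      · intro u v huv
        obtain ⟨t, ht, hc⟩ : ∃ t, (t = i ∨ t = j) ∧
            patCol H (Sum.inr (i, j, u)) (Sum.inr (i, j, v)) t := by
          by_cases h01 : (u : ℕ) + v = 1
          · exact ⟨j, Or.inr rfl, rfl, rfl, hne, huv, by rw [if_pos h01]⟩
          · exact ⟨i, Or.inl rfl, rfl, rfl, hne, huv, by rw [if_neg h01]⟩
        have hc' : patCol H (e.symm (e (Sum.inr (i, j, u)))) (e.symm (e (Sum.inr (i, j, v)))) t := by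
          rw [Equiv.symm_apply_apply, Equiv.symm_apply_apply]
          exact hc
        refine ⟨⟨t, hfc _ _ _ hc'⟩, ?_⟩
        rw [hfχ _ _ _ hc']
        rcases ht with rfl | rfl
        · rfl
        · exact hij.symm

/-- The Ramsey property is inherited by graphs containing `G`. -/
theorem ramsey_of_hom {r : ℕ} {V V' W : Type} {G : SimpleGraph V} {G' : SimpleGraph V'}
    {H : SimpleGraph W} (h : Ramsey r G H) (φ : V ↪ V')
    (hφ : ∀ x y, G.Adj x y → G'.Adj (φ x) (φ y)) : Ramsey r G' H := by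
  intro c'
  have hmem : ∀ e : G.edgeSet, Sym2.map φ e.1 ∈ G'.edgeSet := by
    rintro ⟨e, he⟩
    induction e using Sym2.ind with
    | _ x y =>
      rw [SimpleGraph.mem_edgeSet] at he
      rw [Sym2.map_mk, SimpleGraph.mem_edgeSet]
      exact hφ x y he
  obtain ⟨i, f, hf, hi⟩ := h (fun e => c' ⟨Sym2.map φ e.1, hmem e⟩)
  exact ⟨i, f.trans φ, fun x y hxy => hφ _ _ (hf x y hxy), fun x y hxy => hi x y hxy⟩

open Classical in
/-- If `Γ` is `r`-Ramsey for `K_{k+1}`, and `Γ` minus the vertices in `U` is not, where the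
vertices in `U` have degree at most `n`, then there is an `r`-Ramsey-minimal graph with minimum
degree at most `n`. -/
theorem exists_minimal_of_ramsey {r k n : ℕ} {V : Type} [Finite V] (Γ : SimpleGraph V) (U : Set V)
    (hΓ : Ramsey r Γ (⊤ : SimpleGraph (Fin (k + 1))))
    (hU : ¬ Ramsey r (Γ.induce Uᶜ) (⊤ : SimpleGraph (Fin (k + 1))))
    (hdeg : ∀ v ∈ U, (Γ.neighborSet v).ncard ≤ n) :
    ∃ (n' : ℕ) (G : SimpleGraph (Fin n')), RamseyMinimal r G (⊤ : SimpleGraph (Fin (k + 1))) ∧
      G.minDegree ≤ n := by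
  have hex : ∃ N : ℕ, ∃ (n' : ℕ) (G : SimpleGraph (Fin n')) (φ : Fin n' ↪ V),
      (∀ x y, G.Adj x y → Γ.Adj (φ x) (φ y)) ∧
      Ramsey r G (⊤ : SimpleGraph (Fin (k + 1))) ∧
      n' + Set.ncard {p : Fin n' × Fin n' | G.Adj p.1 p.2} = N := by
    let e : Fin (Nat.card V) ≃ V := (Finite.equivFin V).symm
    refine ⟨_, Nat.card V, Γ.comap e, e.toEmbedding, fun x y hxy => hxy, ?_, rfl⟩
    refine ramsey_of_hom hΓ e.symm.toEmbedding ?_
    intro x y hxy
    rw [SimpleGraph.comap_adj]
    change Γ.Adj (e (e.symm x)) (e (e.symm y))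
    rwa [Equiv.apply_symm_apply, Equiv.apply_symm_apply]
  obtain ⟨n', G, φ, hφ, hG, hN⟩ := Nat.find_spec hex
  have hmin : ∀ (m : ℕ) (G2 : SimpleGraph (Fin m)) (ψ : Fin m ↪ V),
      (∀ x y, G2.Adj x y → Γ.Adj (ψ x) (ψ y)) →
      Ramsey r G2 (⊤ : SimpleGraph (Fin (k + 1))) →
      n' + Set.ncard {p : Fin n' × Fin n' | G.Adj p.1 p.2} ≤
        m + Set.ncard {p : Fin m × Fin m | G2.Adj p.1 p.2} := by
    intro m G2 ψ h1 h2
    rw [hN]
    exact Nat.find_min' hex ⟨m, G2, ψ, h1, h2, rfl⟩
  have hRM : RamseyMinimal r G (⊤ : SimpleGraph (Fin (k + 1))) := by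
    refine ⟨hG, fun S hS hR => ?_⟩
    let e : Fin (Nat.card S.verts) ≃ S.verts := (Finite.equivFin S.verts).symm
    let ι : Fin (Nat.card S.verts) ↪ Fin n' := e.toEmbedding.trans (Function.Embedding.subtype _)
    have hR2 : Ramsey r (S.coe.comap e) (⊤ : SimpleGraph (Fin (k + 1))) := by
      refine ramsey_of_hom hR e.symm.toEmbedding ?_
      intro x y hxy
      rw [SimpleGraph.comap_adj]
      change S.coe.Adj (e (e.symm x)) (e (e.symm y))
      rwa [Equiv.apply_symm_apply, Equiv.apply_symm_apply]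
    have h1 := hmin _ (S.coe.comap e) (ι.trans φ) (fun x y hxy => hφ _ _ (S.adj_sub hxy)) hR2
    have himg : (Prod.map ι ι) '' {p : Fin (Nat.card S.verts) × Fin (Nat.card S.verts) |
        (S.coe.comap e).Adj p.1 p.2} ⊆ {p : Fin n' × Fin n' | S.Adj p.1 p.2} := by
      rintro _ ⟨p, hp, rfl⟩
      exact hp
    have hinj : Function.Injective (Prod.map ι ι) := ι.injective.prodMap ι.injective
    have h2 : Set.ncard {p : Fin (Nat.card S.verts) × Fin (Nat.card S.verts) |
        (S.coe.comap e).Adj p.1 p.2} ≤ Set.ncard {p : Fin n' × Fin n' | S.Adj p.1 p.2} := by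
      rw [← Set.ncard_image_of_injective _ hinj]
      exact Set.ncard_le_ncard himg (Set.toFinite _)
    have h3 : {p : Fin n' × Fin n' | S.Adj p.1 p.2} ⊆ {p : Fin n' × Fin n' | G.Adj p.1 p.2} :=
      fun p hp => S.adj_sub hp
    have h4 := Set.ncard_le_ncard h3 (Set.toFinite _)
    have h5 : Nat.card S.verts = S.verts.ncard := rfl
    have h6 : S.verts.ncard ≤ n' := by
      have := Set.ncard_le_ncard (Set.subset_univ S.verts) (Set.toFinite _)
      rwa [Set.ncard_univ, Nat.card_fin] at this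
    have h7 : S.verts.ncard = n' := by omega
    have h8 : Set.ncard {p : Fin n' × Fin n' | G.Adj p.1 p.2} ≤
        Set.ncard {p : Fin n' × Fin n' | S.Adj p.1 p.2} := by omega
    apply hS
    have h9 : S.verts = Set.univ := by
      apply Set.eq_of_subset_of_ncard_le (Set.subset_univ _) _ (Set.toFinite _)
      rw [Set.ncard_univ, Nat.card_fin, h7]
    have h10 := Set.eq_of_subset_of_ncard_le h3 h8 (Set.toFinite _)
    apply SimpleGraph.Subgraph.ext
    · rw [h9]; rfl
    · ext x y
      have := Set.ext_iff.1 h10 (x, y)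
      simpa using this
  obtain ⟨x, hx⟩ : ∃ x, φ x ∈ U := by
    by_contra hcon
    push Not at hcon
    apply hU
    refine ramsey_of_hom hG ⟨fun x => ⟨φ x, hcon x⟩, ?_⟩ ?_
    · intro x y hxy
      exact φ.injective (congrArg Subtype.val hxy)
    · intro x y hxy
      exact hφ x y hxy
  refine ⟨n', G, hRM, (G.minDegree_le_degree x).trans ?_⟩
  have h2 : G.degree x = (G.neighborSet x).ncard := by
    rw [← SimpleGraph.card_neighborSet_eq_degree, Set.ncard_eq_toFinset_card', Set.toFinset_card]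
  rw [h2, ← Set.ncard_image_of_injective _ φ.injective]
  refine (Set.ncard_le_ncard ?_ (Set.toFinite _)).trans (hdeg _ hx)
  rintro _ ⟨y, hy, rfl⟩
  exact hφ x y hy

/-- `Ramsey` for complete graphs in terms of symmetric functions -/
private theorem ple_ramsey_iff {r k : ℕ} (hr : 1 ≤ r) {V : Type} (G : SimpleGraph V) :
    Ramsey r G (⊤ : SimpleGraph (Fin (k + 1))) ↔ ∀ χ : V → V → Fin r, (∀ x y, χ x y = χ y x) →
      ∃ (i : Fin r) (f : Fin (k + 1) → V), Function.Injective f ∧
        ∀ x y, x ≠ y → G.Adj (f x) (f y) ∧ χ (f x) (f y) = i := by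
  classical
  constructor
  · intro h χ hχ
    obtain ⟨i, f, hf, hc⟩ := h (fun e => Sym2.lift ⟨χ, hχ⟩ e.1)
    refine ⟨i, f, f.injective, fun x y hxy => ?_⟩
    have hadj : (⊤ : SimpleGraph (Fin (k + 1))).Adj x y := hxy
    exact ⟨hf x y hadj, hc x y hadj⟩
  · intro h c
    have hr' : 0 < r := hr
    obtain ⟨i, f, hf, hc⟩ := h (fun x y => if h : G.Adj x y then c ⟨s(x, y), h⟩ else ⟨0, hr'⟩) (by
      intro x y
      by_cases hxy : G.Adj x y
      · rw [dif_pos hxy, dif_pos hxy.symm]
        congr 1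
        exact Subtype.ext Sym2.eq_swap
      · rw [dif_neg hxy, dif_neg (fun h => hxy h.symm)])
    refine ⟨i, ⟨f, hf⟩, fun x y hxy => (hc x y hxy).1, fun x y hxy => ?_⟩
    have h1 := (hc x y hxy).2
    rw [dif_pos (hc x y hxy).1] at h1
    exact h1

/-- the graph `G` with one new vertex for each function `Fin n → V`, joined to its range -/
private def pleGraph {V : Type} (n : ℕ) (G : SimpleGraph V) : SimpleGraph (V ⊕ (Fin n → V)) where
  Adj a b := match a, b with
    | Sum.inl x, Sum.inl y => G.Adj x y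
    | Sum.inl x, Sum.inr g => x ∈ Set.range g
    | Sum.inr g, Sum.inl x => x ∈ Set.range g
    | Sum.inr _, Sum.inr _ => False
  symm := by
    constructor
    rintro (x | g) (y | g') h
    · exact SimpleGraph.Adj.symm h
    · exact h
    · exact h
    · exact h
  loopless := by
    constructor
    rintro (x | g) h
    · exact SimpleGraph.irrefl G h
    · exact h

open Classical in
theorem exists_minimal_of_pack {r k n : ℕ} (hr : 1 ≤ r) (hk : 2 ≤ k) (h : Pack r k (Fin n)) :
    ∃ (n' : ℕ) (G : SimpleGraph (Fin n')), RamseyMinimal r G (⊤ : SimpleGraph (Fin (k + 1))) ∧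
      G.minDegree ≤ n := by
  obtain ⟨V, hV, G, hG, hpat⟩ := exists_pattern hr hk h
  refine exists_minimal_of_ramsey (pleGraph n G) (Set.range Sum.inr) ?_ ?_ ?_
  · rw [ple_ramsey_iff hr]
    intro χ hχ
    rcases hpat (fun x y => χ (Sum.inl x) (Sum.inl y)) (fun x y => hχ _ _) with
      ⟨i, f, hf, hc⟩ | ⟨g, hg, hψ⟩
    · exact ⟨i, fun x => Sum.inl (f x), Sum.inl_injective.comp hf, fun x y hxy => hc x y hxy⟩
    · obtain ⟨i, S, hS, hSi, hcl⟩ := hψ (fun j => χ (Sum.inl (g j)) (Sum.inr g))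
      set e : Fin k ↪o Fin n := S.orderEmbOfFin hS with he
      have heS : ∀ j, e j ∈ S := fun j => Finset.orderEmbOfFin_mem S hS j
      refine ⟨i, Fin.cons (Sum.inr g) (fun j => Sum.inl (g (e j))), ?_, ?_⟩
      · intro x y
        refine Fin.cases ?_ (fun x => ?_) x <;> refine Fin.cases ?_ (fun y => ?_) y
        · intro _
          rfl
        · intro hxy
          simp at hxy
        · intro hxy
          simp at hxy
        · intro hxy
          simp only [Fin.cons_succ, Sum.inl.injEq] at hxy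
          rw [e.injective (hg hxy)]
      · intro x y
        refine Fin.cases ?_ (fun x => ?_) x <;> refine Fin.cases ?_ (fun y => ?_) y
        · intro hxy
          exact absurd rfl hxy
        · intro _
          simp only [Fin.cons_zero, Fin.cons_succ]
          refine ⟨⟨e y, rfl⟩, ?_⟩
          rw [hχ]
          exact hSi _ (heS y)
        · intro _
          simp only [Fin.cons_zero, Fin.cons_succ]
          exact ⟨⟨e x, rfl⟩, hSi _ (heS x)⟩
        · intro hxy
          simp only [Fin.cons_succ]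
          exact hcl _ (heS x) _ (heS y) (fun h => hxy (by rw [e.injective h]))
  · intro hR
    apply hG
    rw [ple_ramsey_iff hr] at hR ⊢
    intro χ hχ
    have hU : ∀ v : ((Set.range Sum.inr)ᶜ : Set (V ⊕ (Fin n → V))), ∃ x : V, v.1 = Sum.inl x := by
      rintro ⟨x | g, hv⟩
      · exact ⟨x, rfl⟩
      · exact absurd ⟨g, rfl⟩ hv
    choose π hπ using hU
    obtain ⟨i, f, hf, hc⟩ := hR (fun a b => χ (π a) (π b)) (fun a b => hχ _ _)
    refine ⟨i, fun x => π (f x), ?_, ?_⟩
    · intro x y hxy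
      apply hf
      apply Subtype.ext
      rw [hπ, hπ]
      exact congrArg Sum.inl hxy
    · intro x y hxy
      obtain ⟨h1, h2⟩ := hc x y hxy
      refine ⟨?_, h2⟩
      have h3 : (pleGraph n G).Adj (f x).1 (f y).1 := h1
      rw [hπ, hπ] at h3
      exact h3
  · rintro v ⟨g, rfl⟩
    have h1 : (pleGraph n G).neighborSet (Sum.inr g) ⊆ (fun j => Sum.inl (g j)) '' (Set.univ : Set (Fin n)) := by
      rintro (x | g') hx
      · obtain ⟨j, hj⟩ : x ∈ Set.range g := hx
        exact ⟨j, Set.mem_univ _, by rw [← hj]⟩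
      · exact absurd hx (fun h => h)
    refine (Set.ncard_le_ncard h1 (Set.toFinite _)).trans ?_
    refine (Set.ncard_image_le (Set.toFinite _)).trans ?_
    rw [Set.ncard_univ, Nat.card_fin]


theorem P_le_of_pack {r k n : ℕ} (hr : 1 ≤ r) (hk : 2 ≤ k) (h : Pack r k (Fin n)) :
    P r k ≤ n := by
  classical
  obtain ⟨n', G, hG, hd⟩ := exists_minimal_of_pack hr hk h
  exact (Nat.sInf_le ⟨n', G, hG, rfl⟩ : P r k ≤ G.minDegree).trans hd

open Classical in
/-- A Ramsey-minimal graph for `K_{k+1}`, `k ≥ 1`, has no isolated vertex. -/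
theorem minDegree_pos {r k n : ℕ} (hr : 1 ≤ r) (hk : 1 ≤ k) (G : SimpleGraph (Fin n))
    (hG : RamseyMinimal r G (⊤ : SimpleGraph (Fin (k + 1)))) : 0 < G.minDegree := by
  obtain ⟨hR, hmin⟩ := hG
  have hn : 0 < n := by
    obtain ⟨_, f, _, _⟩ := hR (fun _ => ⟨0, hr⟩)
    exact Fin.pos (f 0)
  haveI : Nonempty (Fin n) := ⟨⟨0, hn⟩⟩
  rw [Nat.pos_iff_ne_zero]
  intro h0
  obtain ⟨v, hv⟩ := G.exists_minimal_degree_vertex
  have hiso : ∀ w, ¬ G.Adj v w := by
    intro w hw
    have h1 : 0 < G.degree v := (G.degree_pos_iff_exists_adj v).mpr ⟨w, hw⟩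
    omega
  let S : G.Subgraph :=
    { verts := {v}ᶜ
      Adj := G.Adj
      adj_sub := fun h => h
      edge_vert := by
        intro a b hab
        rw [Set.mem_compl_iff, Set.mem_singleton_iff]
        rintro rfl
        exact hiso _ hab
      symm := ⟨fun _ _ h => h.symm⟩ }
  have hS : S ≠ ⊤ := by
    intro h
    have h1 : v ∈ (⊤ : G.Subgraph).verts := Set.mem_univ v
    rw [← h] at h1
    exact h1 rfl
  apply hmin S hS
  intro c
  have hmem : ∀ a b, G.Adj a b → a ∈ S.verts ∧ b ∈ S.verts := fun a b hab =>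
    ⟨S.edge_vert hab, S.edge_vert hab.symm⟩
  -- the edge set of `S.coe` and of `G`
  let χ : Fin n → Fin n → Fin r := fun a b =>
    if h : G.Adj a b then c ⟨s(⟨a, (hmem a b h).1⟩, ⟨b, (hmem a b h).2⟩), h⟩ else ⟨0, hr⟩
  have hχ : ∀ a b, χ a b = χ b a := by
    intro a b
    by_cases h : G.Adj a b
    · simp only [χ, dif_pos h, dif_pos h.symm]
      congr 1
      exact Subtype.ext Sym2.eq_swap
    · simp only [χ, dif_neg h, dif_neg (fun h' : G.Adj b a => h h'.symm)]
  obtain ⟨i, f, hf, hc⟩ := (ple_ramsey_iff hr G).1 hR χ hχ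
  have hfS : ∀ x, f x ∈ S.verts := by
    intro x
    obtain ⟨y, hy⟩ : ∃ y : Fin (k + 1), x ≠ y := by
      by_cases h : x = 0
      · exact ⟨Fin.last k, by rw [h]; intro h2; have := congrArg Fin.val h2; simp at this; omega⟩
      · exact ⟨0, h⟩
    exact (hmem _ _ (hc x y hy).1).1
  refine ⟨i, ⟨fun x => ⟨f x, hfS x⟩, fun x y hxy => hf (Subtype.ext_iff.1 hxy)⟩,
    fun x y hxy => (hc x y hxy).1, fun x y hxy => ?_⟩
  have h1 := (hc x y hxy).2
  simp only [χ, dif_pos (hc x y hxy).1] at h1
  exact h1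

theorem P_pos {r k n : ℕ} (hr : 1 ≤ r) (hk : 2 ≤ k) (h : Pack r k (Fin n)) : 0 < P r k := by
  classical
  obtain ⟨n', G, hG, _⟩ := exists_minimal_of_pack hr hk h
  have hne : {d : ℕ | ∃ (n : ℕ) (G : SimpleGraph (Fin n)),
      RamseyMinimal r G (⊤ : SimpleGraph (Fin (k + 1))) ∧ G.minDegree = d}.Nonempty :=
    ⟨_, n', G, hG, rfl⟩
  obtain ⟨m, G', hG', hd⟩ := Nat.sInf_mem hne
  have h1 := minDegree_pos hr (by omega) G' hG'
  have h2 : P r k = G'.minDegree := hd.symm
  rw [h2]
  exact h1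

end FB7530
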