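import Mathlib

/-! Szonyi's theorem on the number of directions, elementary proof by Redei polynomials. -/

namespace FB7530

open Polynomial Finset

section Weight

variable {F : Type*} [Field F]

/-- total degree at most `m` -/
def Wt (m : ℕ) (f : F[X][X]) : Prop := ∀ d e, m < d + e → (f.coeff d).coeff e = 0

theorem Wt.mul {m m' : ℕ} {f g : F[X][X]} (hf : Wt m f) (hg : Wt m' g) : Wt (m + m') (f * g) := by
  intro d e h
  rw [coeff_mul, finsetSum_coeff]
  apply Finset.sum_eq_zero
  rintro ⟨i, j⟩ hij
  rw [coeff_mul]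
  apply Finset.sum_eq_zero
  rintro ⟨k, l⟩ hkl
  rw [HasAntidiagonal.mem_antidiagonal] at hij hkl
  simp only at hij hkl ⊢
  by_cases h1 : m < i + k
  · rw [hf i k h1, zero_mul]
  · rw [hg j l (by omega), mul_zero]

theorem Wt.sub {m : ℕ} {f g : F[X][X]} (hf : Wt m f) (hg : Wt m g) : Wt m (f - g) := by
  intro d e h
  rw [coeff_sub, coeff_sub, hf d e h, hg d e h, sub_zero]

theorem Wt.one : Wt 0 (1 : F[X][X]) := by
  intro d e h
  rw [coeff_one]
  split_ifs with h1
  · rw [coeff_one, if_neg (by omega)]
  · rw [coeff_zero]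

theorem Wt.X : Wt 1 (X : F[X][X]) := by
  intro d e h
  rw [coeff_X]
  split_ifs with h1
  · rw [coeff_one, if_neg (by omega)]
  · rw [coeff_zero]

theorem Wt.C {m : ℕ} {a : F[X]} (ha : ∀ e, m < e → a.coeff e = 0) : Wt m (C a : F[X][X]) := by
  intro d e h
  rw [coeff_C]
  split_ifs with h1
  · exact ha e (by omega)
  · rw [coeff_zero]

theorem Wt.prod {ι : Type*} (s : Finset ι) (f : ι → F[X][X]) (h : ∀ i ∈ s, Wt 1 (f i)) :
    Wt s.card (∏ i ∈ s, f i) := by
  classical
  induction s using Finset.induction_on with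
  | empty => rw [Finset.prod_empty, Finset.card_empty]; exact Wt.one
  | insert a s ha ih =>
    rw [Finset.prod_insert ha, Finset.card_insert_of_notMem ha, add_comm]
    exact (h a (Finset.mem_insert_self _ _)).mul
      (ih fun i hi => h i (Finset.mem_insert_of_mem hi))

/-- the remainder of `T ^ m` modulo `R`, by recursion -/
noncomputable def GG (n : ℕ) (R : F[X][X]) : ℕ → F[X][X]
  | 0 => 1
  | m + 1 => Polynomial.X * GG n R m - Polynomial.C ((GG n R m).coeff (n - 1)) * R

theorem GG_dvd (n : ℕ) (R : F[X][X]) (m : ℕ) : R ∣ Polynomial.X ^ m - GG n R m := by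
  induction m with
  | zero => rw [pow_zero, GG, sub_self]; exact dvd_zero _
  | succ m ih =>
    have e : Polynomial.X ^ (m + 1) - GG n R (m + 1) =
        Polynomial.X * (Polynomial.X ^ m - GG n R m) +
          Polynomial.C ((GG n R m).coeff (n - 1)) * R := by
      rw [GG, pow_succ]; ring
    rw [e]
    exact dvd_add (ih.mul_left _) (dvd_mul_left _ _)

theorem GG_coeff (n : ℕ) (hn : 1 ≤ n) (R : F[X][X]) (hR : R.Monic) (hRn : R.natDegree = n) (m : ℕ) :
    ∀ d, n ≤ d → (GG n R m).coeff d = 0 := by
  induction m with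
  | zero =>
    intro d hd
    rw [GG, coeff_one, if_neg (by omega)]
  | succ m ih =>
    intro d hd
    obtain ⟨d', rfl⟩ : ∃ d', d = d' + 1 := ⟨d - 1, by omega⟩
    rw [GG, coeff_sub, coeff_X_mul, coeff_C_mul]
    rcases eq_or_lt_of_le hd with h | h
    · have h1 : R.coeff (d' + 1) = 1 := by rw [← h, ← hRn]; exact hR.coeff_natDegree
      rw [h1, mul_one, show n - 1 = d' by omega, sub_self]
    · have h1 : R.coeff (d' + 1) = 0 := coeff_eq_zero_of_natDegree_lt (by omega)
      rw [ih d' (by omega), h1, mul_zero, sub_zero]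

theorem GG_wt (n : ℕ) (hn : 1 ≤ n) (R : F[X][X]) (hR : Wt n R) (m : ℕ) : Wt m (GG n R m) := by
  induction m with
  | zero => exact Wt.one
  | succ m ih =>
    rw [GG]
    refine Wt.sub ?_ ?_
    · rw [add_comm]; exact Wt.X.mul ih
    · by_cases h : m < n - 1
      · have h0 : (GG n R m).coeff (n - 1) = 0 := by
          ext e
          rw [ih (n - 1) e (by omega), coeff_zero]
        rw [h0, C_0, zero_mul]
        intro d e _
        rw [coeff_zero, coeff_zero]
      · have h1 : Wt (m - (n - 1)) (Polynomial.C ((GG n R m).coeff (n - 1)) : F[X][X]) :=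
          Wt.C fun e he => ih (n - 1) e (by omega)
        have h2 := h1.mul hR
        rwa [show m - (n - 1) + n = m + 1 by omega] at h2

end Weight

section Main

variable {p : ℕ} [Fact p.Prime]

/-- the Redei polynomial -/
noncomputable def RR (X : Finset (ZMod p × ZMod p)) : (ZMod p)[X][X] :=
  ∏ P ∈ X, (Polynomial.X - C (C P.2 - C P.1 * Polynomial.X))

theorem RR_monic (X : Finset (ZMod p × ZMod p)) : (RR X).Monic :=
  monic_prod_of_monic _ _ fun _ _ => monic_X_sub_C _

theorem RR_natDegree (X : Finset (ZMod p × ZMod p)) : (RR X).natDegree = X.card := by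
  unfold RR
  rw [natDegree_prod_of_monic _ _ fun _ _ => monic_X_sub_C _,
    Finset.sum_congr rfl fun P _ => natDegree_X_sub_C _]
  simp

theorem RR_wt (X : Finset (ZMod p × ZMod p)) : Wt X.card (RR X) := by
  refine Wt.prod X _ fun P _ => Wt.X.sub (Wt.C fun e he => ?_)
  rw [coeff_sub, coeff_C, if_neg (by omega), coeff_C_mul, coeff_X, if_neg (by omega), mul_zero,
    sub_zero]

/-- the specialisation at `y` -/
noncomputable def sp (y : ZMod p) : (ZMod p)[X][X] →+* (ZMod p)[X] := mapRingHom (evalRingHom y)

theorem sp_coeff (y : ZMod p) (f : (ZMod p)[X][X]) (d : ℕ) :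
    (sp y f).coeff d = (f.coeff d).eval y := by
  unfold sp
  rw [coe_mapRingHom, coeff_map]
  rfl

theorem sp_X (y : ZMod p) : sp y Polynomial.X = Polynomial.X := by
  unfold sp
  rw [coe_mapRingHom, map_X]

theorem sp_C (y : ZMod p) (a : (ZMod p)[X]) : sp y (C a) = C (a.eval y) := by
  unfold sp
  rw [coe_mapRingHom, map_C]
  rfl

theorem sp_RR (y : ZMod p) (X : Finset (ZMod p × ZMod p)) :
    sp y (RR X) = ((X.val.map fun P => P.2 - P.1 * y).map fun a => Polynomial.X - C a).prod := by
  unfold RR
  rw [map_prod, Multiset.map_map]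
  refine Finset.prod_congr rfl fun P _ => ?_
  rw [map_sub, sp_X, sp_C]
  simp

/-- If the points of `X`, `2 ≤ |X| ≤ p`, determine only slopes in `M` and `2 |M| ≤ |X|`, then they
are collinear. -/
theorem directions {p : ℕ} [Fact p.Prime] (X : Finset (ZMod p × ZMod p)) (M : Finset (ZMod p))
    (h2 : 2 ≤ X.card) (hX : X.card ≤ p) (hM : 2 * M.card ≤ X.card)
    (hs : ∀ P ∈ X, ∀ Q ∈ X, P ≠ Q → P.1 ≠ Q.1 ∧ (Q.2 - P.2) / (Q.1 - P.1) ∈ M) :
    ∃ m ∈ M, ∃ c, ∀ P ∈ X, P.2 = m * P.1 + c := by
  classical
  have hp : p.Prime := Fact.out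
  set n := X.card with hn
  set N := M.card with hN
  set G := GG n (RR X) p with hG
  have hGn : ∀ d, n ≤ d → G.coeff d = 0 :=
    GG_coeff n (by omega) (RR X) (RR_monic X) (RR_natDegree X) p
  have hGw : Wt p G := GG_wt n (by omega) (RR X) (RR_wt X) p
  have hGd : RR X ∣ Polynomial.X ^ p - G := GG_dvd n (RR X) p
  have hdvd : ∀ y, sp y (RR X) ∣ Polynomial.X ^ p - sp y G := by
    intro y
    have := map_dvd (sp y) hGd
    rwa [map_sub, map_pow, sp_X] at this
  have hdegR : ∀ y, (sp y (RR X)).natDegree = n := by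
    intro y
    rw [sp_RR, natDegree_multiset_prod_X_sub_C_eq_card]
    simp [hn]
  have hspn : ∀ y d, n ≤ d → (sp y G).coeff d = 0 := by
    intro y d hd
    rw [sp_coeff, hGn d hd, eval_zero]
  have hspdeg : ∀ y, (sp y G).natDegree < n := by
    intro y
    have h1 : (sp y G).natDegree ≤ n - 1 := by
      rw [natDegree_le_iff_coeff_eq_zero]
      intro d hd
      exact hspn y d (by omega)
    omega
  have hcard : Fintype.card (ZMod p) = p := ZMod.card p
  have hrootsX : (Polynomial.X ^ p - Polynomial.X : (ZMod p)[X]).roots = Finset.univ.val := by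
    have := FiniteField.roots_X_pow_card_sub_X (ZMod p)
    rwa [hcard] at this
  have hXpne : (Polynomial.X ^ p - Polynomial.X : (ZMod p)[X]) ≠ 0 :=
    FiniteField.X_pow_card_sub_X_ne_zero (ZMod p) hp.one_lt
  -- outside `M` the specialisation is `T`
  have hout : ∀ y, y ∉ M → sp y G = Polynomial.X := by
    intro y hy
    have hnd : (X.val.map fun P => P.2 - P.1 * y).Nodup := by
      refine Multiset.Nodup.map_on ?_ X.nodup
      intro P hP Q hQ hPQ
      by_contra hne
      obtain ⟨h3, h4⟩ := hs P hP Q hQ hne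
      apply hy
      have h5 : Q.1 - P.1 ≠ 0 := sub_ne_zero.2 (Ne.symm h3)
      have h6 : y = (Q.2 - P.2) / (Q.1 - P.1) := by
        rw [eq_div_iff h5]
        linear_combination hPQ
      rw [h6]; exact h4
    have h1 : sp y (RR X) ∣ Polynomial.X ^ p - Polynomial.X := by
      rw [sp_RR, Multiset.prod_X_sub_C_dvd_iff_le_roots hXpne, hrootsX,
        Multiset.le_iff_subset hnd]
      intro a _
      exact Finset.mem_univ a
    have h3 : sp y (RR X) ∣ Polynomial.X - sp y G := by
      have := dvd_sub (hdvd y) h1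
      have e : (Polynomial.X ^ p - sp y G) - (Polynomial.X ^ p - Polynomial.X) =
          Polynomial.X - sp y G := by ring
      rwa [e] at this
    have h4 : Polynomial.X - sp y G = 0 := by
      refine eq_zero_of_dvd_of_natDegree_lt h3 ?_
      rw [hdegR]
      refine lt_of_le_of_lt (natDegree_sub_le _ _) ?_
      rw [natDegree_X]
      exact max_lt (by omega) (hspdeg y)
    exact (sub_eq_zero.1 h4).symm
  -- an actual slope
  obtain ⟨P1, hP1, P2, hP2, hP12⟩ := Finset.one_lt_card.1 (show 1 < X.card by omega)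
  obtain ⟨h12, hslope⟩ := hs P1 hP1 P2 hP2 hP12
  set y := (P2.2 - P1.2) / (P2.1 - P1.1) with hy
  have hN1 : 1 ≤ N := Finset.card_pos.2 ⟨y, hslope⟩
  have hNp : N ≤ p := by omega
  -- degree at most N
  have hdegG : ∀ d, N < d → G.coeff d = 0 := by
    intro d hd
    refine eq_zero_of_natDegree_lt_card_of_eval_eq_zero' _ (Finset.univ \ M) ?_ ?_
    · intro z hz
      have hzM : z ∉ M := (Finset.mem_sdiff.1 hz).2
      have := hout z hzM
      rw [← sp_coeff, this, coeff_X, if_neg (by omega)]
    · rw [Finset.card_sdiff_of_subset (Finset.subset_univ M), Finset.card_univ, hcard]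
      by_cases hdp : p < d
      · have h0 : G.coeff d = 0 := hGn d (by omega)
        rw [h0, natDegree_zero]
        omega
      · have : (G.coeff d).natDegree ≤ p - d := by
          rw [natDegree_le_iff_coeff_eq_zero]
          intro e he
          exact hGw d e (by omega)
        omega
  have hspN : (sp y G).natDegree ≤ N := by
    rw [natDegree_le_iff_coeff_eq_zero]
    intro d hd
    rw [sp_coeff, hdegG d hd, eval_zero]
  set g := sp y G with hg
  set s : Multiset (ZMod p) := X.val.map fun P => P.2 - P.1 * y with hsdef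
  have hRy : sp y (RR X) = (s.map fun a => Polynomial.X - C a).prod := sp_RR y X
  have hHne : (Polynomial.X ^ p - g : (ZMod p)[X]) ≠ 0 := by
    intro h0
    have h1 : (Polynomial.X ^ p : (ZMod p)[X]) = g := sub_eq_zero.1 h0
    have h3 := hspdeg y
    rw [← hg, ← h1, natDegree_X_pow] at h3
    omega
  have hsH : s ≤ (Polynomial.X ^ p - g).roots := by
    rw [← Multiset.prod_X_sub_C_dvd_iff_le_roots hHne, ← hRy]
    exact hdvd y
  have hcountH : ∀ ρ, (Polynomial.X - C ρ) ^ (s.count ρ) ∣ Polynomial.X ^ p - g := by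
    intro ρ
    rw [← le_rootMultiplicity_iff hHne, ← count_roots]
    exact Multiset.le_iff_count.1 hsH ρ
  have hderH : derivative (Polynomial.X ^ p - g) = - derivative g := by
    rw [derivative_sub, derivative_X_pow]
    simp
  -- the double root
  have hdouble : 2 ≤ s.count (P1.2 - P1.1 * y) := by
    have h5 : P2.1 - P1.1 ≠ 0 := sub_ne_zero.2 (Ne.symm h12)
    have e : P2.2 - P2.1 * y = P1.2 - P1.1 * y := by
      have : y * (P2.1 - P1.1) = P2.2 - P1.2 := by rw [hy, div_mul_cancel₀ _ h5]
      linear_combination -this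
    rw [hsdef, Multiset.count_map]
    have hsub : ({P1, P2} : Finset (ZMod p × ZMod p)).val ≤
        Multiset.filter (fun P => P1.2 - P1.1 * y = P.2 - P.1 * y) X.val := by
      rw [Multiset.le_iff_subset (Finset.nodup _)]
      intro P hP
      rw [Multiset.mem_filter]
      have hP' : P ∈ ({P1, P2} : Finset (ZMod p × ZMod p)) := hP
      rw [Finset.mem_insert, Finset.mem_singleton] at hP'
      rcases hP' with rfl | rfl
      · exact ⟨hP1, rfl⟩
      · exact ⟨hP2, e.symm⟩
    have := Multiset.card_le_card hsub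
    have h6 : Multiset.card ({P1, P2} : Finset (ZMod p × ZMod p)).val = 2 := Finset.card_pair hP12
    omega
  by_cases hQ : (Polynomial.X - g) * derivative g = 0
  · rcases mul_eq_zero.1 hQ with h0 | h0
    · -- g = T
      exfalso
      have h1 : g = Polynomial.X := (sub_eq_zero.1 h0).symm
      rw [h1, hrootsX] at hsH
      have h3 := Multiset.le_iff_count.1 hsH (P1.2 - P1.1 * y)
      have h4 := Multiset.nodup_iff_count_le_one.1 (Finset.univ : Finset (ZMod p)).nodup
        (P1.2 - P1.1 * y)
      omega
    · -- g constant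
      have hgc : g = C (g.coeff 0) := by
        ext d
        rw [coeff_C]
        split_ifs with hd
        · rw [hd]
        · obtain ⟨d', rfl⟩ : ∃ d', d = d' + 1 := ⟨d - 1, by omega⟩
          by_cases hdn : n ≤ d' + 1
          · exact hspn y _ hdn
          · have h3 : (derivative g).coeff d' = 0 := by rw [h0, coeff_zero]
            rw [coeff_derivative] at h3
            rcases mul_eq_zero.1 h3 with h4 | h4
            · exact h4
            · exfalso
              have h5 : ((d' + 1 : ℕ) : ZMod p) = 0 := by push_cast; exact h4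
              rw [ZMod.natCast_eq_zero_iff] at h5
              have := Nat.le_of_dvd (by omega) h5
              omega
      refine ⟨y, hslope, g.coeff 0, fun P hP => ?_⟩
      have hmem : P.2 - P.1 * y ∈ s := Multiset.mem_map.2 ⟨P, hP, rfl⟩
      have hroot : P.2 - P.1 * y ∈ (Polynomial.X ^ p - g).roots := Multiset.mem_of_le hsH hmem
      rw [mem_roots hHne, IsRoot.def, eval_sub, eval_pow, eval_X, ZMod.pow_card, hgc, eval_C] at hroot
      linear_combination hroot
  · exfalso
    have hle : s ≤ ((Polynomial.X - g) * derivative g).roots := by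
      rw [Multiset.le_iff_count]
      intro ρ
      rw [count_roots, le_rootMultiplicity_iff hQ]
      rcases Nat.eq_zero_or_pos (s.count ρ) with h0 | h0
      · rw [h0, pow_zero]; exact one_dvd _
      · obtain ⟨k, hk⟩ : ∃ k, s.count ρ = k + 1 := ⟨s.count ρ - 1, by omega⟩
        rw [hk, pow_succ']
        have hroot : (Polynomial.X ^ p - g).eval ρ = 0 := by
          have : ρ ∈ (Polynomial.X ^ p - g).roots :=
            Multiset.mem_of_le hsH (Multiset.count_pos.1 h0)
          rwa [mem_roots hHne, IsRoot.def] at this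
        refine mul_dvd_mul ?_ ?_
        · rw [dvd_iff_isRoot, IsRoot.def, eval_sub, eval_X]
          rw [eval_sub, eval_pow, eval_X, ZMod.pow_card] at hroot
          exact hroot
        · have h3 := hcountH ρ
          rw [hk] at h3
          have h4 := pow_sub_one_dvd_derivative_of_pow_dvd h3
          rw [Nat.add_sub_cancel, hderH, dvd_neg] at h4
          exact h4
    have h1 := Multiset.card_le_card hle
    have h3 : Multiset.card s = n := by rw [hsdef, Multiset.card_map]; rfl
    have h4 := card_roots' ((Polynomial.X - g) * derivative g)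
    have h5 : ((Polynomial.X - g) * derivative g).natDegree ≤ N + (N - 1) := by
      refine natDegree_mul_le.trans (add_le_add ?_ ?_)
      · refine (natDegree_sub_le _ _).trans (max_le ?_ hspN)
        rw [natDegree_X]; exact hN1
      · exact (natDegree_derivative_le g).trans (by omega)
    omega

end Main

end FB7530
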