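import Mathlib
import Pool.Agent.Lib_MP_fb7530_co.Pack
import Pool.Agent.Lib_MP_fb7530_co.Directions

/-! Random labelling of the lines of the affine plane: a gadget yields a packing. -/

namespace FB7530

open Finset

/-- The slope of the line through two points. -/
noncomputable def slp {p : ℕ} [Fact p.Prime] (P Q : ZMod p × ZMod p) : ZMod p :=
  (Q.2 - P.2) / (Q.1 - P.1)

lemma slp_comm {p : ℕ} [Fact p.Prime] (P Q : ZMod p × ZMod p) : slp P Q = slp Q P := by
  unfold slp
  rw [← neg_sub P.2 Q.2, ← neg_sub P.1 Q.1, neg_div_neg_eq]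

lemma slp_line {p : ℕ} [Fact p.Prime] (x x' m c : ZMod p) (h : x ≠ x') :
    slp (x, m * x + c) (x', m * x' + c) = m := by
  unfold slp
  have : x' - x ≠ 0 := sub_ne_zero.mpr (Ne.symm h)
  field_simp
  ring

/-- The graph of colour with slope set `M` given by the labelling `ψ`. -/
noncomputable def labG {p : ℕ} [Fact p.Prime] {V : Type} (H : SimpleGraph V) (M : Finset (ZMod p))
    (ψ : ZMod p × ZMod p → ZMod p → V) : SimpleGraph (ZMod p × ZMod p) where
  Adj P Q := P.1 ≠ Q.1 ∧ slp P Q ∈ M ∧
    H.Adj (ψ (slp P Q, P.2 - slp P Q * P.1) P.1) (ψ (slp P Q, Q.2 - slp P Q * Q.1) Q.1)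
  symm := ⟨fun P Q h => ⟨h.1.symm, by rw [slp_comm]; exact h.2.1, by
    rw [slp_comm]; exact h.2.2.symm⟩⟩
  loopless := ⟨fun P h => h.1 rfl⟩

lemma labG_line {p : ℕ} [Fact p.Prime] {V : Type} (H : SimpleGraph V) (M : Finset (ZMod p))
    (ψ : ZMod p × ZMod p → ZMod p → V) (m c x x' : ZMod p) (hm : m ∈ M) (hx : x ≠ x') :
    (labG H M ψ).Adj (x, m * x + c) (x', m * x' + c) ↔ H.Adj (ψ (m, c) x) (ψ (m, c) x') := by
  have h := slp_line x x' m c hx
  simp only [labG, h]
  simp [hx, hm]

lemma labG_free {p : ℕ} [Fact p.Prime] {V : Type} (H : SimpleGraph V) (M : Finset (ZMod p))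
    (ψ : ZMod p × ZMod p → ZMod p → V) {k : ℕ} (hk : 1 ≤ k) (hkp : k + 1 ≤ p)
    (hM : M.card = k / 2) (hH : H.CliqueFree (k + 1)) : (labG H M ψ).CliqueFree (k + 1) := by
  classical
  intro S hS
  have hcard := hS.card_eq
  obtain ⟨m, hm, c, hmc⟩ := directions S M (by omega) (by omega) (by omega) (by
    intro P hP Q hQ hPQ
    have h := hS.isClique hP hQ hPQ
    exact ⟨h.1, h.2.1⟩)
  have key : ∀ P ∈ S, ∀ Q ∈ S, P ≠ Q → H.Adj (ψ (m, c) P.1) (ψ (m, c) Q.1) := by
    intro P hP Q hQ hPQ
    have h := hS.isClique hP hQ hPQ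
    have h1 : P.1 ≠ Q.1 := h.1
    have eP : P = (P.1, m * P.1 + c) := Prod.ext rfl (hmc P hP)
    have eQ : Q = (Q.1, m * Q.1 + c) := Prod.ext rfl (hmc Q hQ)
    rw [eP, eQ] at h
    exact (labG_line H M ψ m c P.1 Q.1 hm h1).1 h
  refine hH (S.image fun P => ψ (m, c) P.1) ⟨?_, ?_⟩
  · intro u hu v hv huv
    simp only [coe_image, Set.mem_image, mem_coe] at hu hv
    obtain ⟨P, hP, rfl⟩ := hu
    obtain ⟨Q, hQ, rfl⟩ := hv
    exact key P hP Q hQ (fun e => huv (by rw [e]))
  · rw [card_image_of_injOn, hcard]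
    intro P hP Q hQ hPQ
    by_contra hne
    exact (key P hP Q hQ hne).ne hPQ

/-- The number of labellings of a line which miss `A` on `U`. -/
lemma card_miss {p : ℕ} [NeZero p] {V : Type} [Fintype V] [DecidableEq V] (U : Finset (ZMod p))
    (A : Finset V) (b : ℕ) (hU : b * Fintype.card V ≤ U.card) :
    ((univ.filter fun f : ZMod p → V => ∀ x ∈ U, f x ∉ A).card : ℝ) ≤
      (1 / 2 : ℝ) ^ (b * A.card) * (Fintype.card V : ℝ) ^ p := by
  classical
  set N := Fintype.card V with hN
  have h1 : (univ.filter fun f : ZMod p → V => ∀ x ∈ U, f x ∉ A) =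
      Fintype.piFinset (fun x => if x ∈ U then Aᶜ else univ) := by
    ext f
    simp only [mem_filter, mem_univ, true_and, Fintype.mem_piFinset]
    constructor
    · intro h x
      by_cases hx : x ∈ U
      · simp [hx, h x hx]
      · simp [hx]
    · intro h x hx
      have := h x
      simpa [hx] using this
  have hUp : U.card ≤ p := by
    have := U.card_le_univ
    simpa [ZMod.card] using this
  have h2 : (Fintype.piFinset (fun x : ZMod p => if x ∈ U then Aᶜ else (univ : Finset V))).card =
      (N - A.card) ^ U.card * N ^ (p - U.card) := by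
    rw [Fintype.card_piFinset]
    have : ∀ x : ZMod p, (if x ∈ U then Aᶜ else (univ : Finset V)).card =
        if x ∈ U then N - A.card else N := by
      intro x
      by_cases hx : x ∈ U
      · simp [hx, card_compl, hN]
      · simp [hx, hN]
    rw [prod_congr rfl (fun x _ => this x), prod_ite]
    simp only [prod_const]
    congr 2
    · simp
    · rw [filter_not, card_sdiff_of_subset (filter_subset _ _)]
      simp [ZMod.card]
  rw [h1, h2]
  have hA : A.card ≤ N := A.card_le_univ
  rcases Nat.eq_zero_or_pos N with h0 | hpos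
  · have hA0 : A.card = 0 := by omega
    rw [h0, hA0]
    have : U.card ≤ p := hUp
    simp only [Nat.sub_zero, Nat.mul_zero, pow_zero, one_mul, Nat.cast_mul, Nat.cast_pow,
      Nat.cast_zero]
    rw [← pow_add]
    have e : U.card + (p - U.card) = p := by omega
    rw [e]
  · push_cast [Nat.cast_sub hA]
    have hNr : (0 : ℝ) < N := by exact_mod_cast hpos
    have e1 : ((N : ℝ) - A.card) ^ U.card * (N : ℝ) ^ (p - U.card) =
        (1 - (A.card : ℝ) / N) ^ U.card * (N : ℝ) ^ p := by
      have : (N : ℝ) ^ p = (N : ℝ) ^ U.card * (N : ℝ) ^ (p - U.card) := by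
        rw [← pow_add]; congr 1; omega
      rw [this, ← mul_assoc, ← mul_pow]
      congr 2
      field_simp
    rw [e1]
    refine mul_le_mul_of_nonneg_right ?_ (by positivity)
    have hx0 : 0 ≤ 1 - (A.card : ℝ) / N := by
      rw [sub_nonneg, div_le_one hNr]
      exact_mod_cast hA
    have hx1 : 1 - (A.card : ℝ) / N ≤ Real.exp (-((A.card : ℝ) / N)) := by
      have := Real.add_one_le_exp (-((A.card : ℝ) / N))
      linarith
    calc (1 - (A.card : ℝ) / N) ^ U.card ≤ (Real.exp (-((A.card : ℝ) / N))) ^ U.card :=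
          pow_le_pow_left₀ hx0 hx1 _
      _ = Real.exp (-((A.card : ℝ) / N * U.card)) := by
          rw [← Real.exp_nat_mul]; ring_nf
      _ ≤ Real.exp (-((b * A.card : ℕ) : ℝ)) := by
          apply Real.exp_le_exp.mpr
          have h3 : (b : ℝ) * N ≤ U.card := by exact_mod_cast hU
          have h4 : (A.card : ℝ) / N * (b * N) ≤ (A.card : ℝ) / N * U.card :=
            mul_le_mul_of_nonneg_left h3 (by positivity)
          have h5 : (A.card : ℝ) / N * (b * N) = b * A.card := by field_simp
          push_cast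
          linarith
      _ = (Real.exp (-1)) ^ (b * A.card) := by
          rw [← Real.exp_nat_mul]; ring_nf
      _ ≤ (1 / 2 : ℝ) ^ (b * A.card) := by
          apply pow_le_pow_left₀ (Real.exp_pos _).le
          have := Real.add_one_le_exp (1 : ℝ)
          rw [Real.exp_neg, one_div]
          exact inv_anti₀ (by norm_num) (by linarith)

/-- The set of labellings of a line for which some kill set is missed on `U`. -/
noncomputable def badL {p : ℕ} [NeZero p] {V : Type} [Fintype V] [DecidableEq V]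
    (K : Finset (Finset V)) (U : Finset (ZMod p)) : Finset (ZMod p → V) :=
  univ.filter fun f => ∃ A ∈ K, ∀ x ∈ U, f x ∉ A

lemma card_badL {p : ℕ} [NeZero p] {V : Type} [Fintype V] [DecidableEq V]
    (K : Finset (Finset V)) (U : Finset (ZMod p)) (b : ℕ) (hU : b * Fintype.card V ≤ U.card)
    (β : ℝ) (hβ : (∑ A ∈ K, (1 / 2 : ℝ) ^ (b * A.card)) ≤ β) :
    ((badL K U).card : ℝ) ≤ β * (Fintype.card V : ℝ) ^ p := by
  classical
  have h1 : badL K U ⊆ K.biUnion fun A => univ.filter fun f : ZMod p → V => ∀ x ∈ U, f x ∉ A := by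
    intro f hf
    simp only [badL, mem_filter, mem_univ, true_and] at hf
    simpa using hf
  calc ((badL K U).card : ℝ) ≤ ((∑ A ∈ K,
        (univ.filter fun f : ZMod p → V => ∀ x ∈ U, f x ∉ A).card : ℕ) : ℝ) := by
        exact_mod_cast (card_le_card h1).trans card_biUnion_le
    _ = ∑ A ∈ K, ((univ.filter fun f : ZMod p → V => ∀ x ∈ U, f x ∉ A).card : ℝ) := by
        push_cast; rfl
    _ ≤ ∑ A ∈ K, (1 / 2 : ℝ) ^ (b * A.card) * (Fintype.card V : ℝ) ^ p :=
        sum_le_sum fun A _ => card_miss U A b hU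
    _ = (∑ A ∈ K, (1 / 2 : ℝ) ^ (b * A.card)) * (Fintype.card V : ℝ) ^ p := by
        rw [sum_mul]
    _ ≤ β * (Fintype.card V : ℝ) ^ p := mul_le_mul_of_nonneg_right hβ (by positivity)

/-- The number of rich lines of a given slope. -/
lemma rich_slope {p : ℕ} [Fact p.Prime] (r B : ℕ) (hB : 2 * r * B ≤ p)
    (T : Finset (ZMod p × ZMod p)) (hT : p ^ 2 ≤ r * T.card) (m : ZMod p) :
    p ≤ 2 * r * (univ.filter fun c : ZMod p =>
      B ≤ (univ.filter fun x : ZMod p => (x, m * x + c) ∈ T).card).card := by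
  classical
  set u : ZMod p → ℕ := fun c => (univ.filter fun x : ZMod p => (x, m * x + c) ∈ T).card with hu
  set R := univ.filter fun c : ZMod p => B ≤ u c with hR
  have hsum : ∑ c : ZMod p, u c = T.card := by
    have h1 : T.card = ∑ c : ZMod p, (T.filter fun P => P.2 - m * P.1 = c).card := by
      rw [← card_eq_sum_card_fiberwise (f := fun P : ZMod p × ZMod p => P.2 - m * P.1)
        (t := (univ : Finset (ZMod p)))]
      intro x _
      simp
    rw [h1]
    refine sum_congr rfl fun c _ => ?_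
    refine card_bij (fun x _ => (x, m * x + c)) ?_ ?_ ?_
    · intro x hx
      simp only [mem_filter, mem_univ, true_and] at hx ⊢
      exact ⟨hx, by ring⟩
    · intro x _ y _ h
      exact (Prod.mk.inj h).1
    · intro P hP
      simp only [mem_filter] at hP
      refine ⟨P.1, ?_, ?_⟩
      · simp only [mem_filter, mem_univ, true_and]
        have : (P.1, m * P.1 + c) = P := Prod.ext rfl (by rw [← hP.2]; ring)
        rw [this]; exact hP.1
      · exact Prod.ext rfl (by simp only; rw [← hP.2]; ring)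
  have hup : ∀ c, u c ≤ p := fun c => by
    have := card_le_univ (univ.filter fun x : ZMod p => (x, m * x + c) ∈ T)
    simpa [ZMod.card] using this
  have hle : ∑ c : ZMod p, u c ≤ R.card * p + p * B := by
    have h1 : ∀ c ∈ (univ : Finset (ZMod p)), u c ≤ (if c ∈ R then p else 0) + B := by
      intro c _
      by_cases hc : c ∈ R
      · simp only [hc, if_true]
        have := hup c
        omega
      · simp only [hc, if_false]
        simp only [hR, mem_filter, mem_univ, true_and, not_le] at hc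
        omega
    refine (sum_le_sum h1).trans ?_
    rw [sum_add_distrib]
    simp [ZMod.card]
  have hp : 0 < p := (Fact.out : p.Prime).pos
  rw [hsum] at hle
  -- p^2 ≤ r * T ≤ r R p + r p B
  have h3 : 2 * p ^ 2 ≤ 2 * r * R.card * p + p * p := by
    calc 2 * p ^ 2 ≤ 2 * (r * T.card) := by omega
      _ ≤ 2 * (r * (R.card * p + p * B)) := by gcongr
      _ = 2 * r * R.card * p + p * (2 * r * B) := by ring
      _ ≤ 2 * r * R.card * p + p * p := by gcongr
  have h4 : p * p ≤ (2 * r * R.card) * p := by nlinarith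
  exact Nat.le_of_mul_le_mul_right h4 hp


/-- The number of labellings whose restriction to every line of `R` is in the bad set. -/
lemma card_bad_all {L F : Type} [Fintype L] [DecidableEq L] [Fintype F] [DecidableEq F]
    (R : Finset L) (Bd : L → Finset F) (E : ℕ)
    (hB : ∀ l ∈ R, ((Bd l).card : ℝ) ≤ (1 / 2 : ℝ) ^ E * Fintype.card F) :
    ((univ.filter fun ψ : L → F => ∀ l ∈ R, ψ l ∈ Bd l).card : ℝ) ≤
      (1 / 2 : ℝ) ^ (E * R.card) * (Fintype.card (L → F) : ℝ) := by
  classical
  have h1 : (univ.filter fun ψ : L → F => ∀ l ∈ R, ψ l ∈ Bd l) =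
      Fintype.piFinset (fun l => if l ∈ R then Bd l else univ) := by
    ext f
    simp only [mem_filter, mem_univ, true_and, Fintype.mem_piFinset]
    constructor
    · intro h x
      by_cases hx : x ∈ R
      · simp [hx, h x hx]
      · simp [hx]
    · intro h x hx
      have := h x
      simpa [hx] using this
  rw [h1, Fintype.card_piFinset]
  push_cast
  have h2 : ∀ l ∈ (univ : Finset L), (((if l ∈ R then Bd l else univ) : Finset F).card : ℝ) ≤
      (if l ∈ R then (1 / 2 : ℝ) ^ E else 1) * Fintype.card F := by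
    intro l _
    by_cases hl : l ∈ R
    · simp only [hl, if_true]; exact hB l hl
    · simp [hl]
  refine (prod_le_prod (fun l _ => by positivity) h2).trans ?_
  rw [prod_mul_distrib, prod_ite]
  simp only [prod_const, one_pow, mul_one]
  rw [Fintype.card_fun]
  push_cast
  have h3 : (univ.filter fun l => l ∈ R).card = R.card := by simp
  rw [h3, pow_mul, Finset.card_univ]

lemma exists_slopes {p : ℕ} [Fact p.Prime] (r K : ℕ) (h : r * K ≤ p) :
    ∃ M : Fin r → Finset (ZMod p), (∀ i, (M i).card = K) ∧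
      ∀ i j x, x ∈ M i → x ∈ M j → i = j := by
  classical
  have hinj : ∀ a b : ℕ, a < p → b < p → ((a : ℕ) : ZMod p) = b → a = b := by
    intro a b ha hb hab
    have := congrArg ZMod.val hab
    rwa [ZMod.val_natCast_of_lt ha, ZMod.val_natCast_of_lt hb] at this
  have hlt : ∀ (i : Fin r) (t : ℕ), t < K → (i : ℕ) * K + t < p := by
    intro i t ht
    have h1 : ((i : ℕ) + 1) * K ≤ r * K := Nat.mul_le_mul_right _ i.2
    have h2 : ((i : ℕ) + 1) * K = (i : ℕ) * K + K := by ring
    omega
  refine ⟨fun i => (range K).image fun t => (((i : ℕ) * K + t : ℕ) : ZMod p), ?_, ?_⟩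
  · intro i
    rw [card_image_of_injOn, card_range]
    intro a ha b hb hab
    simp only [coe_range, Set.mem_Iio] at ha hb
    have := hinj _ _ (hlt i a ha) (hlt i b hb) hab
    omega
  · intro i j x hi hj
    simp only [mem_image, mem_range] at hi hj
    obtain ⟨a, ha, rfl⟩ := hi
    obtain ⟨b, hb, hab⟩ := hj
    have h1 := hinj _ _ (hlt j b hb) (hlt i a ha) hab
    have h2 : ((i : ℕ) * K + a) / K = i := by
      rw [mul_comm, Nat.mul_add_div (by omega), Nat.div_eq_of_lt ha, add_zero]
    have h3 : ((j : ℕ) * K + b) / K = j := by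
      rw [mul_comm, Nat.mul_add_div (by omega), Nat.div_eq_of_lt hb, add_zero]
    apply Fin.ext
    rw [← h2, ← h3, h1]

/-- Random labelling of lines. -/
theorem pack_of_gad {r k N b E p : ℕ} [Fact p.Prime] (hr : 1 ≤ r) (hk : 1 ≤ k) (hkp : k + 1 ≤ p)
    (hrk : r * (k / 2) ≤ p) (hN : 2 * r * b * N ≤ p) (hE : 2 * r ^ 2 * p < E * (k / 2))
    (h : GadEx k N b ((1 / 2 : ℝ) ^ E)) : Pack r k (ZMod p × ZMod p) := by
  classical
  obtain ⟨V, _, _, H, K, hcard, hfree, hweight, hgad⟩ := h
  obtain ⟨M, hMcard, hMdisj⟩ := exists_slopes (p := p) r (k / 2) hrk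
  have hp : 0 < p := (Fact.out : p.Prime).pos
  -- `V` is nonempty
  have hVne : 0 < Fintype.card V := by
    by_contra h0
    have h0' : Fintype.card V = 0 := by omega
    have hV : IsEmpty V := Fintype.card_eq_zero_iff.mp h0'
    by_cases hK : ∀ A ∈ K, ¬ A ⊆ (∅ : Finset V)
    · obtain ⟨S, hS, _⟩ := hgad ∅ hK
      have := hS.card_eq
      have h1 : S.card ≤ 0 := by
        have := S.card_le_univ
        omega
      omega
    · push Not at hK
      obtain ⟨A, hA, hA0⟩ := hK
      have hA1 : A = ∅ := subset_empty.mp hA0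
      have h1 : (1 : ℝ) ≤ ∑ A ∈ K, (1 / 2 : ℝ) ^ (b * A.card) := by
        have := single_le_sum (f := fun A : Finset V => (1 / 2 : ℝ) ^ (b * A.card))
          (fun i _ => by positivity) hA
        simpa [hA1] using this
      have hE0 : E ≠ 0 := by
        rintro rfl
        omega
      have h2 : (1 / 2 : ℝ) ^ E < 1 := pow_lt_one₀ (by norm_num) (by norm_num) hE0
      linarith
  -- the popular colour
  have hpop : ∀ χ : ZMod p × ZMod p → Fin r, ∃ i : Fin r,
      p ^ 2 ≤ r * (univ.filter fun P => χ P = i).card := by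
    intro χ
    by_contra hcon
    push Not at hcon
    have h1 : ∑ i : Fin r, (univ.filter fun P => χ P = i).card = p ^ 2 := by
      rw [← card_eq_sum_card_fiberwise (f := χ) (t := (univ : Finset (Fin r))) (by intro x _; simp)]
      simp [ZMod.card, sq]
    have h2 : ∑ i : Fin r, r * (univ.filter fun P => χ P = i).card < ∑ i : Fin r, p ^ 2 := by
      apply sum_lt_sum_of_nonempty
      · exact ⟨⟨0, hr⟩, mem_univ _⟩
      · intro i _; exact hcon i
    rw [← mul_sum, h1] at h2
    simp at h2
  choose pop hpop' using hpop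
  -- sets
  let T : (ZMod p × ZMod p → Fin r) → Finset (ZMod p × ZMod p) :=
    fun χ => univ.filter fun P => χ P = pop χ
  let U : (ZMod p × ZMod p → Fin r) → ZMod p × ZMod p → Finset (ZMod p) :=
    fun χ l => univ.filter fun x : ZMod p => (x, l.1 * x + l.2) ∈ T χ
  let R : (ZMod p × ZMod p → Fin r) → Finset (ZMod p × ZMod p) :=
    fun χ => univ.filter fun l => l.1 ∈ M (pop χ) ∧ b * N ≤ (U χ l).card
  have hRcard : ∀ χ, (k / 2) * p ≤ 2 * r * (R χ).card := by
    intro χ
    have h1 : (R χ).card = ∑ m ∈ M (pop χ),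
        (univ.filter fun c : ZMod p => b * N ≤
          (univ.filter fun x : ZMod p => (x, m * x + c) ∈ T χ).card).card := by
      rw [← card_sigma]
      refine card_bij (fun l _ => ⟨l.1, l.2⟩) ?_ ?_ ?_
      · intro l hl
        simp only [R, mem_filter, mem_univ, true_and] at hl
        simp only [mem_sigma, mem_filter, mem_univ, true_and]
        exact hl
      · intro l _ l' _ hll
        simp only [Sigma.mk.injEq, heq_eq_eq] at hll
        exact Prod.ext hll.1 hll.2
      · rintro ⟨m, c⟩ hmc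
        simp only [mem_sigma, mem_filter, mem_univ, true_and] at hmc
        refine ⟨(m, c), ?_, rfl⟩
        simp only [R, mem_filter, mem_univ, true_and]
        exact hmc
    rw [h1, mul_sum]
    calc (k / 2) * p = ∑ m ∈ M (pop χ), p := by simp [hMcard]
      _ ≤ _ := sum_le_sum fun m _ => rich_slope r (b * N) (by
          calc 2 * r * (b * N) = 2 * r * b * N := by ring
            _ ≤ p := hN) (T χ) (hpop' χ) m
  have hRE : ∀ χ, r * p ^ 2 < E * (R χ).card := by
    intro χ
    have h1 := hRcard χ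
    have h2 : 2 * r * (r * p ^ 2) < 2 * r * (E * (R χ).card) := by
      calc 2 * r * (r * p ^ 2) = (2 * r ^ 2 * p) * p := by ring
        _ < (E * (k / 2)) * p := Nat.mul_lt_mul_of_pos_right hE hp
        _ = E * ((k / 2) * p) := by ring
        _ ≤ E * (2 * r * (R χ).card) := by gcongr
        _ = 2 * r * (E * (R χ).card) := by ring
    exact Nat.lt_of_mul_lt_mul_left h2
  -- existence of a good labelling
  let Bad : (ZMod p × ZMod p → Fin r) → Finset (ZMod p × ZMod p → ZMod p → V) :=
    fun χ => univ.filter fun ψ => ∀ l ∈ R χ, ψ l ∈ badL K (U χ l)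
  have hBad : ∀ χ, ((Bad χ).card : ℝ) ≤ (1 / 2 : ℝ) ^ (E * (R χ).card) *
      (Fintype.card (ZMod p × ZMod p → ZMod p → V) : ℝ) := by
    intro χ
    refine card_bad_all (R χ) (fun l => badL K (U χ l)) E ?_
    intro l hl
    simp only [R, mem_filter, mem_univ, true_and] at hl
    refine (card_badL K (U χ l) b (by rw [hcard]; exact hl.2) _ hweight).trans ?_
    rw [Fintype.card_fun, ZMod.card]
    push_cast
    exact le_refl _
  have hex : ∃ ψ : ZMod p × ZMod p → ZMod p → V, ∀ χ, ψ ∉ Bad χ := by
    by_contra hcon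
    push Not at hcon
    have hcover : (univ : Finset (ZMod p × ZMod p → ZMod p → V)) ⊆
        (univ : Finset (ZMod p × ZMod p → Fin r)).biUnion Bad := by
      intro ψ _
      obtain ⟨χ, hχ⟩ := hcon ψ
      exact mem_biUnion.mpr ⟨χ, mem_univ _, hχ⟩
    set tot : ℝ := (Fintype.card (ZMod p × ZMod p → ZMod p → V) : ℝ) with htot
    have htotpos : 0 < tot := by
      have : Nonempty V := Fintype.card_pos_iff.mp hVne
      have h1 : 0 < Fintype.card (ZMod p × ZMod p → ZMod p → V) := Fintype.card_pos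
      rw [htot]
      exact_mod_cast h1
    have h1 : tot ≤ ∑ χ : ZMod p × ZMod p → Fin r, ((Bad χ).card : ℝ) := by
      have := (card_le_card hcover).trans card_biUnion_le
      rw [htot, ← Finset.card_univ]
      exact_mod_cast this
    have h2 : ∑ χ : ZMod p × ZMod p → Fin r, ((Bad χ).card : ℝ) ≤
        ∑ χ : ZMod p × ZMod p → Fin r, (1 / 2 : ℝ) ^ (r * p ^ 2 + 1) * tot := by
      refine sum_le_sum fun χ _ => (hBad χ).trans ?_
      refine mul_le_mul_of_nonneg_right ?_ htotpos.le
      exact pow_le_pow_of_le_one (by norm_num) (by norm_num) (hRE χ)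
    have h3 : ∑ χ : ZMod p × ZMod p → Fin r, (1 / 2 : ℝ) ^ (r * p ^ 2 + 1) * tot =
        (r : ℝ) ^ (p ^ 2) * ((1 / 2 : ℝ) ^ (r * p ^ 2 + 1) * tot) := by
      rw [sum_const, Finset.card_univ, Fintype.card_fun, nsmul_eq_mul]
      simp [ZMod.card, sq]
    have h4 : (r : ℝ) ^ (p ^ 2) ≤ 2 ^ (r * p ^ 2) := by
      rw [pow_mul]
      apply pow_le_pow_left₀ (by positivity)
      exact_mod_cast (Nat.lt_two_pow_self (n := r)).le
    have h5 : (r : ℝ) ^ (p ^ 2) * ((1 / 2 : ℝ) ^ (r * p ^ 2 + 1) * tot) ≤ (1 / 2) * tot := by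
      calc (r : ℝ) ^ (p ^ 2) * ((1 / 2 : ℝ) ^ (r * p ^ 2 + 1) * tot) ≤
          2 ^ (r * p ^ 2) * ((1 / 2 : ℝ) ^ (r * p ^ 2 + 1) * tot) := by gcongr
        _ = (2 * (1 / 2 : ℝ)) ^ (r * p ^ 2) * (1 / 2 * tot) := by rw [mul_pow, pow_succ]; ring
        _ = (1 / 2) * tot := by norm_num
    linarith
  obtain ⟨ψ, hψ⟩ := hex
  refine ⟨fun i => labG H (M i) ψ, ?_, ?_, ?_⟩
  · intro i j x y hi hj
    exact hMdisj i j _ hi.2.1 hj.2.1
  · intro i
    exact labG_free H (M i) ψ hk hkp (hMcard i) hfree
  · intro χ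
    have h1 := hψ χ
    simp only [Bad, mem_filter, mem_univ, true_and, not_forall] at h1
    obtain ⟨⟨m, c⟩, hl, hnb⟩ := h1
    simp only [R, mem_filter, mem_univ, true_and] at hl
    simp only [badL, mem_filter, mem_univ, true_and, not_exists, not_and, not_forall,
      not_not] at hnb
    set D : Finset V := univ.filter fun v => ∀ x ∈ U χ (m, c), ψ (m, c) x ≠ v with hD
    obtain ⟨S, hS, hSD⟩ := hgad D (by
      intro A hA hAD
      obtain ⟨x, hx, hxA⟩ := hnb A hA
      have := hAD hxA
      simp only [hD, mem_filter, mem_univ, true_and] at this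
      exact this x hx rfl)
    have hS' : ∀ v ∈ S, ∃ x ∈ U χ (m, c), ψ (m, c) x = v := by
      intro v hv
      have : v ∉ D := disjoint_left.mp hSD hv
      simp only [hD, mem_filter, mem_univ, true_and, not_forall, not_not] at this
      obtain ⟨x, hx, hxv⟩ := this
      exact ⟨x, hx, hxv⟩
    choose! g hg using hS'
    have hginj : ∀ v ∈ S, ∀ w ∈ S, g v = g w → v = w := by
      intro v hv w hw hvw
      rw [← (hg v hv).2, ← (hg w hw).2, hvw]
    refine ⟨pop χ, S.image fun v => (g v, m * g v + c), ⟨?_, ?_⟩, ?_⟩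
    · intro P hP Q hQ hPQ
      simp only [coe_image, Set.mem_image, mem_coe] at hP hQ
      obtain ⟨v, hv, rfl⟩ := hP
      obtain ⟨w, hw, rfl⟩ := hQ
      have hvw : v ≠ w := fun e => hPQ (by rw [e])
      rw [labG_line H (M (pop χ)) ψ m c (g v) (g w) hl.1 (fun e => hvw (hginj v hv w hw e))]
      rw [(hg v hv).2, (hg w hw).2]
      exact hS.isClique hv hw hvw
    · rw [card_image_of_injOn, hS.card_eq]
      intro v hv w hw hvw
      exact hginj v hv w hw (Prod.mk.inj hvw).1
    · intro P hP
      simp only [mem_image] at hP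
      obtain ⟨v, hv, rfl⟩ := hP
      have := (hg v hv).1
      simp only [U, T, mem_filter, mem_univ, true_and] at this
      exact this

end FB7530
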