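import Mathlib
import Pool.Agent.Lib_MP_fb7530_co.Pack

/-! The shift graph construction. -/

namespace FB7530

open Finset

lemma card_le_of_clique {V : Type} {G : SimpleGraph V} {a : ℕ} (h : G.CliqueFree (a + 1))
    (S : Finset V) (hS : G.IsClique (S : Set V)) : S.card ≤ a := by
  by_contra hcon
  push Not at hcon
  obtain ⟨T, hTS, hT⟩ := exists_subset_card_eq (show a + 1 ≤ S.card from hcon)
  exact h T ⟨hS.subset (by exact_mod_cast hTS), hT⟩

/-- Compatible pairs. -/
def comp {M : Type} (e e' : M × M) : Prop := e.1 ≠ e.2 ∧ e'.1 ≠ e'.2 ∧ e.2 ≠ e'.1 ∧ e'.2 ≠ e.1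

/-- The shift graph of `H`. -/
def shG {M V : Type} (H : SimpleGraph V) : SimpleGraph ((M × M) × V) where
  Adj x y := (x.1 = y.1 ∧ H.Adj x.2 y.2) ∨ (x.1 ≠ y.1 ∧ comp x.1 y.1)
  symm := ⟨by
    intro x y h
    rcases h with ⟨h1, h2⟩ | ⟨h1, h2, h3, h4, h5⟩
    · exact Or.inl ⟨h1.symm, h2.symm⟩
    · exact Or.inr ⟨h1.symm, h3, h2, h5, h4⟩⟩
  loopless := ⟨by
    intro x h
    rcases h with ⟨_, h2⟩ | ⟨h1, _⟩
    · exact H.loopless.irrefl _ h2
    · exact h1 rfl⟩

lemma shG_free {V : Type} (H : SimpleGraph V) {a s : ℕ} (hs : 1 ≤ s) (h : H.CliqueFree (a + 1)) :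
    (shG (M := Fin (4 * s)) H).CliqueFree (4 * s ^ 2 * a + 1) := by
  classical
  intro S hS
  set Q := S.image Prod.fst with hQ
  have hfib : ∀ e ∈ Q, (S.filter fun x => x.1 = e).card ≤ a := by
    intro e _
    have h1 : ((S.filter fun x => x.1 = e).image Prod.snd).card =
        (S.filter fun x => x.1 = e).card := by
      apply card_image_of_injOn
      intro x hx y hy hxy
      simp only [coe_filter, Set.mem_ofPred_eq] at hx hy
      exact Prod.ext (hx.2.trans hy.2.symm) hxy
    rw [← h1]
    apply card_le_of_clique h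
    intro v hv w hw hvw
    simp only [coe_image, coe_filter, Set.mem_image, Set.mem_ofPred_eq] at hv hw
    obtain ⟨x, ⟨hx, hxe⟩, rfl⟩ := hv
    obtain ⟨y, ⟨hy, hye⟩, rfl⟩ := hw
    have hxy : x ≠ y := fun e => hvw (by rw [e])
    rcases hS.isClique hx hy hxy with ⟨_, h2⟩ | ⟨h1, _⟩
    · exact h2
    · exact absurd (hxe.trans hye.symm) h1
  have hcard : S.card ≤ Q.card * a := by
    rw [card_eq_sum_card_image Prod.fst S]
    calc ∑ e ∈ Q, (S.filter fun x => x.1 = e).card ≤ ∑ e ∈ Q, a := sum_le_sum hfib
      _ = Q.card * a := by simp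
  have hQ4 : Q.card ≤ 4 * s ^ 2 := by
    by_cases h1 : Q.card ≤ 1
    · nlinarith
    · push Not at h1
      obtain ⟨e₁, he₁, e₂, he₂, hne⟩ := one_lt_card.mp h1
      have hcomp : ∀ e ∈ Q, ∀ e' ∈ Q, e ≠ e' → comp e e' := by
        intro e he e' he' hee
        simp only [hQ, mem_image] at he he'
        obtain ⟨x, hx, rfl⟩ := he
        obtain ⟨y, hy, rfl⟩ := he'
        rcases hS.isClique hx hy (fun e => hee (by rw [e])) with ⟨h1, _⟩ | ⟨_, h2⟩
        · exact absurd h1 hee
        · exact h2
      have hoff : ∀ e ∈ Q, e.1 ≠ e.2 := by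
        intro e he
        by_cases hee : e = e₁
        · rw [hee]; exact (hcomp e₁ he₁ e₂ he₂ hne).1
        · exact (hcomp e he e₁ he₁ hee).1
      have hdisj : Disjoint (Q.image Prod.fst) (Q.image Prod.snd) := by
        rw [disjoint_left]
        intro x hx hy
        simp only [mem_image] at hx hy
        obtain ⟨e, he, rfl⟩ := hx
        obtain ⟨e', he', hee⟩ := hy
        by_cases h2 : e = e'
        · subst h2; exact hoff e he hee.symm
        · exact (hcomp e he e' he' h2).2.2.2 hee
      have h2 : (Q.image Prod.fst).card + (Q.image Prod.snd).card ≤ 4 * s := by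
        rw [← card_union_of_disjoint hdisj]
        have := card_le_univ (Q.image Prod.fst ∪ Q.image Prod.snd)
        simpa using this
      have h3 : Q.card ≤ (Q.image Prod.fst).card * (Q.image Prod.snd).card := by
        rw [← card_product]
        apply card_le_card
        intro e he
        simp only [mem_product, mem_image]
        exact ⟨⟨e, he, rfl⟩, ⟨e, he, rfl⟩⟩
      nlinarith [sq_nonneg (((Q.image Prod.fst).card : ℤ) - (Q.image Prod.snd).card),
        four_mul_le_sq_add (Q.image Prod.fst).card (Q.image Prod.snd).card]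
  have := hS.card_eq
  have h5 : Q.card * a ≤ 4 * s ^ 2 * a := Nat.mul_le_mul_right _ hQ4
  omega

/-- The union of the copies. -/
def cup {M V : Type} [DecidableEq M] [DecidableEq V] {n : ℕ}
    (g : Fin n → (M × M) × Finset V) : Finset ((M × M) × V) :=
  univ.biUnion fun t => (g t).2.image fun v => ((g t).1, v)

lemma card_cup {M V : Type} [DecidableEq M] [DecidableEq V] {n : ℕ}
    (g : Fin n → (M × M) × Finset V) (hg : Function.Injective fun t => (g t).1) :
    (cup g).card = ∑ t, (g t).2.card := by
  unfold cup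
  rw [card_biUnion]
  · refine sum_congr rfl fun t _ => ?_
    apply card_image_of_injective
    intro v w h
    exact (Prod.mk.inj h).2
  · intro t _ t' _ htt
    rw [Function.onFun, disjoint_left]
    intro x hx hy
    simp only [mem_image] at hx hy
    obtain ⟨v, _, rfl⟩ := hx
    obtain ⟨w, _, hw⟩ := hy
    exact htt (hg (Prod.mk.inj hw).1.symm)

/-- The kill sets of the shift graph. -/
noncomputable def killS {M V : Type} [Fintype M] [DecidableEq M] [DecidableEq V] (n : ℕ)
    (K : Finset (Finset V)) : Finset (Finset ((M × M) × V)) := by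
  classical
  exact ((Fintype.piFinset fun _ : Fin n => (univ : Finset (M × M)) ×ˢ K).filter
    fun g => Function.Injective fun t => (g t).1).image cup

lemma killS_weight {M V : Type} [Fintype M] [DecidableEq M] [DecidableEq V] (n b : ℕ)
    (K : Finset (Finset V)) :
    (∑ A ∈ killS (M := M) n K, (1 / 2 : ℝ) ^ (b * A.card)) ≤
      ((Fintype.card (M × M) : ℝ) * ∑ A ∈ K, (1 / 2 : ℝ) ^ (b * A.card)) ^ n := by
  classical
  unfold killS
  set G := (Fintype.piFinset fun _ : Fin n => (univ : Finset (M × M)) ×ˢ K) with hG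
  calc (∑ A ∈ (G.filter fun g => Function.Injective fun t => (g t).1).image cup,
        (1 / 2 : ℝ) ^ (b * A.card))
      ≤ ∑ g ∈ G.filter fun g => Function.Injective fun t => (g t).1,
        (1 / 2 : ℝ) ^ (b * (cup g).card) := by
        exact sum_image_le_of_nonneg (g := cup)
          (f := fun A : Finset ((M × M) × V) => (1 / 2 : ℝ) ^ (b * A.card))
          (fun u _ => by positivity)
    _ = ∑ g ∈ G.filter fun g => Function.Injective fun t => (g t).1,
        ∏ t, (1 / 2 : ℝ) ^ (b * (g t).2.card) := by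
        refine sum_congr rfl fun g hg => ?_
        rw [card_cup g (mem_filter.mp hg).2, prod_pow_eq_pow_sum, mul_sum]
    _ ≤ ∑ g ∈ G, ∏ t, (1 / 2 : ℝ) ^ (b * (g t).2.card) :=
        sum_le_sum_of_subset_of_nonneg (filter_subset _ _) fun g _ _ => by positivity
    _ = ∏ t : Fin n, ∑ x ∈ (univ : Finset (M × M)) ×ˢ K, (1 / 2 : ℝ) ^ (b * x.2.card) := by
        rw [hG, prod_univ_sum]
    _ = ((Fintype.card (M × M) : ℝ) * ∑ A ∈ K, (1 / 2 : ℝ) ^ (b * A.card)) ^ n := by
        rw [prod_const, card_univ, Fintype.card_fin, sum_product]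
        simp


/-- The shift graph construction. -/
theorem gad_shift {a N b : ℕ} {β : ℝ} (h : GadEx a N b β) (s : ℕ) (hs : 1 ≤ s) :
    GadEx (4 * s ^ 2 * a) (16 * s ^ 2 * N) b ((16 * s ^ 2 * β) ^ (s + 1)) := by
  classical
  obtain ⟨V, _, _, H, K, hcard, hfree, hweight, hgad⟩ := h
  refine ⟨(Fin (4 * s) × Fin (4 * s)) × V, inferInstance, inferInstance, shG H,
    killS (s + 1) K, ?_, shG_free H hs hfree, ?_, ?_⟩
  · simp only [Fintype.card_prod, Fintype.card_fin, hcard]
    ring
  · refine (killS_weight (M := Fin (4 * s)) (s + 1) b K).trans ?_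
    apply pow_le_pow_left₀ (by positivity)
    simp only [Fintype.card_prod, Fintype.card_fin]
    push_cast
    calc (4 * (s : ℝ) * (4 * s)) * ∑ A ∈ K, (1 / 2 : ℝ) ^ (b * A.card)
        ≤ (4 * (s : ℝ) * (4 * s)) * β := by gcongr
      _ = 16 * s ^ 2 * β := by ring
  · intro D hD
    set De : Fin (4 * s) × Fin (4 * s) → Finset V :=
      fun e => univ.filter fun v => (e, v) ∈ D with hDe
    set Bd : Finset (Fin (4 * s) × Fin (4 * s)) :=
      univ.filter fun e => ∃ A ∈ K, A ⊆ De e with hBd
    have hBdcard : Bd.card ≤ s := by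
      by_contra hcon
      push Not at hcon
      obtain ⟨g₀⟩ : Nonempty (Fin (s + 1) ↪ Bd) := by
        apply Function.Embedding.nonempty_of_card_le
        simpa using hcon
      have hA : ∀ e : Bd, ∃ A ∈ K, A ⊆ De e := by
        intro e
        have := e.2
        simp only [hBd, mem_filter, mem_univ, true_and] at this
        exact this
      choose A hAK hAD using hA
      set g : Fin (s + 1) → (Fin (4 * s) × Fin (4 * s)) × Finset V :=
        fun t => ((g₀ t : Fin (4 * s) × Fin (4 * s)), A (g₀ t)) with hg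
      refine hD (cup g) ?_ ?_
      · unfold killS
        refine mem_image.mpr ⟨g, mem_filter.mpr ⟨?_, ?_⟩, rfl⟩
        · rw [Fintype.mem_piFinset]
          intro t
          exact mem_product.mpr ⟨mem_univ _, hAK _⟩
        · intro t t' htt
          exact g₀.injective (Subtype.ext htt)
      · intro x hx
        simp only [cup, mem_biUnion, mem_univ, true_and, mem_image] at hx
        obtain ⟨t, v, hv, rfl⟩ := hx
        have := hAD (g₀ t) hv
        simp only [hDe, mem_filter, mem_univ, true_and] at this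
        exact this
    set W := Bd.image Prod.fst ∪ Bd.image Prod.snd with hW
    have hWcard : W.card ≤ 2 * s := by
      calc W.card ≤ (Bd.image Prod.fst).card + (Bd.image Prod.snd).card := card_union_le _ _
        _ ≤ Bd.card + Bd.card := add_le_add card_image_le card_image_le
        _ ≤ 2 * s := by omega
    obtain ⟨S₀, hS₀W, hS₀⟩ := exists_subset_card_eq (show 2 * s ≤ Wᶜ.card by
      rw [card_compl, Fintype.card_fin]; omega)
    have hT₀ : S₀ᶜ.card = 2 * s := by
      rw [card_compl, Fintype.card_fin]; omega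
    have hgood : ∀ e ∈ S₀ ×ˢ S₀ᶜ, ∃ C : Finset V, H.IsNClique a C ∧ Disjoint C (De e) := by
      intro e he
      apply hgad
      intro A hA hAD
      have h1 : e ∈ Bd := by
        simp only [hBd, mem_filter, mem_univ, true_and]
        exact ⟨A, hA, hAD⟩
      have h2 : e.1 ∈ W := mem_union_left _ (mem_image_of_mem _ h1)
      have h3 := hS₀W (mem_product.mp he).1
      exact (mem_compl.mp h3) h2
    choose! C hC using hgood
    refine ⟨(S₀ ×ˢ S₀ᶜ).biUnion fun e => (C e).image fun v => (e, v), ⟨?_, ?_⟩, ?_⟩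
    · intro x hx y hy hxy
      simp only [coe_biUnion, Set.mem_iUnion, coe_image, Set.mem_image, mem_coe] at hx hy
      obtain ⟨e, he, v, hv, rfl⟩ := hx
      obtain ⟨e', he', w, hw, rfl⟩ := hy
      by_cases hee : e = e'
      · subst hee
        refine Or.inl ⟨rfl, ?_⟩
        exact (hC e he).1.isClique hv hw (fun h => hxy (by rw [h]))
      · refine Or.inr ⟨hee, ?_⟩
        have h1 := mem_product.mp he
        have h2 := mem_product.mp he'
        have h3 := mem_compl.mp h1.2
        have h4 := mem_compl.mp h2.2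
        exact ⟨fun h => h3 (h ▸ h1.1), fun h => h4 (h ▸ h2.1), fun h => h3 (h ▸ h2.1),
          fun h => h4 (h ▸ h1.1)⟩
    · rw [card_biUnion]
      · rw [sum_congr rfl (g := fun _ => a)]
        · simp only [sum_const, card_product, hS₀, hT₀, smul_eq_mul]
          ring
        · intro e he
          rw [card_image_of_injective _ (fun v w h => (Prod.mk.inj h).2)]
          exact (hC e he).1.card_eq
      · intro e _ e' _ hee
        rw [Function.onFun, disjoint_left]
        intro x hx hy
        simp only [mem_image] at hx hy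
        obtain ⟨v, _, rfl⟩ := hx
        obtain ⟨w, _, hw⟩ := hy
        exact hee (Prod.mk.inj hw).1.symm
    · rw [disjoint_left]
      intro x hx hxD
      simp only [mem_biUnion, mem_image] at hx
      obtain ⟨e, he, v, hv, rfl⟩ := hx
      exact disjoint_left.mp (hC e he).2 hv (by
        simp only [hDe, mem_filter, mem_univ, true_and]
        exact hxD)

end FB7530
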