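import Mathlib
import Pool.Agent.Lib_MP_fb7530_co.Pack
import Pool.Agent.Lib_MP_fb7530_co.Shift

namespace FB7530

/-- The independent set with `τ` vertices. -/
theorem gad_indep (τ b : ℕ) : GadEx 1 τ b ((1 / 2 : ℝ) ^ (b * τ)) := by
  refine ⟨Fin τ, inferInstance, inferInstance, ⊥, {Finset.univ}, Fintype.card_fin τ,
    SimpleGraph.cliqueFree_bot le_rfl, ?_, ?_⟩
  · rw [Finset.sum_singleton, Finset.card_univ, Fintype.card_fin]
  · intro D hD
    have h1 := hD Finset.univ (Finset.mem_singleton_self _)
    obtain ⟨x, -, hx⟩ := Finset.not_subset.1 h1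
    refine ⟨{x}, ?_, Finset.disjoint_singleton_left.2 hx⟩
    rw [SimpleGraph.isNClique_iff]
    exact ⟨by simp, Finset.card_singleton x⟩

theorem gad_empty (b : ℕ) : GadEx 0 0 b 0 := by
  refine ⟨Fin 0, inferInstance, inferInstance, ⊥, ∅, Fintype.card_fin 0, ?_, ?_, ?_⟩
  · intro S hS
    have h1 := hS.card_eq
    have h2 : S = ∅ := Finset.eq_empty_of_isEmpty S
    rw [h2] at h1
    simp at h1
  · simp
  · intro D _
    refine ⟨∅, ?_, Finset.disjoint_empty_left _⟩
    rw [SimpleGraph.isNClique_iff]
    exact ⟨by simp, rfl⟩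

/-- the join of two graphs -/
private def joinG {V W : Type} (H : SimpleGraph V) (H' : SimpleGraph W) : SimpleGraph (V ⊕ W) where
  Adj x y := match x, y with
    | Sum.inl x, Sum.inl y => H.Adj x y
    | Sum.inr x, Sum.inr y => H'.Adj x y
    | Sum.inl _, Sum.inr _ => True
    | Sum.inr _, Sum.inl _ => True
  symm := ⟨by
    rintro (x | x) (y | y) h
    · exact SimpleGraph.Adj.symm (G := H) h
    · trivial
    · trivial
    · exact SimpleGraph.Adj.symm (G := H') h⟩
  loopless := ⟨by
    rintro (x | x) h
    · exact H.loopless.irrefl x h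
    · exact H'.loopless.irrefl x h⟩

private theorem card_le_of_free {V : Type} {H : SimpleGraph V} {a : ℕ} (h : H.CliqueFree (a + 1))
    {S : Finset V} (hS : H.IsClique (S : Set V)) : S.card ≤ a := by
  by_contra hlt
  rw [not_le] at hlt
  exact h.mono (show a + 1 ≤ S.card from hlt) S ((SimpleGraph.isNClique_iff _).2 ⟨hS, rfl⟩)

theorem gad_join {a a' N N' b : ℕ} {β β' : ℝ} (h : GadEx a N b β) (h' : GadEx a' N' b β') :
    GadEx (a + a') (N + N') b (β + β') := by
  obtain ⟨V, iV, dV, H, K, hc, hf, hw, hD⟩ := h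
  obtain ⟨W, iW, dW, H', K', hc', hf', hw', hD'⟩ := h'
  refine ⟨V ⊕ W, inferInstance, inferInstance, joinG H H',
    K.map (Finset.mapEmbedding Function.Embedding.inl).toEmbedding ∪
      K'.map (Finset.mapEmbedding Function.Embedding.inr).toEmbedding, ?_, ?_, ?_, ?_⟩
  · rw [Fintype.card_sum, hc, hc']
  · intro S hS
    have h0 := hS.card_eq
    have h1 : S.toLeft.card ≤ a := by
      apply card_le_of_free hf
      intro x hx y hy hxy
      have hx' : Sum.inl x ∈ S := Finset.mem_toLeft.1 hx
      have hy' : Sum.inl y ∈ S := Finset.mem_toLeft.1 hy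
      exact hS.isClique hx' hy' (fun e => hxy (Sum.inl_injective e))
    have h2 : S.toRight.card ≤ a' := by
      apply card_le_of_free hf'
      intro x hx y hy hxy
      have hx' : Sum.inr x ∈ S := Finset.mem_toRight.1 hx
      have hy' : Sum.inr y ∈ S := Finset.mem_toRight.1 hy
      exact hS.isClique hx' hy' (fun e => hxy (Sum.inr_injective e))
    have h3 := Finset.card_toLeft_add_card_toRight (u := S)
    omega
  · have h1 := Finset.sum_union_inter
      (s₁ := K.map (Finset.mapEmbedding (Function.Embedding.inl (α := V) (β := W))).toEmbedding)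
      (s₂ := K'.map (Finset.mapEmbedding (Function.Embedding.inr (α := V) (β := W))).toEmbedding)
      (f := fun A : Finset (V ⊕ W) => (1 / 2 : ℝ) ^ (b * A.card))
    rw [Finset.sum_map, Finset.sum_map] at h1
    have h2 : ∀ A : Finset V, ((Finset.mapEmbedding
        (Function.Embedding.inl (α := V) (β := W))).toEmbedding A).card = A.card := fun A =>
      Finset.card_map _
    have h3 : ∀ A : Finset W, ((Finset.mapEmbedding
        (Function.Embedding.inr (α := V) (β := W))).toEmbedding A).card = A.card := fun A =>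
      Finset.card_map _
    simp only [h2, h3] at h1
    have h4 : 0 ≤ ∑ A ∈ K.map (Finset.mapEmbedding
        (Function.Embedding.inl (α := V) (β := W))).toEmbedding ∩
        K'.map (Finset.mapEmbedding (Function.Embedding.inr (α := V) (β := W))).toEmbedding,
        (1 / 2 : ℝ) ^ (b * A.card) := Finset.sum_nonneg fun A _ => by positivity
    linarith
  · intro D hK
    obtain ⟨S, hS, hSD⟩ := hD D.toLeft (by
      intro A hA hAD
      refine hK _ (Finset.mem_union_left _ (Finset.mem_map_of_mem _ hA)) ?_
      intro z hz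
      obtain ⟨x, hx, rfl⟩ := Finset.mem_map.1 hz
      exact Finset.mem_toLeft.1 (hAD hx))
    obtain ⟨S', hS', hSD'⟩ := hD' D.toRight (by
      intro A hA hAD
      refine hK _ (Finset.mem_union_right _ (Finset.mem_map_of_mem _ hA)) ?_
      intro z hz
      obtain ⟨x, hx, rfl⟩ := Finset.mem_map.1 hz
      exact Finset.mem_toRight.1 (hAD hx))
    refine ⟨S.disjSum S', ?_, ?_⟩
    · rw [SimpleGraph.isNClique_iff]
      constructor
      · rintro (x | x) hx (y | y) hy hxy
        · exact hS.isClique (Finset.inl_mem_disjSum.1 hx) (Finset.inl_mem_disjSum.1 hy)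
            (fun e => hxy (by rw [e]))
        · trivial
        · trivial
        · exact hS'.isClique (Finset.inr_mem_disjSum.1 hx) (Finset.inr_mem_disjSum.1 hy)
            (fun e => hxy (by rw [e]))
      · rw [Finset.card_disjSum, hS.card_eq, hS'.card_eq]
    · rw [Finset.disjoint_left]
      rintro (x | x) hx hxD
      · exact Finset.disjoint_left.1 hSD (Finset.inl_mem_disjSum.1 hx) (Finset.mem_toLeft.2 hxD)
      · exact Finset.disjoint_left.1 hSD' (Finset.inr_mem_disjSum.1 hx) (Finset.mem_toRight.2 hxD)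

theorem gad_mono {a N b : ℕ} {β β' : ℝ} (h : GadEx a N b β) (hβ : β ≤ β') : GadEx a N b β' := by
  obtain ⟨V, iV, dV, H, K, hc, hf, hw, hD⟩ := h
  exact ⟨V, iV, dV, H, K, hc, hf, hw.trans hβ, hD⟩

theorem gad_mul {a N b : ℕ} {β : ℝ} (h : GadEx a N b β) (t : ℕ) :
    GadEx (t * a) (t * N) b (t * β) := by
  induction t with
  | zero =>
    have h0 := gad_empty b
    simpa using h0
  | succ t ih =>
    have h1 := gad_join ih h
    have e1 : t * a + a = (t + 1) * a := by ring
    have e2 : t * N + N = (t + 1) * N := by ring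
    have e3 : (t : ℝ) * β + β = ((t + 1 : ℕ) : ℝ) * β := by push_cast; ring
    rw [e1, e2, e3] at h1
    exact h1

end FB7530
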