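import Mathlib
import Pool.Agent.Lib_MP_fb7530_co.Gadget
import Pool.Agent.Lib_MP_fb7530_co.Defs

namespace FB7530

/-- The sequence `b_j`. -/
def bs : ℕ → ℕ
  | 0 => 6
  | j + 1 => 2 ^ (bs j - 1) - 2

/-- The sequence `a_j`. -/
def as : ℕ → ℕ
  | 0 => 1
  | j + 1 => 4 * 4 ^ bs j * as j

private theorem two_pow_aux (b : ℕ) (hb : 6 ≤ b) : 4 + 3 * b ≤ 2 ^ (b - 1) := by
  induction b, hb using Nat.le_induction with
  | base => norm_num
  | succ b hb ih =>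
    have h1 : b + 1 - 1 = (b - 1) + 1 := by omega
    rw [h1, pow_succ]
    omega

private theorem bs_six (j : ℕ) : 6 ≤ bs j := by
  induction j with
  | zero => exact le_rfl
  | succ j ih =>
    have h1 := two_pow_aux (bs j) ih
    show 6 ≤ 2 ^ (bs j - 1) - 2
    omega

private theorem as_pos (j : ℕ) : 1 ≤ as j := by
  induction j with
  | zero => exact le_rfl
  | succ j ih =>
    have h1 : 0 < 4 * 4 ^ bs j * as j := by positivity
    exact h1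

theorem bs_ge (j : ℕ) : tower j + 3 ≤ bs j := by
  induction j with
  | zero => show 1 + 3 ≤ 6; norm_num
  | succ j ih =>
    show 2 ^ tower j + 3 ≤ 2 ^ (bs j - 1) - 2
    have h1 : 2 ^ (tower j + 2) ≤ 2 ^ (bs j - 1) := Nat.pow_le_pow_right (by norm_num) (by omega)
    have h2 : 1 ≤ tower j := by
      have := lt_tower j
      omega
    have h3 : 2 ^ 1 ≤ 2 ^ tower j := Nat.pow_le_pow_right (by norm_num) h2
    rw [pow_add] at h1
    omega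

theorem as_le (j : ℕ) : as j ≤ 2 ^ bs j := by
  induction j with
  | zero => show 1 ≤ 2 ^ 6; norm_num
  | succ j ih =>
    show 4 * 4 ^ bs j * as j ≤ 2 ^ (2 ^ (bs j - 1) - 2)
    have h1 := two_pow_aux (bs j) (bs_six j)
    calc 4 * 4 ^ bs j * as j ≤ 4 * 4 ^ bs j * 2 ^ bs j := Nat.mul_le_mul_left _ ih
      _ = 2 ^ (2 + 3 * bs j) := by
        rw [pow_add, show (4 : ℕ) = 2 ^ 2 by norm_num, ← pow_mul, mul_assoc, ← pow_add]
        congr 2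
        ring
      _ ≤ 2 ^ (2 ^ (bs j - 1) - 2) := Nat.pow_le_pow_right (by norm_num) (by omega)

private theorem half_aux (b : ℕ) : 16 * ((2 : ℝ) ^ b) ^ 2 * (1 / 2 : ℝ) ^ (5 + 2 * b) = 1 / 2 := by
  rw [one_div, inv_pow, pow_add, ← pow_mul, mul_comm b 2]
  have h : (2 : ℝ) ^ (2 * b) ≠ 0 := by positivity
  field_simp
  norm_num

theorem gad_iter (j : ℕ) : GadEx (as j) (4 ^ j * as j) 17 ((1 / 2 : ℝ) ^ (5 + 2 * bs j)) := by
  induction j with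
  | zero => exact gad_indep 1 17
  | succ j ih =>
    have h1 := gad_shift ih (2 ^ bs j) Nat.one_le_two_pow
    have e1 : 4 * (2 ^ bs j) ^ 2 * as j = as (j + 1) := by
      show 4 * (2 ^ bs j) ^ 2 * as j = 4 * 4 ^ bs j * as j
      rw [show (4 : ℕ) ^ bs j = (2 ^ bs j) ^ 2 by
        rw [show (4 : ℕ) = 2 ^ 2 by norm_num, ← pow_mul, ← pow_mul, mul_comm]]
    have e2 : 16 * (2 ^ bs j) ^ 2 * (4 ^ j * as j) = 4 ^ (j + 1) * as (j + 1) := by
      rw [← e1]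
      ring
    have e3 : (16 * (((2 ^ bs j : ℕ) : ℝ)) ^ 2 * (1 / 2 : ℝ) ^ (5 + 2 * bs j)) ^ (2 ^ bs j + 1) =
        (1 / 2 : ℝ) ^ (5 + 2 * bs (j + 1)) := by
      rw [Nat.cast_pow, Nat.cast_ofNat, half_aux]
      congr 1
      show 2 ^ bs j + 1 = 5 + 2 * (2 ^ (bs j - 1) - 2)
      have h2 := two_pow_aux (bs j) (bs_six j)
      have h3 : 2 ^ bs j = 2 * 2 ^ (bs j - 1) := by
        rw [← pow_succ']
        congr 1
        have := bs_six j
        omega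
      omega
    rw [e1, e2, e3] at h1
    exact h1

theorem gad_last (j s : ℕ) (hs : 1 ≤ s) (h : s ≤ 2 ^ bs j) :
    GadEx (4 * s ^ 2 * as j) (4 ^ (j + 1) * (4 * s ^ 2 * as j)) 17 ((1 / 2 : ℝ) ^ (s + 1)) := by
  have h1 := gad_shift (gad_iter j) s hs
  have e2 : 16 * s ^ 2 * (4 ^ j * as j) = 4 ^ (j + 1) * (4 * s ^ 2 * as j) := by ring
  rw [e2] at h1
  refine gad_mono h1 ?_
  apply pow_le_pow_left₀ (by positivity)
  have h2 : (s : ℝ) ≤ (2 : ℝ) ^ bs j := by exact_mod_cast h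
  calc 16 * (s : ℝ) ^ 2 * (1 / 2 : ℝ) ^ (5 + 2 * bs j)
      ≤ 16 * ((2 : ℝ) ^ bs j) ^ 2 * (1 / 2 : ℝ) ^ (5 + 2 * bs j) := by gcongr
    _ = 1 / 2 := half_aux _

/-- Full gadgets for every clique number `k`. -/
theorem gad_full (j s k E : ℕ) (hs : 1 ≤ s) (h : s ≤ 2 ^ bs j) (hk : 1 ≤ k) (hks : k * 2 ^ E ≤ 2 ^ s) :
    ∃ N, N ≤ 4 ^ (j + 1) * k + 4 * s ^ 3 * as j ∧ GadEx k N 17 ((1 / 2 : ℝ) ^ E) := by
  obtain ⟨a', ha'⟩ : ∃ a', a' = 4 * s ^ 2 * as j := ⟨_, rfl⟩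
  have hapos : 1 ≤ a' := by
    have h1 : 0 < 4 * s ^ 2 * as j := by
      have := as_pos j
      positivity
    omega
  obtain ⟨t, ρ, hkt, hρ⟩ : ∃ t ρ, k = t * a' + ρ ∧ ρ < a' :=
    ⟨k / a', k % a', by rw [mul_comm]; exact (Nat.div_add_mod k a').symm, Nat.mod_lt _ hapos⟩
  have g1 := gad_mul (gad_last j s hs h) t
  rw [← ha'] at g1
  have g2 := gad_mul (gad_indep s 17) ρ
  have g3 := gad_join g1 g2
  rw [mul_one, ← hkt] at g3
  refine ⟨_, ?_, gad_mono g3 ?_⟩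
  · have h1 : t * (4 ^ (j + 1) * a') ≤ 4 ^ (j + 1) * k := by
      calc t * (4 ^ (j + 1) * a') = 4 ^ (j + 1) * (t * a') := by ring
        _ ≤ 4 ^ (j + 1) * k := Nat.mul_le_mul_left _ (by omega)
    have h2 : ρ * s ≤ 4 * s ^ 3 * as j := by
      calc ρ * s ≤ a' * s := Nat.mul_le_mul_right _ hρ.le
        _ = 4 * s ^ 3 * as j := by rw [ha']; ring
    omega
  · have h1 : t + ρ ≤ k := by
      have : t * 1 ≤ t * a' := Nat.mul_le_mul_left _ hapos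
      omega
    have h2 : (1 / 2 : ℝ) ^ (s + 1) ≤ (1 / 2 : ℝ) ^ s :=
      pow_le_pow_of_le_one (by norm_num) (by norm_num) (by omega)
    have h3 : (1 / 2 : ℝ) ^ (17 * s) ≤ (1 / 2 : ℝ) ^ s :=
      pow_le_pow_of_le_one (by norm_num) (by norm_num) (by omega)
    have h4 : ((t : ℝ) + ρ) ≤ k := by exact_mod_cast h1
    calc (t : ℝ) * (1 / 2 : ℝ) ^ (s + 1) + (ρ : ℝ) * (1 / 2 : ℝ) ^ (17 * s)
        ≤ (t : ℝ) * (1 / 2 : ℝ) ^ s + (ρ : ℝ) * (1 / 2 : ℝ) ^ s := by gcongr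
      _ = ((t : ℝ) + ρ) * (1 / 2 : ℝ) ^ s := by ring
      _ ≤ (k : ℝ) * (1 / 2 : ℝ) ^ s := by gcongr
      _ ≤ (1 / 2 : ℝ) ^ E := by
        have h5 : (k : ℝ) * 2 ^ E ≤ 2 ^ s := by exact_mod_cast hks
        rw [one_div, inv_pow, inv_pow, ← div_eq_mul_inv, div_le_iff₀ (by positivity),
          ← div_eq_inv_mul, le_div_iff₀ (by positivity)]
        exact h5

end FB7530
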