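import Mathlib
import Pool.Agent.Lib_MP_fb7530_co.Iter
import Pool.Agent.Lib_MP_fb7530_co.Count

namespace FB7530

private lemma two_pow_le_tower (t : ℕ) : 2 ^ t ≤ tower t := by
  cases t with
  | zero => simp [tower]
  | succ t =>
    simp only [tower]
    exact Nat.pow_le_pow_right (by norm_num) (lt_tower t)

private lemma aux_pow1 : ∀ b : ℕ, 6 ≤ b → b + 6 ≤ 2 ^ (b - 1) := by
  intro b hb
  induction b, hb using Nat.le_induction with
  | base => norm_num
  | succ b hb ih =>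
    have h : 2 ^ (b + 1 - 1) = 2 * 2 ^ (b - 1) := by
      rw [← pow_succ']
      congr 1
      omega
    rw [h]
    omega

private lemma aux_pow2 : ∀ x : ℕ, 6 ≤ x → 12 + 3 * x ≤ 2 ^ x := by
  intro x hx
  induction x, hx using Nat.le_induction with
  | base => norm_num
  | succ x hx ih =>
    rw [pow_succ]
    omega

private lemma aux_pow3 : ∀ L : ℕ, 60 ≤ L → 1366 * L ^ 6 ≤ 2 ^ (L - 1) := by
  intro L hL
  induction L, hL using Nat.le_induction with
  | base => norm_num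
  | succ L hL ih =>
    have h : 2 ^ (L + 1 - 1) = 2 * 2 ^ (L - 1) := by
      rw [← pow_succ']
      congr 1
      omega
    rw [h]
    have h1 : 10 * (L + 1) ≤ 11 * L := by omega
    have h2 := Nat.pow_le_pow_left h1 6
    rw [mul_pow, mul_pow] at h2
    norm_num at h2
    omega

private lemma bs_lin (j : ℕ) : 6 + 4 * j ≤ bs j := by
  induction j with
  | zero => simp [bs]
  | succ j ih =>
    have h := aux_pow1 (bs j) (by omega)
    rw [bs]
    omega

/-- Choice of the parameters (pure arithmetic). -/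
theorem params : ∃ C : ℕ, 2 ≤ C ∧ ∀ r k t : ℕ, 2 ≤ r → C * r ^ 36 ≤ k → k ≤ tower t →
    ∃ j s E : ℕ, 1 ≤ s ∧ s ≤ 2 ^ bs j ∧ k * 2 ^ E ≤ 2 ^ s ∧ j ≤ t + 1 ∧
      4 * s ^ 3 * as j ≤ 3 * 4 ^ (j + 1) * k ∧ E = 409 * r ^ 3 * 4 ^ (j + 2) := by
  refine ⟨22 * 13088 ^ 12, by norm_num, fun r k t hr hk hkt => ?_⟩
  have hr3 : 8 ≤ r ^ 3 := by
    calc 8 = 2 ^ 3 := by norm_num
      _ ≤ r ^ 3 := Nat.pow_le_pow_left hr 3
  have hr36 : r ^ 3 ≤ r ^ 36 := Nat.pow_le_pow_right (by omega) (by norm_num)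
  have hrk : r ^ 36 ≤ k := le_trans (Nat.le_mul_of_pos_left _ (by norm_num)) hk
  have hC : 2 ^ 60 ≤ k := by
    calc 2 ^ 60 ≤ 22 * 13088 ^ 12 * 1 := by norm_num
      _ ≤ 22 * 13088 ^ 12 * r ^ 36 := Nat.mul_le_mul_left _ (by omega)
      _ ≤ k := hk
  set L : ℕ := Nat.clog 2 k with hLdef
  have hkL : k ≤ 2 ^ L := Nat.le_pow_clog (by norm_num) k
  have hL60 : 60 ≤ L := by
    have h : 2 ^ 60 ≤ 2 ^ L := hC.trans hkL
    exact (Nat.pow_le_pow_iff_right (by norm_num)).1 h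
  have hLk : 2 ^ (L - 1) < k := Nat.pow_pred_clog_lt_self (by norm_num) (by omega)
  have hLle : L ≤ k := Nat.clog_le_of_le_pow Nat.lt_two_pow_self.le
  -- the condition holds for `t + 1`
  have hex0 : L + 409 * r ^ 3 * 4 ^ (t + 1 + 2) ≤ 2 ^ bs (t + 1) := by
    set x : ℕ := tower t with hx
    have hx6 : 6 ≤ x := by omega
    have h1 : L ≤ x := hLle.trans hkt
    have h2 : r ^ 3 ≤ x := hr36.trans (hrk.trans hkt)
    have h3 : 4 ^ t ≤ x ^ 2 := by
      calc 4 ^ t = (2 ^ t) ^ 2 := by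
            rw [← pow_mul, mul_comm, pow_mul]
            norm_num
        _ ≤ x ^ 2 := Nat.pow_le_pow_left (two_pow_le_tower t) 2
    have h4 : 409 * r ^ 3 * 4 ^ (t + 1 + 2) ≤ 26176 * x ^ 3 := by
      calc 409 * r ^ 3 * 4 ^ (t + 1 + 2) = 26176 * (r ^ 3 * 4 ^ t) := by ring
        _ ≤ 26176 * (x * x ^ 2) := Nat.mul_le_mul_left _ (Nat.mul_le_mul h2 h3)
        _ = 26176 * x ^ 3 := by ring
    have h5 : x ≤ x ^ 3 := Nat.le_self_pow (by norm_num) x
    have h6 : x ^ 3 ≤ (2 ^ x) ^ 3 := Nat.pow_le_pow_left Nat.lt_two_pow_self.le 3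
    have h7 : 2 ^ 15 * (2 ^ x) ^ 3 ≤ 2 ^ bs (t + 1) := by
      rw [← pow_mul, ← pow_add]
      apply Nat.pow_le_pow_right (by norm_num)
      have h8 := bs_ge (t + 1)
      have h9 : tower (t + 1) = 2 ^ x := rfl
      have h10 := aux_pow2 x hx6
      omega
    have h11 : 2 ^ 15 * x ^ 3 ≤ 2 ^ 15 * (2 ^ x) ^ 3 := Nat.mul_le_mul_left _ h6
    norm_num at h7 h11
    omega
  have hex : ∃ j, L + 409 * r ^ 3 * 4 ^ (j + 2) ≤ 2 ^ bs j := ⟨t + 1, hex0⟩
  classical
  obtain ⟨J, hJ, hJmin⟩ : ∃ J, (L + 409 * r ^ 3 * 4 ^ (J + 2) ≤ 2 ^ bs J) ∧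
      ∀ j, j < J → ¬ (L + 409 * r ^ 3 * 4 ^ (j + 2) ≤ 2 ^ bs j) :=
    ⟨Nat.find hex, Nat.find_spec hex, fun j hj => Nat.find_min hex hj⟩
  have hJt : J ≤ t + 1 := by
    by_contra hcon
    exact hJmin (t + 1) (by omega) hex0
  have hJ0 : J ≠ 0 := by
    rintro rfl
    simp only [bs] at hJ
    norm_num at hJ
    omega
  obtain ⟨j, rfl⟩ : ∃ j, J = j + 1 := ⟨J - 1, by omega⟩
  have hj := hJmin j (by omega)
  push Not at hj
  refine ⟨j + 1, L + 409 * r ^ 3 * 4 ^ (j + 1 + 2), 409 * r ^ 3 * 4 ^ (j + 1 + 2), by omega, hJ,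
    ?_, hJt, ?_, rfl⟩
  · rw [pow_add 2 L]
    exact Nat.mul_le_mul_right _ hkL
  · set y : ℕ := 4 ^ j with hy
    have hy1 : 1 ≤ y := Nat.one_le_pow _ _ (by norm_num)
    set S : ℕ := L + 409 * r ^ 3 * 4 ^ (j + 2) with hS
    have hSy : S = L + 6544 * r ^ 3 * y := by
      rw [hS, hy]
      ring
    have g1 : as j ≤ S := (as_le j).trans hj.le
    have g2 : 4 ^ bs j ≤ S ^ 2 := by
      calc 4 ^ bs j = (2 ^ bs j) ^ 2 := by
            rw [← pow_mul, mul_comm, pow_mul]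
            norm_num
        _ ≤ S ^ 2 := Nat.pow_le_pow_left hj.le 2
    have g3 : as (j + 1) ≤ 4 * S ^ 3 := by
      rw [as]
      calc 4 * 4 ^ bs j * as j ≤ 4 * S ^ 2 * S :=
            Nat.mul_le_mul (Nat.mul_le_mul_left _ g2) g1
        _ = 4 * S ^ 3 := by ring
    have g4 : L + 409 * r ^ 3 * 4 ^ (j + 1 + 2) ≤ 4 * S := by
      have : 409 * r ^ 3 * 4 ^ (j + 1 + 2) = 4 * (409 * r ^ 3 * 4 ^ (j + 2)) := by ring
      omega
    have g5 : 4 * (L + 409 * r ^ 3 * 4 ^ (j + 1 + 2)) ^ 3 * as (j + 1) ≤ 1024 * S ^ 6 := by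
      calc 4 * (L + 409 * r ^ 3 * 4 ^ (j + 1 + 2)) ^ 3 * as (j + 1) ≤
            4 * (4 * S) ^ 3 * (4 * S ^ 3) :=
            Nat.mul_le_mul (Nat.mul_le_mul_left _ (Nat.pow_le_pow_left g4 3)) g3
        _ = 1024 * S ^ 6 := by ring
    have g6 : y ^ 2 < S := by
      refine lt_of_le_of_lt ?_ hj
      calc y ^ 2 = 2 ^ (4 * j) := by
            rw [hy, ← pow_mul, show (4 : ℕ) = 2 ^ 2 by norm_num, ← pow_mul]
            congr 1
            ring
        _ ≤ 2 ^ bs j := Nat.pow_le_pow_right (by norm_num) (by have := bs_lin j; omega)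
    have g7 : 1024 * S ^ 6 ≤ 48 * k := by
      rcases le_total (6544 * r ^ 3 * y) L with hcase | hcase
      · have h1 : S ≤ 2 * L := by omega
        have h2 : S ^ 6 ≤ 64 * L ^ 6 := by
          calc S ^ 6 ≤ (2 * L) ^ 6 := Nat.pow_le_pow_left h1 6
            _ = 64 * L ^ 6 := by ring
        have h3 := aux_pow3 L hL60
        omega
      · have h1 : S ≤ 13088 * r ^ 3 * y := by
          have : 13088 * r ^ 3 * y = 2 * (6544 * r ^ 3 * y) := by ring
          omega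
        have h2 : y < 13088 * r ^ 3 := by
          have h3 : y * y < 13088 * r ^ 3 * y := by
            calc y * y = y ^ 2 := by ring
              _ < S := g6
              _ ≤ _ := h1
          exact lt_of_mul_lt_mul_right h3 (Nat.zero_le _)
        have h3 : S ≤ 13088 ^ 2 * r ^ 6 := by
          calc S ≤ 13088 * r ^ 3 * y := h1
            _ ≤ 13088 * r ^ 3 * (13088 * r ^ 3) := Nat.mul_le_mul_left _ h2.le
            _ = 13088 ^ 2 * r ^ 6 := by ring
        have h4 : S ^ 6 ≤ 13088 ^ 12 * r ^ 36 := by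
          calc S ^ 6 ≤ (13088 ^ 2 * r ^ 6) ^ 6 := Nat.pow_le_pow_left h3 6
            _ = 13088 ^ 12 * r ^ 36 := by
              rw [mul_pow, ← pow_mul, ← pow_mul]
        have h5 : 22 * (13088 ^ 12 * r ^ 36) ≤ k := by
          rw [← mul_assoc]
          exact hk
        calc 1024 * S ^ 6 ≤ 1024 * (13088 ^ 12 * r ^ 36) := Nat.mul_le_mul_left _ h4
          _ ≤ 48 * (22 * (13088 ^ 12 * r ^ 36)) := by
            rw [← mul_assoc 48]
            exact Nat.mul_le_mul_right _ (by norm_num)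
          _ ≤ 48 * k := Nat.mul_le_mul_left _ h5
    have g8 : 48 * k ≤ 3 * 4 ^ (j + 1 + 1) * k := by
      apply Nat.mul_le_mul_right
      have : 4 ^ (j + 1 + 1) = 16 * y := by
        rw [hy]
        ring
      omega
    exact g5.trans (g7.trans g8)

/-- Transport of the packing property. -/
lemma Pack.equiv {r k : ℕ} {V W : Type} (e : V ≃ W) (h : Pack r k V) : Pack r k W := by
  obtain ⟨G, h1, h2, h3⟩ := h
  refine ⟨fun i => (G i).comap e.symm, ?_, ?_, ?_⟩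
  · intro i j x y hi hj
    exact h1 i j (e.symm x) (e.symm y) hi hj
  · intro i
    exact (h2 i).comap ⟨(SimpleGraph.Embedding.comap e.symm.toEmbedding (G i)).toCopy⟩
  · intro χ
    obtain ⟨i, S, hS, hχ⟩ := h3 (fun v => χ (e v))
    refine ⟨i, S.map e.toEmbedding, ?_, ?_⟩
    · rw [SimpleGraph.isNClique_iff] at hS ⊢
      refine ⟨?_, by rw [Finset.card_map]; exact hS.2⟩
      intro x hx y hy hxy
      rw [Finset.mem_coe, Finset.mem_map] at hx hy
      obtain ⟨a, ha, rfl⟩ := hx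
      obtain ⟨b, hb, rfl⟩ := hy
      have hab : a ≠ b := fun h => hxy (by rw [h])
      have := hS.1 ha hb hab
      simpa using this
    · intro x hx
      rw [Finset.mem_map] at hx
      obtain ⟨a, ha, rfl⟩ := hx
      exact hχ a ha

/-- The upper bound for the packing parameter. -/
theorem pack_upper : ∃ C : ℕ, 2 ≤ C ∧ ∀ r k t : ℕ, 2 ≤ r → C * r ^ 36 ≤ k → k ≤ tower t →
    ∃ n : ℕ, n ≤ C * r ^ 2 * 16 ^ t * k ^ 2 ∧ Pack r k (Fin n) := by
  obtain ⟨C₀, hC₀, hpar⟩ := params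
  refine ⟨C₀ + 18939904, by omega, fun r k t hr hk hkt => ?_⟩
  have hk0 : C₀ * r ^ 36 ≤ k := le_trans (Nat.mul_le_mul_right _ (by omega)) hk
  have hr36 : 1 ≤ r ^ 36 := Nat.one_le_pow _ _ (by omega)
  have hk3 : 3 ≤ k := by
    calc 3 ≤ (C₀ + 18939904) * 1 := by omega
      _ ≤ (C₀ + 18939904) * r ^ 36 := Nat.mul_le_mul_left _ hr36
      _ ≤ k := hk
  obtain ⟨J, s, E, hs, hsb, hkE, hJt, h4, hE⟩ := hpar r k t hr hk0 hkt
  obtain ⟨N, hN, hgad⟩ := gad_full J s k E hs hsb (by omega) hkE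
  set N' : ℕ := 4 ^ (J + 2) * k with hN'
  have hNN : N ≤ N' := by
    have h1 : 4 ^ (J + 1) * k + 3 * 4 ^ (J + 1) * k = N' := by
      rw [hN']
      ring
    omega
  have h4J : 16 ≤ 4 ^ (J + 2) := by
    calc 16 = 4 ^ 2 := by norm_num
      _ ≤ 4 ^ (J + 2) := Nat.pow_le_pow_right (by norm_num) (by omega)
  have hkN : k ≤ N' := Nat.le_mul_of_pos_left _ (by omega)
  have hrN : 0 < r * N' := Nat.mul_pos (by omega) (by omega)
  obtain ⟨p, hp, hp1, hp2⟩ := Nat.exists_prime_lt_and_le_two_mul (34 * (r * N')) (by omega)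
  have : Fact p.Prime := ⟨hp⟩
  have hrk : r * k ≤ r * N' := Nat.mul_le_mul_left _ hkN
  have hNr : N' ≤ r * N' := Nat.le_mul_of_pos_left _ (by omega)
  have hpack : Pack r k (ZMod p × ZMod p) := by
    refine pack_of_gad (N := N) (b := 17) (E := E) (by omega) (by omega) (by omega) ?_ ?_ ?_ hgad
    · have h1 : r * (k / 2) ≤ r * k := Nat.mul_le_mul_left _ (Nat.div_le_self _ _)
      omega
    · have h1 : 2 * r * 17 * N = 34 * (r * N) := by ring
      have h2 : r * N ≤ r * N' := Nat.mul_le_mul_left _ hNN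
      omega
    · rw [hE]
      have h1 : 2 * r ^ 2 * p ≤ 2 * r ^ 2 * (2 * (34 * (r * N'))) := Nat.mul_le_mul_left _ hp2
      have h2 : 2 * r ^ 2 * (2 * (34 * (r * N'))) = r ^ 3 * 4 ^ (J + 2) * (136 * k) := by
        rw [hN']
        ring
      have h3 : 409 * r ^ 3 * 4 ^ (J + 2) * (k / 2) =
          r ^ 3 * 4 ^ (J + 2) * (409 * (k / 2)) := by ring
      rw [h3]
      refine lt_of_le_of_lt h1 ?_
      rw [h2]
      apply Nat.mul_lt_mul_of_pos_left
      · omega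
      · positivity
  refine ⟨p * p, ?_, ?_⟩
  · have h1 : p ≤ 68 * (r * N') := by omega
    have h2 : 16 ^ J ≤ 16 ^ (t + 1) := Nat.pow_le_pow_right (by norm_num) hJt
    calc p * p ≤ (68 * (r * N')) * (68 * (r * N')) := Nat.mul_le_mul h1 h1
      _ = 1183744 * (r ^ 2 * k ^ 2) * 16 ^ J := by
        have h3 : 4 ^ (J + 2) * 4 ^ (J + 2) = 256 * 16 ^ J := by
          rw [← mul_pow, pow_add]
          norm_num
          ring
        calc 68 * (r * N') * (68 * (r * N')) =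
              4624 * (r ^ 2 * k ^ 2) * (4 ^ (J + 2) * 4 ^ (J + 2)) := by
                rw [hN']
                ring
          _ = _ := by
            rw [h3]
            ring
      _ ≤ 1183744 * (r ^ 2 * k ^ 2) * 16 ^ (t + 1) := Nat.mul_le_mul_left _ h2
      _ = 18939904 * (r ^ 2 * 16 ^ t * k ^ 2) := by ring
      _ ≤ (C₀ + 18939904) * (r ^ 2 * 16 ^ t * k ^ 2) := Nat.mul_le_mul_right _ (by omega)
      _ = (C₀ + 18939904) * r ^ 2 * 16 ^ t * k ^ 2 := by ring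
  · refine hpack.equiv ?_
    have : NeZero p := ⟨hp.ne_zero⟩
    exact Fintype.equivFinOfCardEq (by rw [Fintype.card_prod, ZMod.card])

end FB7530
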