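import Mathlib
import Pool.Agent.Lib_MP_fb7530_co.Pack

namespace FB7530

namespace SsatAux

/-- `S` is a clique of colour `i`. -/
private def Mono {r n : ℕ} (c : Sym2 (Fin n) → Fin r) (i : Fin r) (S : Finset (Fin n)) : Prop :=
  ∀ x ∈ S, ∀ y ∈ S, x ≠ y → c s(x, y) = i

/-- A clique of colour `a` meets each clique of colour `b ≠ a` at most once. -/
private lemma few_members {r n k : ℕ} (hk : 1 ≤ k) (c : Sym2 (Fin n) → Fin r) {a b : Fin r}
    (hab : a ≠ b) (F : Finset (Finset (Fin n))) (hF : ∀ A ∈ F, Mono c b A)
    (hcard : F.card ≤ k - 1) (S : Finset (Fin n)) (hS : ∀ x ∈ S, ∃ A ∈ F, x ∈ A)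
    (hSk : S.card = k) (hSa : Mono c a S) : False := by
  classical
  choose! f hf hf' using hS
  obtain ⟨x, hx, y, hy, hxy, he⟩ := Finset.exists_ne_map_eq_of_card_lt_of_maps_to
    (s := S) (t := F) (f := f) (by omega) (fun x hx => hf x hx)
  have h1 := hF (f x) (hf x hx) x (hf' x hx) y (he ▸ hf' y hy) hxy
  have h2 := hSa x hx y hy hxy
  exact hab (h2.symm.trans h1)

/-- A maximal family of disjoint cliques. -/
private lemma exists_max {r n k : ℕ} (hk : 1 ≤ k) (c : Sym2 (Fin n) → Fin r) (b : Fin r)
    (R : Finset (Fin n)) :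
    ∃ F : Finset (Finset (Fin n)), (∀ A ∈ F, A ⊆ R ∧ A.card = k ∧ Mono c b A) ∧
      (∀ A ∈ F, ∀ B ∈ F, A ≠ B → Disjoint A B) ∧
      ∀ S : Finset (Fin n), S ⊆ R → S.card = k → Mono c b S → ¬ ∀ A ∈ F, Disjoint A S := by
  classical
  obtain ⟨F, hF, hmax⟩ := Finset.exists_max_image
    (((R.powersetCard k).powerset).filter (fun F => (∀ A ∈ F, Mono c b A) ∧
      ∀ A ∈ F, ∀ B ∈ F, A ≠ B → Disjoint A B)) Finset.card
    ⟨∅, by
      rw [Finset.mem_filter]
      exact ⟨Finset.empty_mem_powerset _, by simp, by simp⟩⟩
  rw [Finset.mem_filter, Finset.mem_powerset] at hF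
  obtain ⟨hF1, hF2, hF3⟩ := hF
  refine ⟨F, fun A hA => ?_, hF3, ?_⟩
  · have := Finset.mem_powersetCard.1 (hF1 hA)
    exact ⟨this.1, this.2, hF2 A hA⟩
  · intro S hSR hSk hSb hdis
    have hSF : S ∉ F := by
      intro hSF
      have := hdis S hSF
      rw [Finset.disjoint_self_iff_empty] at this
      rw [this, Finset.card_empty] at hSk
      omega
    have hins : insert S F ∈ ((R.powersetCard k).powerset).filter
        (fun F => (∀ A ∈ F, Mono c b A) ∧ ∀ A ∈ F, ∀ B ∈ F, A ≠ B → Disjoint A B) := by
      rw [Finset.mem_filter, Finset.mem_powerset]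
      refine ⟨Finset.insert_subset (Finset.mem_powersetCard.2 ⟨hSR, hSk⟩) hF1, ?_, ?_⟩
      · intro A hA
        rcases Finset.mem_insert.1 hA with rfl | hA
        · exact hSb
        · exact hF2 A hA
      · intro A hA B hB hAB
        rcases Finset.mem_insert.1 hA with hA' | hA'
        · rcases Finset.mem_insert.1 hB with hB' | hB'
          · exact absurd (hA'.trans hB'.symm) hAB
          · rw [hA']
            exact (hdis B hB').symm
        · rcases Finset.mem_insert.1 hB with hB' | hB'
          · rw [hB']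
            exact hdis A hA'
          · exact hF3 A hA' B hB' hAB
    have := hmax _ hins
    rw [Finset.card_insert_of_notMem hSF] at this
    omega

private lemma card_union {n k : ℕ} {F : Finset (Finset (Fin n))} (hF : ∀ A ∈ F, A.card = k)
    (hd : ∀ A ∈ F, ∀ B ∈ F, A ≠ B → Disjoint A B) : (F.biUnion id).card = F.card * k := by
  classical
  have h1 := Finset.card_biUnion (s := F) (t := id) (fun A hA B hB hAB => hd A hA B hB hAB)
  rw [h1]
  have h2 : ∑ A ∈ F, (id A).card = ∑ _A ∈ F, k := Finset.sum_congr rfl (fun A hA => hF A hA)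
  rw [h2, Finset.sum_const, smul_eq_mul]

private lemma main_claim {r n k : ℕ} (hk : 1 ≤ k) (c : Sym2 (Fin n) → Fin r) :
    ∀ (j : ℕ) (C : Finset (Fin r)), C.card = j + 2 → ∀ R : Finset (Fin n),
      R.card < j * (k * (k - 1)) + k ^ 2 →
      ∃ χ : Fin n → Fin r, (∀ x ∈ R, χ x ∈ C) ∧
        ∀ (i : Fin r) (S : Finset (Fin n)), S ⊆ R → S.card = k → (∀ x ∈ S, χ x = i) →
          Mono c i S → False := by
  classical
  intro j
  induction j with
  | zero =>
    intro C hC R hR
    obtain ⟨a, b, hab, rfl⟩ := Finset.card_eq_two.1 (by simpa using hC)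
    obtain ⟨F, hF, hd, hmax⟩ := exists_max hk c b R
    have hcu := card_union (fun A hA => (hF A hA).2.1) hd
    have hsub : F.biUnion id ⊆ R := Finset.biUnion_subset.2 fun A hA => (hF A hA).1
    have hle := Finset.card_le_card hsub
    have hFk : F.card ≤ k - 1 := by
      by_contra hcon
      have h1 : k ≤ F.card := by omega
      have h2 : k * k ≤ F.card * k := Nat.mul_le_mul_right k h1
      have h3 : k ^ 2 = k * k := sq k
      omega
    refine ⟨fun x => if x ∈ F.biUnion id then a else b, ?_, ?_⟩
    · intro x _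
      by_cases hx : x ∈ F.biUnion id
      · simp only [if_pos hx]
        simp
      · simp only [if_neg hx]
        simp
    · intro i S hSR hSk hSi hSm
      have hne : S.Nonempty := by
        rw [← Finset.card_pos]
        omega
      obtain ⟨x0, hx0⟩ := hne
      by_cases hx : x0 ∈ F.biUnion id
      · have hia : i = a := by
          have := hSi x0 hx0
          simp only [if_pos hx] at this
          exact this.symm
        subst hia
        refine few_members hk c hab F (fun A hA => (hF A hA).2.2) hFk S (fun x hxS => ?_) hSk hSm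
        have h1 := hSi x hxS
        by_contra hcon
        have h2 : x ∉ F.biUnion id := by
          intro h
          rw [Finset.mem_biUnion] at h
          exact hcon h
        simp only [if_neg h2] at h1
        exact hab h1.symm
      · have hib : i = b := by
          have := hSi x0 hx0
          simp only [if_neg hx] at this
          exact this.symm
        subst hib
        refine hmax S hSR hSk hSm fun A hA => ?_
        rw [Finset.disjoint_left]
        intro x hxA hxS
        have h1 := hSi x hxS
        have h2 : x ∈ F.biUnion id := Finset.mem_biUnion.2 ⟨A, hA, hxA⟩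
        simp only [if_pos h2] at h1
        exact hab h1
  | succ j ih =>
    intro C hC R hR
    obtain ⟨a, ha⟩ : C.Nonempty := by
      rw [← Finset.card_pos]
      omega
    have hCa : (C.erase a).card = j + 2 := by
      rw [Finset.card_erase_of_mem ha]
      omega
    obtain ⟨b, hb⟩ : (C.erase a).Nonempty := by
      rw [← Finset.card_pos]
      omega
    have hab : a ≠ b := (Finset.ne_of_mem_erase hb).symm
    obtain ⟨F, hF, hd, hmax⟩ := exists_max hk c b R
    by_cases hFk : F.card ≤ k - 1
    · refine ⟨fun x => if x ∈ F.biUnion id then a else b, ?_, ?_⟩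
      · intro x _
        by_cases hx : x ∈ F.biUnion id
        · simp only [if_pos hx]
          exact ha
        · simp only [if_neg hx]
          exact Finset.mem_of_mem_erase hb
      · intro i S hSR hSk hSi hSm
        have hne : S.Nonempty := by
          rw [← Finset.card_pos]
          omega
        obtain ⟨x0, hx0⟩ := hne
        by_cases hx : x0 ∈ F.biUnion id
        · have hia : i = a := by
            have := hSi x0 hx0
            simp only [if_pos hx] at this
            exact this.symm
          subst hia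
          refine few_members hk c hab F (fun A hA => (hF A hA).2.2) hFk S (fun x hxS => ?_) hSk
            hSm
          have h1 := hSi x hxS
          by_contra hcon
          have h2 : x ∉ F.biUnion id := by
            intro h
            rw [Finset.mem_biUnion] at h
            exact hcon h
          simp only [if_neg h2] at h1
          exact hab h1.symm
        · have hib : i = b := by
            have := hSi x0 hx0
            simp only [if_neg hx] at this
            exact this.symm
          subst hib
          refine hmax S hSR hSk hSm fun A hA => ?_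
          rw [Finset.disjoint_left]
          intro x hxA hxS
          have h1 := hSi x hxS
          have h2 : x ∈ F.biUnion id := Finset.mem_biUnion.2 ⟨A, hA, hxA⟩
          simp only [if_pos h2] at h1
          exact hab h1
    · obtain ⟨F', hF'F, hF'k⟩ := Finset.exists_subset_card_eq (s := F) (n := k - 1) (by omega)
      have hcu := card_union (F := F') (fun A hA => (hF A (hF'F hA)).2.1)
        (fun A hA B hB => hd A (hF'F hA) B (hF'F hB))
      rw [hF'k] at hcu
      have hsub : F'.biUnion id ⊆ R := Finset.biUnion_subset.2 fun A hA => (hF A (hF'F hA)).1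
      have hR' : (R \ F'.biUnion id).card < j * (k * (k - 1)) + k ^ 2 := by
        rw [Finset.card_sdiff_of_subset hsub, hcu]
        have e1 : (j + 1) * (k * (k - 1)) = j * (k * (k - 1)) + k * (k - 1) := by ring
        have e2 : (k - 1) * k = k * (k - 1) := mul_comm _ _
        have hk2 : 0 < k ^ 2 := by positivity
        omega
      obtain ⟨χ, hχC, hχ⟩ := ih (C.erase a) hCa (R \ F'.biUnion id) hR'
      refine ⟨fun x => if x ∈ F'.biUnion id then a else χ x, ?_, ?_⟩
      · intro x hx
        by_cases hx' : x ∈ F'.biUnion id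
        · simp only [if_pos hx']
          exact ha
        · simp only [if_neg hx']
          exact Finset.mem_of_mem_erase (hχC x (Finset.mem_sdiff.2 ⟨hx, hx'⟩))
      · intro i S hSR hSk hSi hSm
        by_cases hia : i = a
        · subst hia
          refine few_members hk c hab F' (fun A hA => (hF A (hF'F hA)).2.2) hF'k.le S
            (fun x hxS => ?_) hSk hSm
          have h1 := hSi x hxS
          by_contra hcon
          have h2 : x ∉ F'.biUnion id := by
            intro h
            rw [Finset.mem_biUnion] at h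
            exact hcon h
          simp only [if_neg h2] at h1
          have h3 := hχC x (Finset.mem_sdiff.2 ⟨hSR hxS, h2⟩)
          rw [h1] at h3
          exact Finset.notMem_erase _ _ h3
        · have hout : ∀ x ∈ S, x ∉ F'.biUnion id := by
            intro x hxS hx
            have h1 := hSi x hxS
            simp only [if_pos hx] at h1
            exact hia h1.symm
          refine hχ i S (fun x hxS => Finset.mem_sdiff.2 ⟨hSR hxS, hout x hxS⟩) hSk
            (fun x hxS => ?_) hSm
          have h1 := hSi x hxS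
          simp only [if_neg (hout x hxS)] at h1
          exact h1

/-- Extension of a colouring to one more vertex. -/
private lemma exists_ext {r n : ℕ} (hr : 1 ≤ r) (c : Sym2 (Fin n) → Fin r) (χ : Fin n → Fin r) :
    ∃ c' : Sym2 (Fin (n + 1)) → Fin r,
      (∀ x y : Fin n, c' s(x.castSucc, y.castSucc) = c s(x, y)) ∧
        ∀ x : Fin n, c' s(x.castSucc, Fin.last n) = χ x := by
  classical
  refine ⟨fun e => if h : ∃ e0 : Sym2 (Fin n), Sym2.map Fin.castSucc e0 = e then c h.choose else
    if h : ∃ x : Fin n, s(x.castSucc, Fin.last n) = e then χ h.choose else ⟨0, hr⟩, ?_, ?_⟩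
  · intro x y
    have h : ∃ e0 : Sym2 (Fin n), Sym2.map Fin.castSucc e0 = s(x.castSucc, y.castSucc) :=
      ⟨s(x, y), by rw [Sym2.map_mk]⟩
    simp only [dif_pos h]
    congr 1
    apply Sym2.map.injective (Fin.castSucc_injective n)
    rw [h.choose_spec, Sym2.map_mk]
  · intro x
    have h : ¬ ∃ e0 : Sym2 (Fin n), Sym2.map Fin.castSucc e0 = s(x.castSucc, Fin.last n) := by
      rintro ⟨e0, he0⟩
      have h1 : Fin.last n ∈ Sym2.map Fin.castSucc e0 := by
        rw [he0]
        exact Sym2.mem_mk_right _ _
      obtain ⟨a, _, ha⟩ := Sym2.mem_map.1 h1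
      exact (Fin.castSucc_lt_last a).ne ha
    have h' : ∃ y : Fin n, s(y.castSucc, Fin.last n) = s(x.castSucc, Fin.last n) := ⟨x, rfl⟩
    simp only [dif_neg h, dif_pos h']
    congr 1
    have h2 := h'.choose_spec
    rw [Sym2.eq_iff] at h2
    rcases h2 with h2 | h2
    · exact Fin.castSucc_injective n h2.1
    · exact absurd h2.1 (Fin.castSucc_lt_last _).ne

end SsatAux

open SsatAux

/-- Lower bound for semisaturated colourings. -/
theorem semisat_lower {r k n : ℕ} (hr : 2 ≤ r) (hk : 1 ≤ k) (c : Sym2 (Fin n) → Fin r)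
    (h : SemiSat r k n c) : (r - 2) * (k * (k - 1)) + k ^ 2 ≤ n := by
  classical
  by_contra hcon
  push Not at hcon
  obtain ⟨χ, -, hχ⟩ := main_claim hk c (r - 2) Finset.univ
    (by rw [Finset.card_univ, Fintype.card_fin]; omega) Finset.univ
    (by rw [Finset.card_univ, Fintype.card_fin]; exact hcon)
  obtain ⟨c', hc1, hc2⟩ := exists_ext (by omega) c χ
  obtain ⟨S, hS, hSk, i, hi⟩ := h c' (fun x y _ => hc1 x y)
  obtain ⟨S0, hS0⟩ : ∃ S0 : Finset (Fin n), S0 = Finset.univ.filter (fun x => x.castSucc ∈ S) :=
    ⟨_, rfl⟩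
  have hmem : ∀ x : Fin n, x ∈ S0 ↔ x.castSucc ∈ S := by
    intro x
    rw [hS0, Finset.mem_filter]
    simp
  have hmap : S0.map Fin.castSuccEmb = S.erase (Fin.last n) := by
    ext y
    rw [Finset.mem_map, Finset.mem_erase]
    constructor
    · rintro ⟨x, hx, rfl⟩
      exact ⟨(Fin.castSucc_lt_last x).ne, (hmem x).1 hx⟩
    · rintro ⟨hy, hyS⟩
      obtain ⟨x, rfl⟩ := Fin.exists_castSucc_eq.2 hy
      exact ⟨x, (hmem x).2 hyS, rfl⟩
  have hcard : S0.card = k := by
    rw [← Finset.card_map Fin.castSuccEmb, hmap, Finset.card_erase_of_mem hS, hSk]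
    omega
  refine hχ i S0 (Finset.subset_univ _) hcard (fun x hx => ?_) (fun x hx y hy hxy => ?_)
  · rw [← hc2]
    exact hi _ ((hmem x).1 hx) _ hS (Fin.castSucc_lt_last x).ne
  · rw [← hc1]
    exact hi _ ((hmem x).1 hx) _ ((hmem y).1 hy) (fun he => hxy (Fin.castSucc_injective n he))

/-- A packing yields a semisaturated colouring. -/
theorem semisat_of_pack {r k n : ℕ} (hr : 1 ≤ r) (h : Pack r k (Fin n)) :
    ∃ c : Sym2 (Fin n) → Fin r, SemiSat r k n c := by
  classical
  obtain ⟨G, hG, -, hpack⟩ := h
  refine ⟨fun e => if h : ∃ i, e ∈ (G i).edgeSet then h.choose else ⟨0, hr⟩, ?_⟩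
  intro c' hc'
  obtain ⟨i, S, hS, hSi⟩ := hpack (fun x => c' s(x.castSucc, Fin.last n))
  refine ⟨insert (Fin.last n) (S.map Fin.castSuccEmb), Finset.mem_insert_self _ _, ?_, i, ?_⟩
  · rw [Finset.card_insert_of_notMem, Finset.card_map, hS.card_eq]
    rw [Finset.mem_map]
    rintro ⟨x, _, hx⟩
    exact (Fin.castSucc_lt_last x).ne hx
  · have key : ∀ x ∈ S, ∀ y ∈ S, x ≠ y → c' s(x.castSucc, y.castSucc) = i := by
      intro x hx y hy hxy
      rw [hc' x y hxy]
      have hadj : (G i).Adj x y := hS.isClique hx hy hxy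
      have h1 : ∃ j, s(x, y) ∈ (G j).edgeSet := ⟨i, (SimpleGraph.mem_edgeSet _).2 hadj⟩
      simp only [dif_pos h1]
      exact hG _ _ x y ((SimpleGraph.mem_edgeSet _).1 h1.choose_spec) hadj
    intro x hx y hy hxy
    rcases Finset.mem_insert.1 hx with rfl | hx
    · rcases Finset.mem_insert.1 hy with rfl | hy
      · exact absurd rfl hxy
      · obtain ⟨y0, hy0, rfl⟩ := Finset.mem_map.1 hy
        rw [Sym2.eq_swap]
        exact hSi y0 hy0
    · obtain ⟨x0, hx0, rfl⟩ := Finset.mem_map.1 hx
      rcases Finset.mem_insert.1 hy with rfl | hy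
      · exact hSi x0 hx0
      · obtain ⟨y0, hy0, rfl⟩ := Finset.mem_map.1 hy
        exact key x0 hx0 y0 hy0 (fun he => hxy (by rw [he]))

theorem ssat_ge {r k n : ℕ} (hr : 2 ≤ r) (hk : 1 ≤ k) (h : Pack r k (Fin n)) :
    (r - 2) * (k * (k - 1)) + k ^ 2 ≤ ssat r k := by
  have hne : {n : ℕ | ∃ c : Sym2 (Fin n) → Fin r, SemiSat r k n c}.Nonempty :=
    ⟨n, semisat_of_pack (by omega) h⟩
  obtain ⟨c, hc⟩ := Nat.sInf_mem hne
  exact semisat_lower hr hk c hc

end FB7530
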