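import Mathlib
import Pool.Agent.Lib_MP_fb7530_co.Params
import Pool.Agent.Lib_MP_fb7530_co.Bel
import Pool.Agent.Lib_MP_fb7530_co.SsatLower

namespace FB7530

lemma le_tower_logStar (k : ℕ) : k ≤ tower (logStar k) := by
  have hne : {t : ℕ | k ≤ tower t}.Nonempty := ⟨k, (lt_tower k).le⟩
  exact Nat.sInf_mem hne

theorem main : ∃ C : ℕ, 0 < C ∧ ∀ r k : ℕ, 2 ≤ r → C * r ^ 36 ≤ k →
    0 < P r k ∧ P r k ≤ C * r ^ 2 * 16 ^ logStar k * k ^ 2 ∧
    r * k ^ 2 ≤ 2 * ssat r k ∧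
    1 / ((C : ℝ) * r * 16 ^ logStar k) ≤ (ssat r k : ℝ) / (P r k : ℝ) := by
  obtain ⟨C, hC, h⟩ := pack_upper
  refine ⟨2 * C, by omega, fun r k hr hk => ?_⟩
  have hr36 : 2 ^ 36 ≤ r ^ 36 := Nat.pow_le_pow_left hr 36
  have hk' : C * r ^ 36 ≤ k := by
    refine le_trans ?_ hk
    apply Nat.mul_le_mul_right
    omega
  have hk2 : 2 ≤ k := by
    have h1 : 1 * 2 ^ 36 ≤ C * r ^ 36 := Nat.mul_le_mul (by omega) hr36
    omega
  obtain ⟨n, hn, hpack⟩ := h r k (logStar k) hr hk' (le_tower_logStar k)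
  have hP1 : P r k ≤ n := P_le_of_pack (by omega) hk2 hpack
  have hP2 : P r k ≤ C * r ^ 2 * 16 ^ logStar k * k ^ 2 := hP1.trans hn
  have hPpos : 0 < P r k := P_pos (by omega) hk2 hpack
  have hs1 := ssat_ge hr (by omega) hpack
  have hs : r * k ^ 2 ≤ 2 * ssat r k := by
    obtain ⟨q, rfl⟩ : ∃ q, r = q + 2 := ⟨r - 2, by omega⟩
    obtain ⟨m, rfl⟩ : ∃ m, k = m + 2 := ⟨k - 2, by omega⟩
    have e1 : q + 2 - 2 = q := by omega
    have e2 : m + 2 - 1 = m + 1 := by omega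
    rw [e1, e2] at hs1
    have h3 : q * ((m + 2) * (m + 2)) ≤ q * ((m + 2) * (2 * (m + 1))) :=
      Nat.mul_le_mul_left _ (Nat.mul_le_mul_left _ (by omega))
    calc (q + 2) * (m + 2) ^ 2 = q * ((m + 2) * (m + 2)) + 2 * (m + 2) ^ 2 := by ring
      _ ≤ q * ((m + 2) * (2 * (m + 1))) + 2 * (m + 2) ^ 2 := by omega
      _ = 2 * (q * ((m + 2) * (m + 1)) + (m + 2) ^ 2) := by ring
      _ ≤ 2 * ssat (q + 2) (m + 2) := Nat.mul_le_mul_left _ hs1
  refine ⟨hPpos, ?_, hs, ?_⟩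
  · refine hP2.trans ?_
    have : C * r ^ 2 * 16 ^ logStar k * k ^ 2 ≤ 2 * (C * r ^ 2 * 16 ^ logStar k * k ^ 2) := by
      omega
    calc C * r ^ 2 * 16 ^ logStar k * k ^ 2 ≤ 2 * (C * r ^ 2 * 16 ^ logStar k * k ^ 2) := this
      _ = 2 * C * r ^ 2 * 16 ^ logStar k * k ^ 2 := by ring
  · have hPr : (0 : ℝ) < P r k := by exact_mod_cast hPpos
    have hrr : (0 : ℝ) < r := by exact_mod_cast (by omega : 0 < r)
    have hCr : (0 : ℝ) < C := by exact_mod_cast (by omega : 0 < C)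
    have h16 : (0 : ℝ) < 16 ^ logStar k := by positivity
    have hD : (0 : ℝ) < ((2 * C : ℕ) : ℝ) * r * 16 ^ logStar k := by
      push_cast
      positivity
    rw [div_le_div_iff₀ hD hPr, one_mul]
    have h1 : (P r k : ℝ) ≤ C * r ^ 2 * 16 ^ logStar k * k ^ 2 := by exact_mod_cast hP2
    have h2 : (r : ℝ) * k ^ 2 ≤ 2 * ssat r k := by exact_mod_cast hs
    calc (P r k : ℝ) ≤ C * r ^ 2 * 16 ^ logStar k * k ^ 2 := h1
      _ = (r * k ^ 2) * (C * r * 16 ^ logStar k) := by ring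
      _ ≤ (2 * ssat r k) * (C * r * 16 ^ logStar k) :=
          mul_le_mul_of_nonneg_right h2 (by positivity)
      _ = (ssat r k : ℝ) * (((2 * C : ℕ) : ℝ) * r * 16 ^ logStar k) := by push_cast; ring

end FB7530
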