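import Mathlib
import Pool.Agent.Lib_MP_fb7530_co.Pack

/-! Robust systems: definitions.  (MP_fb7530_co, full answer; see board note 815.) -/

namespace FB7530

/-- A set without conflicts. -/
def Indep {V : Type} (R : V → V → Prop) (I : Finset V) : Prop :=
  ∀ x ∈ I, ∀ y ∈ I, x ≠ y → ¬ R x y

/-- `I` avoids the touch set `T u h`. -/
def Avoids {V U : Type} (T : U → Bool → V → Prop) (u : U) (h : Bool) (I : Finset V) : Prop :=
  ∀ v ∈ I, ¬ T u h v

/-- Exactness: an independent set which avoids both touch sets of every unit of `P` has at most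
`|U| - |P|` elements. -/
def Exact {V U : Type} [Fintype U] (R : V → V → Prop) (T : U → Bool → V → Prop) : Prop :=
  ∀ (P : Finset U) (I : Finset V), Indep R I → (∀ u ∈ P, ∀ h, Avoids T u h I) →
    I.card + P.card ≤ Fintype.card U

/-- The deletion set `D` is harmless: for every single touch `τ` there is an independent set with
`|U|` elements which avoids `D` and the touch. -/
def Alive {V U : Type} [Fintype U] (R : V → V → Prop) (T : U → Bool → V → Prop)
    (D : Finset V) : Prop :=
  ∀ τ : Option (U × Bool), ∃ I : Finset V, Indep R I ∧ I.card = Fintype.card U ∧ Disjoint I D ∧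
    ∀ u h, τ = some (u, h) → Avoids T u h I

/-- `P` is covered by kill sets inside `S` of total weight at most `β`. -/
def KillOn {V : Type} (b : ℕ) (S : Finset V) (P : Finset V → Prop) (β : ℝ) : Prop :=
  ∃ K : Finset (Finset V), (∀ A ∈ K, A ⊆ S) ∧ (∑ A ∈ K, (1 / 2 : ℝ) ^ (b * A.card)) ≤ β ∧
    ∀ D, P D → ∃ A ∈ K, A ⊆ D

/-- There is a robust system with `w` units and `N` vertices, the weight of its kill sets is at
most `β`. -/
def SysEx (w N b : ℕ) (β : ℝ) : Prop :=
  ∃ (V U : Type) (_ : Fintype V) (_ : DecidableEq V) (_ : Fintype U) (_ : DecidableEq U)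
    (R : V → V → Prop) (T : U → Bool → V → Prop),
    Fintype.card V = N ∧ Fintype.card U = w ∧ Exact R T ∧
    KillOn b Finset.univ (fun D => ¬ Alive R T D) β

/-- The options of the units: two groups of `d` options for every unit. -/
abbrev Opt (U : Type) (d : ℕ) : Type := U × (Bool × Fin d)

/-- The geometry of the step: every option `o` splits `X` in lines (the fibres of `cls o`), and the
points of a line sit injectively in a `g × g` array. -/
structure Design (O X Y : Type) (g : ℕ) where
  cls : O → X → Y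
  row : O → X → Fin g
  col : O → X → Fin g
  /-- the blocked directions of a pair of points -/
  Z : X → X → Finset O
  inj : ∀ o x y, cls o x = cls o y → row o x = row o y → col o x = col o y → x = y
  same : ∀ o o' x y, o ≠ o' → cls o x = cls o y → cls o' x = cls o' y → x = y
  Z_symm : ∀ x x', Z x x' = Z x' x
  Z_card : ∀ x x', x ≠ x' → (Z x x').card ≤ 2
  block : ∀ x x' o o' y, x ≠ x' → o ∉ Z x x' → o' ∉ Z x x' → cls o x = cls o y →
    cls o' x' = cls o' y → False

/-- The vertices of a line: the base clique in two halves, the rows, the columns. -/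
abbrev Cell (c g : ℕ) : Type := (Bool × Fin c) ⊕ (Fin g ⊕ Fin g)

/-- The vertices of the step. -/
abbrev StepV (V U X Y : Type) (d c g : ℕ) : Type := (X × V) ⊕ ((Opt U d × Y) × Cell c g)

/-- The units of the step. -/
abbrev StepU (U X Y : Type) (d : ℕ) : Type := (X × U) ⊕ (Opt U d × Y)

/-- The conflicts of the step. -/
def stepR {V U X Y : Type} {d c g : ℕ} (R : V → V → Prop) (T : U → Bool → V → Prop)
    (G : Design (Opt U d) X Y g) : StepV V U X Y d c g → StepV V U X Y d c g → Prop
  | .inl (x, v), .inl (x', v') => x = x' ∧ R v v'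
  | .inl (x, v), .inr ((o, y), .inr (.inl a)) => G.cls o x = y ∧ G.row o x = a ∧ T o.1 false v
  | .inl (x, v), .inr ((o, y), .inr (.inr b)) => G.cls o x = y ∧ G.col o x = b ∧ T o.1 true v
  | .inl _, .inr (_, .inl _) => False
  | .inr _, .inl _ => False
  | .inr ((o, y), .inr (.inl a)), .inr ((o', y'), .inr (.inl a')) =>
      (o = o' ∧ y = y') ∨
      (o.1 = o'.1 ∧ ∃ x, G.cls o x = y ∧ G.row o x = a ∧ G.cls o' x = y' ∧ G.row o' x = a')
  | .inr ((o, y), .inr (.inl a)), .inr ((o', y'), .inr (.inr b)) =>
      o = o' ∧ y = y' ∧ ¬ ∃ x, G.cls o x = y ∧ G.row o x = a ∧ G.col o x = b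
  | .inr (_, .inr (.inl _)), .inr (_, .inl _) => False
  | .inr (l, .inr (.inr _)), .inr (l', .inr (.inr _)) => l = l'
  | .inr (_, .inr (.inr _)), .inr (_, .inr (.inl _)) => False
  | .inr (_, .inr (.inr _)), .inr (_, .inl _) => False
  | .inr (l, .inl _), .inr (l', _) => l = l'

/-- The touch sets of the step. -/
def stepT {V U X Y : Type} {d c g : ℕ} (T : U → Bool → V → Prop)
    (G : Design (Opt U d) X Y g) : StepU U X Y d → Bool → StepV V U X Y d c g → Prop
  | .inl (x, u), h, .inl (x', v) => x' = x ∧ T u h v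
  | .inl (x, u), h, .inr ((o, y), .inr (.inl a)) =>
      o.1 = u ∧ o.2.1 = h ∧ G.cls o x = y ∧ G.row o x = a
  | .inl _, _, .inr (_, .inr (.inr _)) => False
  | .inl _, _, .inr (_, .inl _) => False
  | .inr _, _, .inl _ => False
  | .inr l, h, .inr (l', .inl (h', _)) => l' = l ∧ h' = h
  | .inr l, h, .inr (l', .inr (.inl _)) => l' = l ∧ h = false
  | .inr l, h, .inr (l', .inr (.inr _)) => l' = l ∧ h = true

/-- The part of a deletion set in the copy `x`. -/
def slice {V W X : Type} [Fintype V] [DecidableEq V] [DecidableEq X] [DecidableEq W]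
    (D : Finset ((X × V) ⊕ W)) (x : X) : Finset V :=
  Finset.univ.filter fun v => Sum.inl (x, v) ∈ D

/-- The pair (row vertex, column vertex) of the option `o` at the point `x` is not deleted. -/
def Free {V U X Y : Type} {d c g : ℕ} (G : Design (Opt U d) X Y g)
    (D : Finset (StepV V U X Y d c g)) (o : Opt U d) (x : X) : Prop :=
  Sum.inr ((o, G.cls o x), Sum.inr (Sum.inl (G.row o x))) ∉ D ∧
  Sum.inr ((o, G.cls o x), Sum.inr (Sum.inr (G.col o x))) ∉ D

end FB7530
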