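import Mathlib
import Pool.Agent.Lib_MP_fb7530_co.Sys

/-! PIECE GEO: the geometry of the step.

`X = F_p^4`, `Y = F_p^3`; choose an injection `v : O → F_p` and give the option `o` the direction
`(1, v, v², v³)`: `cls o x = (x₁ - v x₀, x₂ - v² x₀, x₃ - v³ x₀)`, so that `cls o x = cls o y` iff
`y - x` is a multiple of the direction; position of `x` on its line: an injection
`F_p → Fin g × Fin g` applied to `x₀`.  Any 4 directions are linearly independent (Vandermonde).
`Z x x'` = set of `o` such that `x' - x = α s_o + α' s_o'` for some `o'` and `α ≠ 0`.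
It is symmetric, and has at most 2 elements for `x ≠ x'` by 4-wise independence (if `o₁,o₂,o₃` are
distinct elements then comparing two representations gives `o₂' = o₁, o₃' = o₁, o₁' = o₂, o₁' = o₃`). -/

namespace FB7530

/-- The direction of the parameter `v`. -/
private def svGEO {p : ℕ} (v : ZMod p) : Fin 4 → ZMod p := ![1, v, v ^ 2, v ^ 3]

private theorem svGEO_zero {p : ℕ} (v : ZMod p) : svGEO v 0 = 1 := rfl
private theorem svGEO_one {p : ℕ} (v : ZMod p) : svGEO v 1 = v := rfl
private theorem svGEO_two {p : ℕ} (v : ZMod p) : svGEO v 2 = v ^ 2 := rfl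
private theorem svGEO_three {p : ℕ} (v : ZMod p) : svGEO v 3 = v ^ 3 := rfl

/-- Four different directions are independent, in the form we need. -/
private theorem indepGEO {p : ℕ} [Fact p.Prime] {a b1 b2 b3 v u1 u2 u3 : ZMod p}
    (h : ∀ i, a * svGEO v i = b1 * svGEO u1 i + b2 * svGEO u2 i + b3 * svGEO u3 i)
    (h1 : v ≠ u1) (h2 : v ≠ u2) (h3 : v ≠ u3) : a = 0 := by
  have e0 := h 0
  have e1 := h 1
  have e2 := h 2
  have e3 := h 3
  simp only [svGEO_zero, svGEO_one, svGEO_two, svGEO_three] at e0 e1 e2 e3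
  have key : a * ((v - u1) * (v - u2) * (v - u3)) = 0 := by
    linear_combination e3 - (u1 + u2 + u3) * e2 + (u1 * u2 + u1 * u3 + u2 * u3) * e1
      - u1 * u2 * u3 * e0
  rcases mul_eq_zero.1 key with h0 | h0
  · exact h0
  · exfalso
    have n1 := sub_ne_zero.2 h1
    have n2 := sub_ne_zero.2 h2
    have n3 := sub_ne_zero.2 h3
    exact (mul_ne_zero (mul_ne_zero n1 n2) n3) h0

/-- The line of `x` in the direction `v`. -/
private def clsGEO {p : ℕ} (v : ZMod p) (x : Fin 4 → ZMod p) : Fin 3 → ZMod p :=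
  ![x 1 - v * x 0, x 2 - v ^ 2 * x 0, x 3 - v ^ 3 * x 0]

private theorem clsGEO_iff {p : ℕ} {v : ZMod p} {x y : Fin 4 → ZMod p}
    (h : clsGEO v x = clsGEO v y) (i : Fin 4) : y i - x i = (y 0 - x 0) * svGEO v i := by
  have h0 : x 1 - v * x 0 = y 1 - v * y 0 := congrFun h 0
  have h1 : x 2 - v ^ 2 * x 0 = y 2 - v ^ 2 * y 0 := congrFun h 1
  have h2 : x 3 - v ^ 3 * x 0 = y 3 - v ^ 3 * y 0 := congrFun h 2
  fin_cases i
  · show y 0 - x 0 = (y 0 - x 0) * svGEO v 0
    rw [svGEO_zero, mul_one]
  · show y 1 - x 1 = (y 0 - x 0) * svGEO v 1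
    rw [svGEO_one]; linear_combination -h0
  · show y 2 - x 2 = (y 0 - x 0) * svGEO v 2
    rw [svGEO_two]; linear_combination -h1
  · show y 3 - x 3 = (y 0 - x 0) * svGEO v 3
    rw [svGEO_three]; linear_combination -h2

/-- `o` is blocked for the pair `x, x'`. -/
private def BlkGEO {O : Type} {p : ℕ} (v : O → ZMod p) (x x' : Fin 4 → ZMod p) (o : O) : Prop :=
  ∃ (o' : O) (α β : ZMod p), α ≠ 0 ∧ ∀ i, x' i - x i = α * svGEO (v o) i + β * svGEO (v o') i

private theorem BlkGEO_symm {O : Type} {p : ℕ} {v : O → ZMod p} {x x' : Fin 4 → ZMod p} {o : O}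
    (h : BlkGEO v x x' o) : BlkGEO v x' x o := by
  obtain ⟨o', α, β, hα, h⟩ := h
  refine ⟨o', -α, -β, neg_ne_zero.2 hα, fun i => ?_⟩
  have := h i
  linear_combination -this

private theorem BlkGEO_two {O : Type} {p : ℕ} [Fact p.Prime] {v : O → ZMod p}
    (hv : Function.Injective v) {x x' : Fin 4 → ZMod p} (hx : x ≠ x') {o₁ o₂ : O}
    {α₁ β₁ : ZMod p} (h1 : ∀ i, x' i - x i = α₁ * svGEO (v o₁) i + β₁ * svGEO (v o₂) i)
    {o : O} (ho : BlkGEO v x x' o) : o = o₁ ∨ o = o₂ := by
  obtain ⟨o', α, β, hα, h⟩ := ho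
  by_contra hcon
  push Not at hcon
  have n1 : v o ≠ v o₁ := fun e => hcon.1 (hv e)
  have n2 : v o ≠ v o₂ := fun e => hcon.2 (hv e)
  by_cases hoo : o = o'
  · subst hoo
    have h0 : α + β = 0 := by
      refine indepGEO (b1 := α₁) (b2 := β₁) (b3 := 0) (v := v o) (u1 := v o₁) (u2 := v o₂)
        (u3 := v o₂) (fun i => ?_) n1 n2 n2
      have e := h i
      have e1 := h1 i
      linear_combination e1 - e
    apply hx
    funext i
    have e := h i
    have : x' i - x i = (α + β) * svGEO (v o) i := by linear_combination e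
    rw [h0, zero_mul] at this
    exact (sub_eq_zero.1 this).symm
  · have n3 : v o ≠ v o' := fun e => hoo (hv e)
    refine hα (indepGEO (b1 := α₁) (b2 := β₁) (b3 := -β) (v := v o) (u1 := v o₁) (u2 := v o₂)
        (u3 := v o') (fun i => ?_) n1 n2 n3)
    have e := h i
    have e1 := h1 i
    linear_combination e1 - e

theorem design_exists {O : Type} [Fintype O] {p g : ℕ} [Fact p.Prime]
    (hO : Fintype.card O ≤ p) (hg : p ≤ g ^ 2) :
    Nonempty (Design O (Fin 4 → ZMod p) (Fin 3 → ZMod p) g) := by
  classical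
  have hv : Nonempty (O ↪ ZMod p) := by
    apply Function.Embedding.nonempty_of_card_le
    rw [ZMod.card]; exact hO
  obtain ⟨v⟩ := hv
  have hφ : Nonempty (ZMod p ↪ Fin g × Fin g) := by
    apply Function.Embedding.nonempty_of_card_le
    rw [ZMod.card, Fintype.card_prod, Fintype.card_fin]
    calc p ≤ g ^ 2 := hg
      _ = g * g := sq g
  obtain ⟨φ⟩ := hφ
  have hvi : Function.Injective (fun o => v o) := v.injective
  refine ⟨{
    cls := fun o x => clsGEO (v o) x
    row := fun _ x => (φ (x 0)).1
    col := fun _ x => (φ (x 0)).2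
    Z := fun x x' => Finset.univ.filter fun o => BlkGEO (fun o => v o) x x' o
    inj := ?_
    same := ?_
    Z_symm := ?_
    Z_card := ?_
    block := ?_ }⟩
  · intro o x y h hr hc
    have h0 : x 0 = y 0 := φ.injective (Prod.ext hr hc)
    funext i
    have e := clsGEO_iff h i
    rw [h0, sub_self, zero_mul] at e
    exact (sub_eq_zero.1 e).symm
  · intro o o' x y hne h h'
    by_contra hxy
    have hα : y 0 - x 0 ≠ 0 := by
      intro h0
      apply hxy
      funext i
      have e := clsGEO_iff h i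
      rw [h0, zero_mul] at e
      exact (sub_eq_zero.1 e).symm
    have e := clsGEO_iff h 1
    have e' := clsGEO_iff h' 1
    rw [svGEO_one] at e e'
    exact hne (hvi (mul_left_cancel₀ hα (e.symm.trans e')))
  · intro x x'
    ext o
    simp only [Finset.mem_filter, Finset.mem_univ, true_and]
    exact ⟨BlkGEO_symm, BlkGEO_symm⟩
  · intro x x' hx
    rcases (Finset.univ.filter fun o => BlkGEO (fun o => v o) x x' o).eq_empty_or_nonempty with
      he | ⟨o₁, ho₁⟩
    · rw [he]; simp
    · rw [Finset.mem_filter] at ho₁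
      obtain ⟨o₂, α, β, -, h⟩ := ho₁.2
      refine le_trans (Finset.card_le_card (t := {o₁, o₂}) ?_) Finset.card_le_two
      intro o ho
      rw [Finset.mem_filter] at ho
      rcases BlkGEO_two hvi hx h ho.2 with rfl | rfl
      · exact Finset.mem_insert_self _ _
      · exact Finset.mem_insert_of_mem (Finset.mem_singleton_self _)
  · intro x x' o o' y hx ho ho' h h'
    rw [Finset.mem_filter] at ho ho'
    have e := clsGEO_iff h
    have e' := clsGEO_iff h'
    by_cases hα : y 0 - x 0 = 0
    · have hβ : -(y 0 - x' 0) ≠ 0 := by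
        intro hb
        apply hx
        funext i
        have a := e i
        have b := e' i
        rw [hα, zero_mul] at a
        rw [neg_eq_zero.1 hb, zero_mul] at b
        linear_combination b - a
      apply ho'
      refine ⟨Finset.mem_univ _, o, -(y 0 - x' 0), 0, hβ, fun i => ?_⟩
      have a := e i
      have b := e' i
      rw [hα, zero_mul] at a
      linear_combination a - b
    · apply ho
      refine ⟨Finset.mem_univ _, o', y 0 - x 0, -(y 0 - x' 0), hα, fun i => ?_⟩
      have a := e i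
      have b := e' i
      linear_combination a - b

end FB7530
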