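import Mathlib
import Pool.Agent.Lib_MP_fb7530_co.Sys

/-! PIECE EXACT: the step preserves exactness.

Let `I` be independent for `stepR`, avoiding the touch sets of the units of `P`.  For a line
`l = (o,y)` let `I_l` be the set of its cells in `I`: `|I_l| ≤ 2`; if `|I_l| = 2` it consists of a row `a`
and a column `b` for which there is `x` with `cls o x = y, row o x = a, col o x = b`: the line COVERS
the site `(x, o.1)`.  Then: (1) `I_l = ∅` for `l ∈ P`; (2) two different lines cover different sites
(row-row conflict: same unit, same `x`); (3) a covered site is not in `P` (the row vertex is in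
`stepT (inl (x,u)) (group of o)`); (4) in the copy `x` the slice of `I` avoids `T u false` and
`T u true` for every covered `u` (conflicts of the row and the column vertex) and for every `u` with
`(x,u) ∈ P`.  By `Exact R T` the slice has at most `|U| - #covered - #P_x` elements.  Sum up. -/

namespace FB7530

private theorem card_prod_exact {A B : Type} [Fintype A] [Fintype B] [DecidableEq A]
    [DecidableEq B] (S : Finset (A × B)) :
    S.card = ∑ a, (Finset.univ.filter fun b => (a, b) ∈ S).card := by
  have h1 : S.card = ∑ q : A × B, if q ∈ S then 1 else 0 := by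
    rw [← Finset.card_filter]
    congr 1
    ext q
    simp
  rw [h1, Fintype.sum_prod_type]
  refine Finset.sum_congr rfl fun a _ => ?_
  rw [Finset.card_filter]

private theorem card_sum_exact {A B C D : Type} [Fintype A] [Fintype B] [Fintype C] [Fintype D]
    [DecidableEq A] [DecidableEq B] [DecidableEq C] [DecidableEq D]
    (S : Finset ((A × B) ⊕ (C × D))) :
    S.card = ∑ a, (Finset.univ.filter fun b => Sum.inl (a, b) ∈ S).card +
      ∑ c, (Finset.univ.filter fun e => Sum.inr (c, e) ∈ S).card := by
  rw [← Finset.card_toLeft_add_card_toRight, card_prod_exact, card_prod_exact]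
  simp

private theorem card_sum2_exact {A B C : Type} [Fintype A] [Fintype B] [Fintype C]
    [DecidableEq A] [DecidableEq B] [DecidableEq C]
    (S : Finset ((A × B) ⊕ C)) :
    S.card = ∑ a, (Finset.univ.filter fun b => Sum.inl (a, b) ∈ S).card +
      (Finset.univ.filter fun c => Sum.inr c ∈ S).card := by
  rw [← Finset.card_toLeft_add_card_toRight, card_prod_exact]
  congr 1
  · simp
  · congr 1
    ext c
    simp

theorem step_exact {V U X Y : Type} [Fintype V] [DecidableEq V] [Fintype U] [DecidableEq U]
    [Fintype X] [DecidableEq X] [Fintype Y] [DecidableEq Y] {d c g : ℕ} {R : V → V → Prop}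
    {T : U → Bool → V → Prop} (h : Exact R T) (G : Design (Opt U d) X Y g) :
    Exact (stepR (c := c) R T G) (stepT (c := c) T G) := by
  classical
  intro P I hI hP
  -- the covering relation
  let Cov : Opt U d × Y → X → Prop := fun l x => G.cls l.1 x = l.2 ∧
    (Sum.inr (l, Sum.inr (Sum.inl (G.row l.1 x))) : StepV V U X Y d c g) ∈ I ∧
    (Sum.inr (l, Sum.inr (Sum.inr (G.col l.1 x))) : StepV V U X Y d c g) ∈ I
  let Il : Opt U d × Y → Finset (Cell c g) := fun l =>
    Finset.univ.filter fun e => (Sum.inr (l, e) : StepV V U X Y d c g) ∈ I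
  let Sx : X → Finset V := fun x =>
    Finset.univ.filter fun v => (Sum.inl (x, v) : StepV V U X Y d c g) ∈ I
  let Px : X → Finset U := fun x =>
    Finset.univ.filter fun u => (Sum.inl (x, u) : StepU U X Y d) ∈ P
  let Cx : X → Finset U := fun x =>
    Finset.univ.filter fun u => ∃ l : Opt U d × Y, Cov l x ∧ l.1.1 = u
  let Lc : Finset (Opt U d × Y) := Finset.univ.filter fun l => ∃ x, Cov l x
  let Lp : Finset (Opt U d × Y) := Finset.univ.filter fun l => (Sum.inr l : StepU U X Y d) ∈ P
  -- Claim A
  have hA : ∀ l, (Il l).card + (if l ∈ Lp then 1 else 0) ≤ 1 + (if l ∈ Lc then 1 else 0) := by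
    intro l
    obtain ⟨o, y⟩ := l
    by_cases hl : (o, y) ∈ Lp
    · have hl' : (Sum.inr (o, y) : StepU U X Y d) ∈ P := by
        simpa [Lp] using hl
      have h0 : Il (o, y) = ∅ := by
        rw [Finset.eq_empty_iff_forall_notMem]
        intro e he
        have he' : (Sum.inr ((o, y), e) : StepV V U X Y d c g) ∈ I := by simpa [Il] using he
        rcases e with ⟨h', i⟩ | a | b
        · exact hP _ hl' h' _ he' ⟨rfl, rfl⟩
        · exact hP _ hl' false _ he' ⟨rfl, rfl⟩
        · exact hP _ hl' true _ he' ⟨rfl, rfl⟩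
      rw [h0, Finset.card_empty, if_pos hl]
      omega
    · rw [if_neg hl]
      by_cases hc : (o, y) ∈ Lc
      · rw [if_pos hc]
        -- at most two elements
        by_contra hcon
        have h3 : 2 < (Il (o, y)).card := by omega
        obtain ⟨e1, e2, e3, h1, h2, h3, h12, h13, h23⟩ := Finset.two_lt_card_iff.1 h3
        have m1 : (Sum.inr ((o, y), e1) : StepV V U X Y d c g) ∈ I := by simpa [Il] using h1
        have m2 : (Sum.inr ((o, y), e2) : StepV V U X Y d c g) ∈ I := by simpa [Il] using h2
        have m3 : (Sum.inr ((o, y), e3) : StepV V U X Y d c g) ∈ I := by simpa [Il] using h3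
        have n12 : (Sum.inr ((o, y), e1) : StepV V U X Y d c g) ≠ Sum.inr ((o, y), e2) := by
          intro e; apply h12; simpa using e
        have n13 : (Sum.inr ((o, y), e1) : StepV V U X Y d c g) ≠ Sum.inr ((o, y), e3) := by
          intro e; apply h13; simpa using e
        have n23 : (Sum.inr ((o, y), e2) : StepV V U X Y d c g) ≠ Sum.inr ((o, y), e3) := by
          intro e; apply h23; simpa using e
        rcases e1 with b1 | a1 | a1
        · rcases e2 with b2 | a2 | a2 <;> exact hI _ m1 _ m2 n12 rfl
        · rcases e2 with b2 | a2 | a2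
          · exact hI _ m2 _ m1 n12.symm rfl
          · exact hI _ m1 _ m2 n12 (Or.inl ⟨rfl, rfl⟩)
          · rcases e3 with b3 | a3 | a3
            · exact hI _ m3 _ m1 n13.symm rfl
            · exact hI _ m1 _ m3 n13 (Or.inl ⟨rfl, rfl⟩)
            · exact hI _ m2 _ m3 n23 rfl
        · rcases e2 with b2 | a2 | a2
          · exact hI _ m2 _ m1 n12.symm rfl
          · rcases e3 with b3 | a3 | a3
            · exact hI _ m3 _ m1 n13.symm rfl
            · exact hI _ m2 _ m3 n23 (Or.inl ⟨rfl, rfl⟩)
            · exact hI _ m1 _ m3 n13 rfl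
          · exact hI _ m1 _ m2 n12 rfl
      · rw [if_neg hc]
        have hc' : ¬ ∃ x, Cov (o, y) x := by simpa [Lc] using hc
        have h1 : (Il (o, y)).card ≤ 1 := by
          rw [Finset.card_le_one]
          intro e1 h1 e2 h2
          by_contra h12
          have m1 : (Sum.inr ((o, y), e1) : StepV V U X Y d c g) ∈ I := by simpa [Il] using h1
          have m2 : (Sum.inr ((o, y), e2) : StepV V U X Y d c g) ∈ I := by simpa [Il] using h2
          have n12 : (Sum.inr ((o, y), e1) : StepV V U X Y d c g) ≠ Sum.inr ((o, y), e2) := by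
            intro e; apply h12; simpa using e
          rcases e1 with b1 | a1 | a1
          · rcases e2 with b2 | a2 | a2 <;> exact hI _ m1 _ m2 n12 rfl
          · rcases e2 with b2 | a2 | a2
            · exact hI _ m2 _ m1 n12.symm rfl
            · exact hI _ m1 _ m2 n12 (Or.inl ⟨rfl, rfl⟩)
            · refine hI _ m1 _ m2 n12 ⟨rfl, rfl, ?_⟩
              rintro ⟨x, x1, x2, x3⟩
              refine hc' ⟨x, x1, ?_, ?_⟩
              · rw [← x2] at m1; exact m1
              · rw [← x3] at m2; exact m2
          · rcases e2 with b2 | a2 | a2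
            · exact hI _ m2 _ m1 n12.symm rfl
            · refine hI _ m2 _ m1 n12.symm ⟨rfl, rfl, ?_⟩
              rintro ⟨x, x1, x2, x3⟩
              refine hc' ⟨x, x1, ?_, ?_⟩
              · rw [← x2] at m2; exact m2
              · rw [← x3] at m1; exact m1
            · exact hI _ m1 _ m2 n12 rfl
        omega
  -- Claim B
  have hB : ∀ l l' x, Cov l x → Cov l' x → l.1.1 = l'.1.1 → l = l' := by
    rintro ⟨o, y⟩ ⟨o', y'⟩ x ⟨a1, a2, a3⟩ ⟨b1, b2, b3⟩ e
    by_contra hne
    have n12 : (Sum.inr ((o, y), Sum.inr (Sum.inl (G.row o x))) : StepV V U X Y d c g) ≠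
        Sum.inr ((o', y'), Sum.inr (Sum.inl (G.row o' x))) := by
      intro e'
      apply hne
      have := Sum.inr.inj e'
      exact (Prod.mk.inj this).1
    exact hI _ a2 _ b2 n12 (Or.inr ⟨e, x, a1, rfl, b1, rfl⟩)
  -- Claim C
  have hC : ∀ x, Disjoint (Px x) (Cx x) := by
    intro x
    rw [Finset.disjoint_left]
    intro u hu hu'
    have h1 : (Sum.inl (x, u) : StepU U X Y d) ∈ P := by simpa [Px] using hu
    have h2 : ∃ l : Opt U d × Y, Cov l x ∧ l.1.1 = u := by
      have := (Finset.mem_filter.1 hu').2
      exact this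
    obtain ⟨⟨o, y⟩, ⟨a1, a2, a3⟩, e⟩ := h2
    exact hP _ h1 o.2.1 _ a2 ⟨e, rfl, a1, rfl⟩
  -- Claim D
  have hD : ∀ x, (Sx x).card + ((Px x).card + (Cx x).card) ≤ Fintype.card U := by
    intro x
    rw [← Finset.card_union_of_disjoint (hC x)]
    apply h
    · intro v hv v' hv' hne hR
      have m1 : (Sum.inl (x, v) : StepV V U X Y d c g) ∈ I := by simpa [Sx] using hv
      have m2 : (Sum.inl (x, v') : StepV V U X Y d c g) ∈ I := by simpa [Sx] using hv'
      refine hI _ m1 _ m2 ?_ ⟨rfl, hR⟩
      intro e; apply hne; simpa using e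
    · intro u hu h' v hv hT
      have m1 : (Sum.inl (x, v) : StepV V U X Y d c g) ∈ I := by simpa [Sx] using hv
      rw [Finset.mem_union] at hu
      rcases hu with hu | hu
      · have h1 : (Sum.inl (x, u) : StepU U X Y d) ∈ P := by simpa [Px] using hu
        exact hP _ h1 h' _ m1 ⟨rfl, hT⟩
      · have h2 : ∃ l : Opt U d × Y, Cov l x ∧ l.1.1 = u := (Finset.mem_filter.1 hu).2
        obtain ⟨⟨o, y⟩, ⟨a1, a2, a3⟩, e⟩ := h2
        have e' : o.1 = u := e
        subst e'
        cases h' with
        | false => exact hI _ m1 _ a2 (by simp) ⟨a1, rfl, hT⟩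
        | true => exact hI _ m1 _ a3 (by simp) ⟨a1, rfl, hT⟩
  -- sum up
  have s1 : I.card = ∑ x, (Sx x).card + ∑ l, (Il l).card := by
    convert card_sum_exact I
  have s2 : P.card = ∑ x, (Px x).card + Lp.card := by
    convert card_sum2_exact P
  have s3 : ∑ x, (Sx x).card + (∑ x, (Px x).card + ∑ x, (Cx x).card) ≤
      Fintype.card X * Fintype.card U := by
    rw [← Finset.sum_add_distrib, ← Finset.sum_add_distrib]
    calc ∑ x, ((Sx x).card + ((Px x).card + (Cx x).card)) ≤ ∑ _x : X, Fintype.card U :=
          Finset.sum_le_sum fun x _ => hD x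
      _ = Fintype.card X * Fintype.card U := by simp
  have s4 : ∑ l, (Il l).card + Lp.card ≤ Fintype.card (Opt U d × Y) + Lc.card := by
    have e1 : Lp.card = ∑ l, if l ∈ Lp then 1 else 0 := by
      rw [← Finset.card_filter]; congr 1; ext l; simp
    have e2 : Lc.card = ∑ l, if l ∈ Lc then 1 else 0 := by
      rw [← Finset.card_filter]; congr 1; ext l; simp
    have e3 : Fintype.card (Opt U d × Y) = ∑ _l : Opt U d × Y, 1 := by simp
    rw [e1, e2, e3, ← Finset.sum_add_distrib, ← Finset.sum_add_distrib]
    exact Finset.sum_le_sum fun l _ => hA l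
  have s5 : Lc.card ≤ ∑ x, (Cx x).card := by
    have h1 : ∀ l : Opt U d × Y, l ∈ Lc → ∃ x, Cov l x := fun l hl => (Finset.mem_filter.1 hl).2
    rcases Finset.eq_empty_or_nonempty Lc with hLe | ⟨l₀, hl₀⟩
    · rw [hLe, Finset.card_empty]
      exact Nat.zero_le _
    obtain ⟨x₀, -⟩ := h1 l₀ hl₀
    have : Nonempty X := ⟨x₀⟩
    choose! f hf using h1
    have h2 : ∑ x, (Cx x).card = (Finset.univ.sigma Cx).card := (Finset.card_sigma _ _).symm
    rw [h2]
    refine Finset.card_le_card_of_injOn (fun l => (⟨f l, l.1.1⟩ : Σ _ : X, U)) ?_ ?_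
    · intro l hl
      have hl' : l ∈ Lc := hl
      have : l.1.1 ∈ Cx (f l) := by
        refine Finset.mem_filter.2 ⟨Finset.mem_univ _, l, hf l hl', rfl⟩
      simpa using this
    · intro l hl l' hl' e
      have hl1 : l ∈ Lc := hl
      have hl2 : l' ∈ Lc := hl'
      simp only [Sigma.mk.injEq, heq_eq_eq] at e
      refine hB l l' (f l) (hf l hl1) ?_ e.2
      rw [e.1]
      exact hf l' hl2
  have s6 : Fintype.card (StepU U X Y d) =
      Fintype.card X * Fintype.card U + Fintype.card (Opt U d × Y) := by
    rw [Fintype.card_sum, Fintype.card_prod X U]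
  rw [s6]
  omega

end FB7530
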