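import Mathlib
import Pool.Agent.Lib_MP_fb7530_co.Sys

/-! PIECE CALC: calculus of kill sets. -/

namespace FB7530

variable {V W : Type} {b : ℕ}

theorem KillOn.mono {S S' : Finset V} {P P' : Finset V → Prop} {β β' : ℝ} (h : KillOn b S P β)
    (hS : S ⊆ S') (hP : ∀ D, P' D → P D) (hβ : β ≤ β') : KillOn b S' P' β' := by
  obtain ⟨K, h1, h2, h3⟩ := h
  exact ⟨K, fun A hA => (h1 A hA).trans hS, h2.trans hβ, fun D hD => h3 D (hP D hD)⟩

private lemma half_pow_nonneg_calc (n : ℕ) : (0 : ℝ) ≤ (1 / 2 : ℝ) ^ n := by positivity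

private lemma sum_image_le_calc {α γ : Type} [DecidableEq γ] (s : Finset α) (f : α → γ)
    (g : γ → ℝ) (hg : ∀ x, 0 ≤ g x) : ∑ x ∈ s.image f, g x ≤ ∑ x ∈ s, g (f x) := by
  classical
  induction s using Finset.induction_on with
  | empty => simp
  | insert a s ha ih =>
    rw [Finset.image_insert, Finset.sum_insert ha]
    by_cases hfa : f a ∈ s.image f
    · rw [Finset.insert_eq_of_mem hfa]
      have := hg (f a)
      linarith
    · rw [Finset.sum_insert hfa]
      linarith

/-- a kill set with `n` elements -/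
theorem killOn_subset (A : Finset V) : KillOn b A (fun D => A ⊆ D) ((1 / 2 : ℝ) ^ (b * A.card)) := by
  refine ⟨{A}, ?_, ?_, ?_⟩
  · intro A' hA'
    rw [Finset.mem_singleton] at hA'
    rw [hA']
  · rw [Finset.sum_singleton]
  · intro D hD
    exact ⟨A, Finset.mem_singleton_self A, hD⟩

theorem killOn_false (S : Finset V) (β : ℝ) (hβ : 0 ≤ β) : KillOn b S (fun _ => False) β := by
  refine ⟨∅, ?_, ?_, ?_⟩
  · intro A hA
    exact absurd hA (Finset.notMem_empty A)
  · simpa using hβ
  · intro D hD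
    exact hD.elim

theorem killOn_or {S : Finset V} {P Q : Finset V → Prop} {β γ : ℝ} (h : KillOn b S P β)
    (h' : KillOn b S Q γ) : KillOn b S (fun D => P D ∨ Q D) (β + γ) := by
  classical
  obtain ⟨K, h1, h2, h3⟩ := h
  obtain ⟨K', h1', h2', h3'⟩ := h'
  refine ⟨K ∪ K', ?_, ?_, ?_⟩
  · intro A hA
    rcases Finset.mem_union.1 hA with hA | hA
    · exact h1 A hA
    · exact h1' A hA
  · have e := Finset.sum_union_inter (s₁ := K) (s₂ := K')
      (f := fun A : Finset V => (1 / 2 : ℝ) ^ (b * A.card))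
    have n : 0 ≤ ∑ A ∈ K ∩ K', (1 / 2 : ℝ) ^ (b * A.card) :=
      Finset.sum_nonneg fun A _ => half_pow_nonneg_calc _
    linarith
  · intro D hD
    rcases hD with hD | hD
    · obtain ⟨A, hA, hAD⟩ := h3 D hD
      exact ⟨A, Finset.mem_union_left _ hA, hAD⟩
    · obtain ⟨A, hA, hAD⟩ := h3' D hD
      exact ⟨A, Finset.mem_union_right _ hA, hAD⟩

/-- events with disjoint supports -/
theorem killOn_and {S S' : Finset V} {P Q : Finset V → Prop} {β γ : ℝ} (hS : Disjoint S S')
    (h : KillOn b S P β) (h' : KillOn b S' Q γ) [DecidableEq V] :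
    KillOn b (S ∪ S') (fun D => P D ∧ Q D) (β * γ) := by
  obtain ⟨K, h1, h2, h3⟩ := h
  obtain ⟨K', h1', h2', h3'⟩ := h'
  refine ⟨(K ×ˢ K').image (fun p => p.1 ∪ p.2), ?_, ?_, ?_⟩
  · intro A hA
    obtain ⟨p, hp, rfl⟩ := Finset.mem_image.1 hA
    rw [Finset.mem_product] at hp
    exact Finset.union_subset_union (h1 _ hp.1) (h1' _ hp.2)
  · refine (sum_image_le_calc (K ×ˢ K') (fun p : Finset V × Finset V => p.1 ∪ p.2)
      (fun A => (1 / 2 : ℝ) ^ (b * A.card)) (fun A => half_pow_nonneg_calc _)).trans ?_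
    have e : ∑ p ∈ K ×ˢ K', (1 / 2 : ℝ) ^ (b * (p.1 ∪ p.2).card)
        = (∑ A ∈ K, (1 / 2 : ℝ) ^ (b * A.card)) * ∑ A ∈ K', (1 / 2 : ℝ) ^ (b * A.card) := by
      rw [Finset.sum_mul_sum, ← Finset.sum_product']
      refine Finset.sum_congr rfl ?_
      intro p hp
      rw [Finset.mem_product] at hp
      have hd : Disjoint p.1 p.2 := Disjoint.mono (h1 _ hp.1) (h1' _ hp.2) hS
      rw [Finset.card_union_of_disjoint hd, Nat.mul_add, pow_add]
    rw [e]
    have n' : 0 ≤ ∑ A ∈ K', (1 / 2 : ℝ) ^ (b * A.card) :=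
      Finset.sum_nonneg fun A _ => half_pow_nonneg_calc _
    have n : 0 ≤ ∑ A ∈ K, (1 / 2 : ℝ) ^ (b * A.card) :=
      Finset.sum_nonneg fun A _ => half_pow_nonneg_calc _
    exact mul_le_mul h2 h2' n' (n.trans h2)
  · intro D hD
    obtain ⟨A, hA, hAD⟩ := h3 D hD.1
    obtain ⟨A', hA', hAD'⟩ := h3' D hD.2
    exact ⟨A ∪ A', Finset.mem_image.2 ⟨(A, A'), Finset.mem_product.2 ⟨hA, hA'⟩, rfl⟩,
      Finset.union_subset hAD hAD'⟩

theorem killOn_exists {ι : Type} (s : Finset ι) {S : Finset V} {P : ι → Finset V → Prop}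
    {β : ι → ℝ} (h : ∀ i ∈ s, KillOn b S (P i) (β i)) :
    KillOn b S (fun D => ∃ i ∈ s, P i D) (∑ i ∈ s, β i) := by
  classical
  induction s using Finset.induction_on with
  | empty =>
    refine (killOn_false S 0 le_rfl).mono (Finset.Subset.refl _) ?_ (by simp)
    intro D hD
    obtain ⟨i, hi, _⟩ := hD
    exact absurd hi (Finset.notMem_empty i)
  | insert a s ha ih =>
    rw [Finset.sum_insert ha]
    refine (killOn_or (h a (Finset.mem_insert_self a s))
      (ih fun i hi => h i (Finset.mem_insert_of_mem hi))).mono (Finset.Subset.refl _) ?_ le_rfl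
    intro D hD
    obtain ⟨i, hi, hD⟩ := hD
    rcases Finset.mem_insert.1 hi with rfl | hi
    · exact Or.inl hD
    · exact Or.inr ⟨i, hi, hD⟩

theorem killOn_forall {ι : Type} [DecidableEq V] (s : Finset ι) {S : ι → Finset V}
    {P : ι → Finset V → Prop} {β : ι → ℝ} (hd : ∀ i ∈ s, ∀ j ∈ s, i ≠ j → Disjoint (S i) (S j))
    (h : ∀ i ∈ s, KillOn b (S i) (P i) (β i)) :
    KillOn b (s.biUnion S) (fun D => ∀ i ∈ s, P i D) (∏ i ∈ s, β i) := by
  classical
  induction s using Finset.induction_on with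
  | empty =>
    refine (killOn_subset (b := b) (∅ : Finset V)).mono (Finset.empty_subset _) ?_ (by simp)
    intro D _
    exact Finset.empty_subset D
  | insert a s ha ih =>
    rw [Finset.prod_insert ha, Finset.biUnion_insert]
    have hdis : Disjoint (S a) (s.biUnion S) := by
      rw [Finset.disjoint_biUnion_right]
      intro j hj
      refine hd a (Finset.mem_insert_self a s) j (Finset.mem_insert_of_mem hj) ?_
      rintro rfl
      exact ha hj
    refine (killOn_and hdis (h a (Finset.mem_insert_self a s))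
      (ih (fun i hi j hj hij => hd i (Finset.mem_insert_of_mem hi) j
        (Finset.mem_insert_of_mem hj) hij)
        fun i hi => h i (Finset.mem_insert_of_mem hi))).mono (Finset.Subset.refl _) ?_ le_rfl
    intro D hD
    exact ⟨hD a (Finset.mem_insert_self a s), fun i hi => hD i (Finset.mem_insert_of_mem hi)⟩

theorem killOn_map [Fintype V] [DecidableEq W] (f : V ↪ W) {S : Finset V} {P : Finset V → Prop}
    {β : ℝ} (h : KillOn b S P β) :
    KillOn b (S.map f) (fun D => P (Finset.univ.filter fun v => f v ∈ D)) β := by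
  classical
  obtain ⟨K, h1, h2, h3⟩ := h
  refine ⟨K.image (fun A => A.map f), ?_, ?_, ?_⟩
  · intro A hA
    obtain ⟨A', hA', rfl⟩ := Finset.mem_image.1 hA
    exact Finset.map_subset_map.2 (h1 A' hA')
  · refine (sum_image_le_calc K (fun A => A.map f) (fun A => (1 / 2 : ℝ) ^ (b * A.card))
      (fun A => half_pow_nonneg_calc _)).trans ?_
    simpa using h2
  · intro D hD
    obtain ⟨A, hA, hAD⟩ := h3 _ hD
    refine ⟨A.map f, Finset.mem_image.2 ⟨A, hA, rfl⟩, ?_⟩
    intro w hw
    obtain ⟨v, hv, rfl⟩ := Finset.mem_map.1 hw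
    have := hAD hv
    simpa using this

end FB7530
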