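import Mathlib
import Pool.Agent.Lib_MP_fb7530_co.KillCalc

/-! PIECE KILL: the kill sets of the step, with the calculus of `KillCalc.lean`. -/

namespace FB7530

open Finset

private def copyEmb {V W X : Type} (x : X) : V ↪ (X × V) ⊕ W :=
  ⟨fun v => Sum.inl (x, v), fun a b h => by
    have := Sum.inl_injective h
    exact (Prod.mk.inj this).2⟩

private theorem killOn_copy {V W X : Type} [Fintype V] [DecidableEq V] [Fintype W] [DecidableEq W]
    [Fintype X] [DecidableEq X] {b : ℕ} {β : ℝ} (P : Finset V → Prop)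
    (h : KillOn b univ P β) (x : X) :
    KillOn b ((univ : Finset V).map (copyEmb x)) (fun D : Finset ((X × V) ⊕ W) => P (slice D x))
      β := by
  refine (killOn_map (copyEmb (W := W) x) h).mono subset_rfl ?_ le_rfl
  intro D hD
  exact hD

/-- more than `t` bad copies -/
theorem step_kill1 {V W X : Type} [Fintype V] [DecidableEq V] [Fintype W] [DecidableEq W]
    [Fintype X] [DecidableEq X] {b t : ℕ} {β : ℝ} (P : Finset V → Prop)
    (h : KillOn b univ P β) (hβ : 0 ≤ β) :
    KillOn b univ (fun D : Finset ((X × V) ⊕ W) => ∃ M : Finset X, M.card = t + 1 ∧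
      ∀ x ∈ M, P (slice D x)) ((Fintype.card X * β) ^ (t + 1)) := by
  have hM : ∀ M ∈ powersetCard (t + 1) (univ : Finset X),
      KillOn b univ (fun D : Finset ((X × V) ⊕ W) => ∀ x ∈ M, P (slice D x)) (β ^ (t + 1)) := by
    intro M hM
    refine (killOn_forall M (S := fun x => (univ : Finset V).map (copyEmb (W := W) x))
      (P := fun x D => P (slice D x)) (β := fun _ => β) ?_ (fun x _ => killOn_copy P h x)).mono
      (subset_univ _) (fun D hD => hD) ?_
    · intro i _ j _ hij
      rw [disjoint_left]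
      intro z hz hz'
      obtain ⟨v, _, rfl⟩ := mem_map.1 hz
      obtain ⟨v', _, hv'⟩ := mem_map.1 hz'
      have := Sum.inl_injective hv'
      exact hij (Prod.mk.inj this).1.symm
    · rw [prod_const, (mem_powersetCard.1 hM).2]
  refine (killOn_exists (powersetCard (t + 1) (univ : Finset X)) hM).mono subset_rfl ?_ ?_
  · rintro D ⟨M, hM, hall⟩
    exact ⟨M, mem_powersetCard.2 ⟨subset_univ _, hM⟩, hall⟩
  · rw [sum_const, card_powersetCard, nsmul_eq_mul, mul_pow, card_univ]
    refine mul_le_mul_of_nonneg_right ?_ (by positivity)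
    exact_mod_cast Nat.choose_le_pow (Fintype.card X) (t + 1)

/-- a bad copy `x`, a unit `u` and a group `h` with fewer than `2t` free options -/
theorem step_kill2 {V U X Y : Type} [Fintype V] [DecidableEq V] [Fintype U] [DecidableEq U]
    [Fintype X] [DecidableEq X] [Fintype Y] [DecidableEq Y] {b d c g t : ℕ} {β : ℝ}
    (P : Finset V → Prop) (h : KillOn b univ P β) (hβ : 0 ≤ β) (hb : 1 ≤ b) (hd : 2 * t ≤ d)
    (G : Design (Opt U d) X Y g) :
    KillOn b univ (fun D : Finset (StepV V U X Y d c g) => ∃ x u h, P (slice D x) ∧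
      ¬ ∃ M : Finset (Fin d), 2 * t ≤ M.card ∧ ∀ i ∈ M, Free G D (u, (h, i)) x)
      (2 * Fintype.card X * Fintype.card U * β *
        (2 ^ d * (1 / 2 : ℝ) ^ ((b - 1) * (d + 1 - 2 * t)))) := by
  classical
  set ρ : X → U → Bool → Fin d → StepV V U X Y d c g := fun x u h i =>
    Sum.inr (((u, (h, i)), G.cls (u, (h, i)) x), Sum.inr (Sum.inl (G.row (u, (h, i)) x))) with hρ
  set κ : X → U → Bool → Fin d → StepV V U X Y d c g := fun x u h i =>
    Sum.inr (((u, (h, i)), G.cls (u, (h, i)) x), Sum.inr (Sum.inr (G.col (u, (h, i)) x))) with hκ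
  set E : ℝ := 2 ^ d * (1 / 2 : ℝ) ^ ((b - 1) * (d + 1 - 2 * t)) with hE
  have h2 : ∀ x u h, KillOn b (univ.biUnion fun i => {ρ x u h i, κ x u h i})
      (fun D => ∃ M ∈ powersetCard (d + 1 - 2 * t) (univ : Finset (Fin d)),
        ∀ i ∈ M, (ρ x u h i ∈ D ∨ κ x u h i ∈ D)) E := by
    intro x u h
    have h3 : ∀ M ∈ powersetCard (d + 1 - 2 * t) (univ : Finset (Fin d)),
        KillOn b (univ.biUnion fun i => {ρ x u h i, κ x u h i})
        (fun D => ∀ i ∈ M, (ρ x u h i ∈ D ∨ κ x u h i ∈ D))
        ((1 / 2 : ℝ) ^ ((b - 1) * (d + 1 - 2 * t))) := by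
      intro M hM
      have h4 : ∀ i ∈ M, KillOn b ({ρ x u h i, κ x u h i} : Finset (StepV V U X Y d c g))
          (fun D => (ρ x u h i ∈ D ∨ κ x u h i ∈ D)) ((1 / 2 : ℝ) ^ (b - 1)) := by
        intro i _
        have a1 := (killOn_subset (b := b) ({ρ x u h i} : Finset (StepV V U X Y d c g))).mono
          (S' := {ρ x u h i, κ x u h i}) (by simp) (P' := fun D => ρ x u h i ∈ D)
          (by intro D hD; simpa using hD) le_rfl
        have a2 := (killOn_subset (b := b) ({κ x u h i} : Finset (StepV V U X Y d c g))).mono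
          (S' := {ρ x u h i, κ x u h i}) (by simp) (P' := fun D => κ x u h i ∈ D)
          (by intro D hD; simpa using hD) le_rfl
        refine (killOn_or a1 a2).mono subset_rfl (fun D hD => hD) ?_
        obtain ⟨b', rfl⟩ : ∃ b', b = b' + 1 := ⟨b - 1, by omega⟩
        rw [card_singleton, card_singleton, mul_one, pow_succ, Nat.add_sub_cancel]
        linarith
      refine (killOn_forall M (S := fun i => {ρ x u h i, κ x u h i})
        (P := fun i D => (ρ x u h i ∈ D ∨ κ x u h i ∈ D)) (β := fun _ => (1 / 2 : ℝ) ^ (b - 1))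
        ?_ h4).mono (biUnion_subset_biUnion_of_subset_left _ (subset_univ _))
        (fun D hD => hD) ?_
      · intro i _ j _ hij
        rw [disjoint_left]
        intro z hz hz'
        have e1 : ∃ o y s, z = Sum.inr ((((u, (h, i)) : Opt U d), (o : Y)), s) ∧ y = i := by
          simp only [mem_insert, mem_singleton] at hz
          rcases hz with rfl | rfl
          · exact ⟨_, i, _, rfl, rfl⟩
          · exact ⟨_, i, _, rfl, rfl⟩
        have e2 : ∃ o y s, z = Sum.inr ((((u, (h, j)) : Opt U d), (o : Y)), s) ∧ y = j := by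
          simp only [mem_insert, mem_singleton] at hz'
          rcases hz' with rfl | rfl
          · exact ⟨_, j, _, rfl, rfl⟩
          · exact ⟨_, j, _, rfl, rfl⟩
        obtain ⟨o, _, s, ho, _⟩ := e1
        obtain ⟨o', _, s', ho', _⟩ := e2
        rw [ho] at ho'
        have h5 := (Prod.mk.inj (Prod.mk.inj (Sum.inr_injective ho')).1).1
        exact hij (Prod.mk.inj (Prod.mk.inj h5).2).2
      · rw [prod_const, (mem_powersetCard.1 hM).2, ← pow_mul]
    refine (killOn_exists _ h3).mono subset_rfl (fun D hD => hD) ?_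
    rw [sum_const, card_powersetCard, nsmul_eq_mul, card_univ, Fintype.card_fin, hE]
    refine mul_le_mul_of_nonneg_right ?_ (by positivity)
    exact_mod_cast Nat.choose_le_two_pow d (d + 1 - 2 * t)
  have h5 : ∀ z ∈ (univ : Finset (X × U × Bool)), KillOn b univ
      (fun D : Finset (StepV V U X Y d c g) => P (slice D z.1) ∧
        ∃ M ∈ powersetCard (d + 1 - 2 * t) (univ : Finset (Fin d)),
        ∀ i ∈ M, (ρ z.1 z.2.1 z.2.2 i ∈ D ∨ κ z.1 z.2.1 z.2.2 i ∈ D)) (β * E) := by
    intro z _
    refine (killOn_and ?_ (killOn_copy P h z.1) (h2 z.1 z.2.1 z.2.2)).mono (subset_univ _)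
      (fun D hD => hD) le_rfl
    rw [disjoint_left]
    intro y hy hy'
    obtain ⟨v, _, rfl⟩ := mem_map.1 hy
    obtain ⟨i, _, hi⟩ := mem_biUnion.1 hy'
    simp only [mem_insert, mem_singleton] at hi
    rcases hi with hi | hi
    · exact absurd hi (by simp [copyEmb, hρ])
    · exact absurd hi (by simp [copyEmb, hκ])
  refine (killOn_exists univ h5).mono subset_rfl ?_ ?_
  · rintro D ⟨x, u, h', hP, hM⟩
    refine ⟨(x, u, h'), mem_univ _, hP, ?_⟩
    classical
    set F : Finset (Fin d) := univ.filter fun i => Free G D (u, (h', i)) x with hF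
    have hF1 : F.card < 2 * t := by
      by_contra hcon
      push Not at hcon
      exact hM ⟨F, hcon, fun i hi => (mem_filter.1 hi).2⟩
    have hF2 : d + 1 - 2 * t ≤ Fᶜ.card := by
      rw [card_compl, Fintype.card_fin]
      omega
    obtain ⟨M, hMF, hMc⟩ := exists_subset_card_eq hF2
    refine ⟨M, mem_powersetCard.2 ⟨subset_univ _, hMc⟩, fun i hi => ?_⟩
    have h6 := mem_compl.1 (hMF hi)
    rw [hF, mem_filter] at h6
    simp only [mem_univ, true_and, Free, not_and_or, not_not] at h6
    exact h6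
  · rw [sum_const, nsmul_eq_mul, card_univ, Fintype.card_prod, Fintype.card_prod, Fintype.card_bool]
    push_cast
    apply le_of_eq
    ring

/-- a line with a dead half of its base clique -/
theorem step_kill3 {V U X Y : Type} [Fintype V] [DecidableEq V] [Fintype U] [DecidableEq U]
    [Fintype X] [DecidableEq X] [Fintype Y] [DecidableEq Y] {b d c g : ℕ} :
    KillOn b univ (fun D : Finset (StepV V U X Y d c g) => ¬ ∀ (l : Opt U d × Y) (h : Bool),
      ∃ i : Fin c, Sum.inr (l, Sum.inl (h, i)) ∉ D)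
      (2 * (Fintype.card U * (2 * d) * Fintype.card Y) * (1 / 2 : ℝ) ^ (b * c)) := by
  classical
  have h1 : ∀ z ∈ (univ : Finset ((Opt U d × Y) × Bool)), KillOn b univ
      (fun D : Finset (StepV V U X Y d c g) => ((univ : Finset (Fin c)).image fun i =>
        (Sum.inr (z.1, Sum.inl (z.2, i)) : StepV V U X Y d c g)) ⊆ D) ((1 / 2 : ℝ) ^ (b * c)) := by
    intro z _
    refine (killOn_subset _).mono (subset_univ _) (fun D hD => hD) ?_
    rw [card_image_of_injective, card_univ, Fintype.card_fin]
    intro i j hij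
    have h2 := (Prod.mk.inj (Sum.inr_injective hij)).2
    exact (Prod.mk.inj (Sum.inl_injective h2)).2
  refine (killOn_exists univ h1).mono subset_rfl ?_ ?_
  · intro D hD
    push Not at hD
    obtain ⟨l, h, hall⟩ := hD
    refine ⟨(l, h), mem_univ _, ?_⟩
    intro y hy
    obtain ⟨i, _, rfl⟩ := mem_image.1 hy
    exact hall i
  · rw [sum_const, nsmul_eq_mul, card_univ, Fintype.card_prod, Fintype.card_prod,
      Fintype.card_prod, Fintype.card_prod, Fintype.card_bool, Fintype.card_fin]
    push_cast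
    apply le_of_eq
    ring

end FB7530
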