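import Mathlib
import Pool.Agent.Lib_MP_fb7530_co.Sys

/-! PIECE CHOICE: the choice of the covering lines of the bad copies.

`B` = the set of the bad copies.  For `x ∈ B` and a unit `u` (in each group `h`) at most
`2 (|B| - 1)` options are in some `Z x x'`, `x' ∈ B`, `x' ≠ x`; if the touch is a unit `(x₀,u₀)` of a
good copy then at most one option has `cls o x = cls o x₀` (`G.same`); if the touch is a line `(o₀,y₀)`
then one option is `o₀`.  So one of the `2t` free options is left. If the touch is `((x₀,u₀),h)` with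
`x₀ ∈ B`, take the group `!h` for `(x₀,u₀)`. -/

namespace FB7530

/-- The touch as seen by the choice. -/
theorem step_choice {U X Y : Type} [Fintype U] [DecidableEq U]
    [Fintype X] [DecidableEq X] [Fintype Y] [DecidableEq Y] {d g t : ℕ}
    (G : Design (Opt U d) X Y g) (B : Finset X) (F : Opt U d → X → Prop) (hB : B.card ≤ t)
    (hd0 : 0 < d)
    (hF : ∀ x ∈ B, ∀ u h, ∃ M : Finset (Fin d), 2 * t ≤ M.card ∧ ∀ i ∈ M, F (u, (h, i)) x)
    (τ : Option (StepU U X Y d × Bool)) :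
    ∃ L : X → U → Bool × Fin d,
      (∀ x ∈ B, ∀ u, F (u, L x u) x) ∧
      (∀ x ∈ B, ∀ x' ∈ B, x ≠ x' → ∀ u u' y, G.cls (u, L x u) x = G.cls (u, L x u) y →
        G.cls (u', L x' u') x' = G.cls (u', L x' u') y → False) ∧
      (∀ x₀ u₀ h, τ = some (Sum.inl (x₀, u₀), h) → x₀ ∉ B → ∀ x ∈ B, ∀ u,
        G.cls (u, L x u) x ≠ G.cls (u, L x u) x₀) ∧
      (∀ x₀ u₀ h, τ = some (Sum.inl (x₀, u₀), h) → x₀ ∈ B → (L x₀ u₀).1 ≠ h) ∧
      (∀ o₀ y₀ h, τ = some (Sum.inr (o₀, y₀), h) → ∀ x ∈ B, ∀ u, (u, L x u) ≠ o₀) := by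
  classical
  have key : ∀ x u, ∃ a : Bool × Fin d, x ∈ B → F (u, a) x ∧
      (∀ x' ∈ B, x' ≠ x → (u, a) ∉ G.Z x x') ∧
      (∀ x₀ u₀ h, τ = some (Sum.inl (x₀, u₀), h) → x₀ ∉ B →
        G.cls (u, a) x ≠ G.cls (u, a) x₀) ∧
      (∀ x₀ u₀ h, τ = some (Sum.inl (x₀, u₀), h) → x₀ = x → u₀ = u → a.1 ≠ h) ∧
      (∀ o₀ y₀ h, τ = some (Sum.inr (o₀, y₀), h) → (u, a) ≠ o₀) := by
    intro x u
    by_cases hx : x ∈ B
    swap
    · exact ⟨(false, ⟨0, hd0⟩), fun h => absurd h hx⟩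
    obtain ⟨h, hh⟩ : ∃ h : Bool, ∀ x₀ u₀ h', τ = some (Sum.inl (x₀, u₀), h') → x₀ = x →
        u₀ = u → h ≠ h' := by
      by_cases hτ : ∃ h', τ = some (Sum.inl (x, u), h')
      · obtain ⟨h', hτ⟩ := hτ
        refine ⟨!h', ?_⟩
        rintro x₀ u₀ h'' h1 rfl rfl
        rw [hτ] at h1
        have h2 := (Prod.mk.inj (Option.some.inj h1)).2
        rw [← h2]
        exact Bool.not_ne_self h'
      · refine ⟨false, ?_⟩
        rintro x₀ u₀ h'' h1 rfl rfl
        exact absurd ⟨h'', h1⟩ hτ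
    obtain ⟨M, hM, hMF⟩ := hF x hx u h
    obtain ⟨Bd1, hBd1⟩ : ∃ Bd1 : Finset (Fin d), Bd1 = (B.erase x).biUnion fun x' =>
      Finset.univ.filter fun i => (u, (h, i)) ∈ G.Z x x' := ⟨_, rfl⟩
    have hc1 : Bd1.card ≤ 2 * (t - 1) := by
      have h1 : Bd1.card ≤ (B.erase x).card * 2 := by
        rw [hBd1]
        refine Finset.card_biUnion_le_card_mul _ _ _ fun x' hx' => ?_
        have hne : x ≠ x' := (Finset.ne_of_mem_erase hx').symm
        refine le_trans ?_ (G.Z_card x x' hne)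
        refine Finset.card_le_card_of_injOn (fun i => (u, (h, i))) ?_ ?_
        · intro i hi
          exact (Finset.mem_filter.1 hi).2
        · intro i _ j _ hij
          exact (Prod.mk.inj (Prod.mk.inj hij).2).2
      have h2 : (B.erase x).card = B.card - 1 := Finset.card_erase_of_mem hx
      omega
    have ht : 1 ≤ t := le_trans (Finset.card_pos.2 ⟨x, hx⟩) hB
    obtain ⟨Bd2, hc2, hB2⟩ : ∃ Bd2 : Finset (Fin d), Bd2.card ≤ 1 ∧ ∀ i ∉ Bd2,
        (∀ x₀ u₀ h', τ = some (Sum.inl (x₀, u₀), h') → x₀ ∉ B →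
          G.cls (u, (h, i)) x ≠ G.cls (u, (h, i)) x₀) ∧
        (∀ o₀ y₀ h', τ = some (Sum.inr (o₀, y₀), h') → (u, (h, i)) ≠ o₀) := by
      rcases τ with _ | ⟨⟨x₀, u₀⟩ | ⟨o₀, y₀⟩, h'⟩
      · exact ⟨∅, by simp, fun i _ => ⟨fun _ _ _ e => by simp at e, fun _ _ _ e => by simp at e⟩⟩
      · by_cases hx0 : x₀ ∈ B
        · refine ⟨∅, by simp, fun i _ => ⟨?_, fun _ _ _ e => by simp at e⟩⟩
          intro x₁ u₁ h₁ e hx1
          simp only [Option.some.injEq, Prod.mk.injEq, Sum.inl.injEq] at e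
          rw [← e.1.1] at hx1
          exact absurd hx0 hx1
        · refine ⟨Finset.univ.filter fun i => G.cls (u, (h, i)) x = G.cls (u, (h, i)) x₀, ?_,
            fun i hi => ⟨?_, fun _ _ _ e => by simp at e⟩⟩
          · rw [Finset.card_le_one]
            intro i hi j hj
            by_contra hij
            have h1 := G.same (u, (h, i)) (u, (h, j)) x x₀
              (fun e => hij (Prod.mk.inj (Prod.mk.inj e).2).2)
              (Finset.mem_filter.1 hi).2 (Finset.mem_filter.1 hj).2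
            exact hx0 (h1 ▸ hx)
          · intro x₁ u₁ h₁ e _ hcls
            simp only [Option.some.injEq, Prod.mk.injEq, Sum.inl.injEq] at e
            rw [← e.1.1] at hcls
            exact hi (Finset.mem_filter.2 ⟨Finset.mem_univ _, hcls⟩)
      · refine ⟨Finset.univ.filter fun i => (u, (h, i)) = o₀, ?_,
            fun i hi => ⟨fun _ _ _ e => by simp at e, ?_⟩⟩
        · rw [Finset.card_le_one]
          intro i hi j hj
          have h1 := (Finset.mem_filter.1 hi).2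
          have h2 := (Finset.mem_filter.1 hj).2
          rw [← h2] at h1
          exact (Prod.mk.inj (Prod.mk.inj h1).2).2
        · intro o₁ y₁ h₁ e ho
          simp only [Option.some.injEq, Prod.mk.injEq, Sum.inr.injEq] at e
          rw [← e.1.1] at ho
          exact hi (Finset.mem_filter.2 ⟨Finset.mem_univ _, ho⟩)
    obtain ⟨i, hiM, hi⟩ : ∃ i ∈ M, i ∉ Bd1 ∪ Bd2 := by
      by_contra hcon
      push Not at hcon
      have h1 := Finset.card_le_card hcon
      have h2 := Finset.card_union_le Bd1 Bd2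
      omega
    rw [Finset.mem_union, not_or] at hi
    refine ⟨(h, i), fun _ => ⟨hMF i hiM, ?_, ?_, ?_, ?_⟩⟩
    · intro x' hx' hne hZ
      apply hi.1
      rw [hBd1]
      exact Finset.mem_biUnion.2 ⟨x', Finset.mem_erase.2 ⟨hne, hx'⟩,
        Finset.mem_filter.2 ⟨Finset.mem_univ _, hZ⟩⟩
    · exact (hB2 i hi.2).1
    · intro x₀ u₀ h' e1 e2 e3
      exact hh x₀ u₀ h' e1 e2 e3
    · exact (hB2 i hi.2).2
  choose L hL using key
  refine ⟨L, fun x hx u => (hL x u hx).1, ?_, ?_, ?_, ?_⟩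
  · intro x hx x' hx' hne u u' y h1 h2
    refine G.block x x' (u, L x u) (u', L x' u') y hne ?_ ?_ h1 h2
    · exact (hL x u hx).2.1 x' hx' hne.symm
    · rw [G.Z_symm]
      exact (hL x' u' hx').2.1 x hx hne
  · intro x₀ u₀ h e hx0 x hx u
    exact (hL x u hx).2.2.1 x₀ u₀ h e hx0
  · intro x₀ u₀ h e hx0
    exact (hL x₀ u₀ hx0).2.2.2.1 x₀ u₀ h e rfl rfl
  · intro o₀ y₀ h e x hx u
    exact (hL x u hx).2.2.2.2 o₀ y₀ h e

end FB7530
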