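import Mathlib
import Pool.Agent.Lib_MP_fb7530_co.StepChoice

/-! PIECE ROBUST: the deterministic robustness of the step.

`B` = the bad copies (`¬ Alive R T (slice D x)`), `L` from `step_choice` (with `F o x = Free G D o x`).
Line `l = (o,y)` is CHOSEN if there is `x ∈ B` with `o = (u, L x u)`, `y = cls o x`; then `x` is unique.
The independent set: for a chosen line the row cell `row o x` and the column cell `col o x`; for an
unchosen line one base cell not in `D`, in the half `!h` if the touch is `(inr l, h)` (any half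
otherwise); nothing in the copies `x ∈ B`; in a copy `x ∉ B` the set given by `Alive R T (slice D x)` for
the touch: if a chosen line passes through `x` (there is at most one: (ii) and `G.same`), chosen for
`x' ∈ B`, with unit `u`: `(u,false)` if `x` is in the row of `x'`, `(u,true)` if `x` is in the column of `x'`
(not both by `G.inj`), none otherwise; if no chosen line passes through `x` and the outer touch is
`((x,u₀),h)`: `(u₀,h)`; none otherwise.
Count: `(|X|-|B|) |U| + |Λ| + |B| |U|`. -/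

namespace FB7530

theorem mem_slice_robust {V W X : Type} [Fintype V] [DecidableEq V] [DecidableEq X] [DecidableEq W]
    (D : Finset ((X × V) ⊕ W)) (x : X) (v : V) : v ∈ slice D x ↔ Sum.inl (x, v) ∈ D := by
  simp [slice]

/-- The construction for a given choice `L`. -/
theorem step_build {V U X Y : Type} [Fintype V] [DecidableEq V] [Fintype U] [DecidableEq U]
    [Fintype X] [DecidableEq X] [Fintype Y] [DecidableEq Y] {d c g : ℕ} {R : V → V → Prop}
    {T : U → Bool → V → Prop} (G : Design (Opt U d) X Y g)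
    (D : Finset (StepV V U X Y d c g)) (B : Finset X)
    (hgood : ∀ x, x ∉ B → Alive R T (slice D x))
    (h3 : ∀ (l : Opt U d × Y) (h : Bool), ∃ i : Fin c, Sum.inr (l, Sum.inl (h, i)) ∉ D)
    (τ : Option (StepU U X Y d × Bool)) (L : X → U → Bool × Fin d)
    (hL1 : ∀ x ∈ B, ∀ u, Free G D (u, L x u) x)
    (hL2 : ∀ x ∈ B, ∀ x' ∈ B, x ≠ x' → ∀ u u' y, G.cls (u, L x u) x = G.cls (u, L x u) y →
        G.cls (u', L x' u') x' = G.cls (u', L x' u') y → False)
    (hL3 : ∀ x₀ u₀ h, τ = some (Sum.inl (x₀, u₀), h) → x₀ ∉ B → ∀ x ∈ B, ∀ u,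
        G.cls (u, L x u) x ≠ G.cls (u, L x u) x₀)
    (hL4 : ∀ x₀ u₀ h, τ = some (Sum.inl (x₀, u₀), h) → x₀ ∈ B → (L x₀ u₀).1 ≠ h)
    (hL5 : ∀ o₀ y₀ h, τ = some (Sum.inr (o₀, y₀), h) → ∀ x ∈ B, ∀ u, (u, L x u) ≠ o₀) :
    ∃ I : Finset (StepV V U X Y d c g), Indep (stepR R T G) I ∧
      I.card = Fintype.card (StepU U X Y d) ∧ Disjoint I D ∧
      ∀ u h, τ = some (u, h) → Avoids (stepT T G) u h I := by
  classical
  -- chosen lines
  obtain ⟨Ch, hCh⟩ : ∃ Ch : Opt U d × Y → X → Prop, ∀ l x, Ch l x ↔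
      (x ∈ B ∧ l.1.2 = L x l.1.1 ∧ l.2 = G.cls l.1 x) := ⟨_, fun _ _ => Iff.rfl⟩
  have hopt : ∀ (o : Opt U d) x, o.2 = L x o.1 → (o.1, L x o.1) = o := by
    rintro ⟨u, a⟩ x h
    simp only at h ⊢
    rw [h]
  have hmeet : ∀ (l l' : Opt U d × Y) x x' z, Ch l x → Ch l' x' → l.2 = G.cls l.1 z →
      l'.2 = G.cls l'.1 z → x = x' := by
    intro l l' x x' z h h' hz hz'
    by_contra hne
    rw [hCh] at h h'
    refine hL2 x h.1 x' h'.1 hne l.1.1 l'.1.1 z ?_ ?_
    · rw [hopt _ _ h.2.1, ← h.2.2, hz]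
    · rw [hopt _ _ h'.2.1, ← h'.2.2, hz']
  have huniq : ∀ (l : Opt U d × Y) x x', Ch l x → Ch l x' → x = x' := by
    intro l x x' h h'
    exact hmeet l l x x' x h h' ((hCh _ _).1 h).2.2 ((hCh _ _).1 h).2.2
  have hpass : ∀ (l l' : Opt U d × Y) x x' z, z ∉ B → Ch l x → Ch l' x' → l.2 = G.cls l.1 z →
      l'.2 = G.cls l'.1 z → l = l' ∧ x = x' := by
    intro l l' x x' z hzB h h' hz hz'
    have hxx := hmeet l l' x x' z h h' hz hz'
    subst hxx
    refine ⟨?_, rfl⟩
    rw [hCh] at h h'
    by_cases ho : l.1 = l'.1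
    · refine Prod.ext ho ?_
      rw [hz, hz', ho]
    · exfalso
      have := G.same l.1 l'.1 x z ho (by rw [← h.2.2, hz]) (by rw [← h'.2.2, hz'])
      exact hzB (this ▸ h.1)
  -- the cells
  have hC0 : ∀ l : Opt U d × Y, ∃ S : Finset (Cell c g),
      (∃ x, Ch l x ∧ S = {Sum.inr (Sum.inl (G.row l.1 x)), Sum.inr (Sum.inr (G.col l.1 x))}) ∨
      ((∀ x, ¬ Ch l x) ∧ ∃ h i, S = {Sum.inl (h, i)} ∧ Sum.inr (l, Sum.inl (h, i)) ∉ D ∧
        ∀ h', τ = some (Sum.inr l, h') → h ≠ h') := by
    intro l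
    by_cases hc : ∃ x, Ch l x
    · obtain ⟨x, hx⟩ := hc
      exact ⟨_, Or.inl ⟨x, hx, rfl⟩⟩
    · push Not at hc
      by_cases ht : ∃ h, τ = some (Sum.inr l, h)
      · obtain ⟨h, hh⟩ := ht
        obtain ⟨i, hi⟩ := h3 l (!h)
        refine ⟨_, Or.inr ⟨hc, !h, i, rfl, hi, ?_⟩⟩
        intro h' hh'
        rw [hh] at hh'
        have h1 : h = h' := by
          injection hh' with h2
          exact (Prod.ext_iff.1 h2).2
        rw [← h1]
        exact Bool.not_ne_self h
      · obtain ⟨i, hi⟩ := h3 l false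
        refine ⟨_, Or.inr ⟨hc, false, i, rfl, hi, ?_⟩⟩
        intro h' hh'
        exact absurd ⟨h', hh'⟩ ht
  choose C hC using hC0
  -- the copies
  have hJ0 : ∀ x : X, ∃ S : Finset V, (x ∈ B ∧ S = ∅) ∨ (x ∉ B ∧ Indep R S ∧
      S.card = Fintype.card U ∧ Disjoint S (slice D x) ∧
      (∀ l x', Ch l x' → l.2 = G.cls l.1 x → G.row l.1 x' = G.row l.1 x →
        Avoids T l.1.1 false S) ∧
      (∀ l x', Ch l x' → l.2 = G.cls l.1 x → G.col l.1 x' = G.col l.1 x →
        Avoids T l.1.1 true S) ∧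
      (∀ u h, τ = some (Sum.inl (x, u), h) → Avoids T u h S)) := by
    intro x
    by_cases hx : x ∈ B
    · exact ⟨∅, Or.inl ⟨hx, rfl⟩⟩
    by_cases hp : ∃ l x', Ch l x' ∧ l.2 = G.cls l.1 x
    · obtain ⟨l, x', hl, hlx⟩ := hp
      have hl' := (hCh _ _).1 hl
      have hcls : G.cls l.1 x' = G.cls l.1 x := by rw [← hl'.2.2, hlx]
      have hnt : ∀ u h, τ ≠ some (Sum.inl (x, u), h) := by
        intro u h ht
        refine hL3 x u h ht hx x' hl'.1 l.1.1 ?_
        rw [hopt _ _ hl'.2.1, hcls]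
      by_cases hr : G.row l.1 x' = G.row l.1 x
      · obtain ⟨S, hS1, hS2, hS3, hS4⟩ := hgood x hx (some (l.1.1, false))
        refine ⟨S, Or.inr ⟨hx, hS1, hS2, hS3, ?_, ?_, ?_⟩⟩
        · intro l2 x2 h2 h2x _
          obtain ⟨e1, e2⟩ := hpass l2 l x2 x' x hx h2 hl h2x hlx
          subst e1
          exact hS4 _ _ rfl
        · intro l2 x2 h2 h2x hcol
          obtain ⟨e1, e2⟩ := hpass l2 l x2 x' x hx h2 hl h2x hlx
          subst e1
          subst e2
          exact absurd (G.inj _ _ _ hcls hr hcol ▸ hl'.1) hx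
        · intro u h ht
          exact absurd ht (hnt u h)
      · by_cases hcl : G.col l.1 x' = G.col l.1 x
        · obtain ⟨S, hS1, hS2, hS3, hS4⟩ := hgood x hx (some (l.1.1, true))
          refine ⟨S, Or.inr ⟨hx, hS1, hS2, hS3, ?_, ?_, ?_⟩⟩
          · intro l2 x2 h2 h2x hrow
            obtain ⟨e1, e2⟩ := hpass l2 l x2 x' x hx h2 hl h2x hlx
            subst e1
            subst e2
            exact absurd hrow hr
          · intro l2 x2 h2 h2x hcol
            obtain ⟨e1, e2⟩ := hpass l2 l x2 x' x hx h2 hl h2x hlx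
            subst e1
            exact hS4 _ _ rfl
          · intro u h ht
            exact absurd ht (hnt u h)
        · obtain ⟨S, hS1, hS2, hS3, hS4⟩ := hgood x hx none
          refine ⟨S, Or.inr ⟨hx, hS1, hS2, hS3, ?_, ?_, ?_⟩⟩
          · intro l2 x2 h2 h2x hrow
            obtain ⟨e1, e2⟩ := hpass l2 l x2 x' x hx h2 hl h2x hlx
            subst e1
            subst e2
            exact absurd hrow hr
          · intro l2 x2 h2 h2x hcol
            obtain ⟨e1, e2⟩ := hpass l2 l x2 x' x hx h2 hl h2x hlx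
            subst e1
            subst e2
            exact absurd hcol hcl
          · intro u h ht
            exact absurd ht (hnt u h)
    · push Not at hp
      by_cases ht : ∃ u h, τ = some (Sum.inl (x, u), h)
      · obtain ⟨u, h, ht⟩ := ht
        obtain ⟨S, hS1, hS2, hS3, hS4⟩ := hgood x hx (some (u, h))
        refine ⟨S, Or.inr ⟨hx, hS1, hS2, hS3, ?_, ?_, ?_⟩⟩
        · intro l2 x2 h2 h2x _
          exact absurd h2x (hp l2 x2 h2)
        · intro l2 x2 h2 h2x _
          exact absurd h2x (hp l2 x2 h2)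
        · intro u' h' ht'
          rw [ht] at ht'
          injection ht' with h1
          have h2 := (Prod.ext_iff.1 h1).1
          have h3' := (Prod.ext_iff.1 h1).2
          simp only [Sum.inl.injEq, Prod.mk.injEq, true_and] at h2
          simp only at h3'
          subst h2
          subst h3'
          exact hS4 _ _ rfl
      · obtain ⟨S, hS1, hS2, hS3, hS4⟩ := hgood x hx none
        refine ⟨S, Or.inr ⟨hx, hS1, hS2, hS3, ?_, ?_, ?_⟩⟩
        · intro l2 x2 h2 h2x _
          exact absurd h2x (hp l2 x2 h2)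
        · intro l2 x2 h2 h2x _
          exact absurd h2x (hp l2 x2 h2)
        · intro u' h' ht'
          exact absurd ⟨u', h', ht'⟩ ht
  choose J hJ using hJ0
  -- elementary facts on the cells
  have hrow : ∀ l a, Sum.inr (Sum.inl a) ∈ C l → ∃ x, Ch l x ∧ a = G.row l.1 x := by
    intro l a ha
    rcases hC l with ⟨x, hx, hS⟩ | ⟨_, h, i, hS, _, _⟩
    · rw [hS] at ha
      simp only [Finset.mem_insert, Finset.mem_singleton, Sum.inr.injEq, Sum.inl.injEq,
        reduceCtorEq, or_false] at ha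
      exact ⟨x, hx, ha⟩
    · rw [hS] at ha
      simp at ha
  have hcol : ∀ l a, Sum.inr (Sum.inr a) ∈ C l → ∃ x, Ch l x ∧ a = G.col l.1 x := by
    intro l a ha
    rcases hC l with ⟨x, hx, hS⟩ | ⟨_, h, i, hS, _, _⟩
    · rw [hS] at ha
      simp only [Finset.mem_insert, Finset.mem_singleton, Sum.inr.injEq,
        reduceCtorEq, false_or] at ha
      exact ⟨x, hx, ha⟩
    · rw [hS] at ha
      simp at ha
  have hbase : ∀ l z, Sum.inl z ∈ C l → C l = {Sum.inl z} ∧ Sum.inr (l, Sum.inl z) ∉ D ∧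
      ∀ h', τ = some (Sum.inr l, h') → z.1 ≠ h' := by
    intro l z hz
    rcases hC l with ⟨x, hx, hS⟩ | ⟨_, h, i, hS, hD, ht⟩
    · rw [hS] at hz
      simp at hz
    · rw [hS] at hz
      simp only [Finset.mem_singleton, Sum.inl.injEq] at hz
      subst hz
      exact ⟨hS, hD, ht⟩
  have hJmem : ∀ x v, v ∈ J x → x ∉ B ∧ Indep R (J x) ∧
      (J x).card = Fintype.card U ∧ Disjoint (J x) (slice D x) ∧
      (∀ l x', Ch l x' → l.2 = G.cls l.1 x → G.row l.1 x' = G.row l.1 x →
        Avoids T l.1.1 false (J x)) ∧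
      (∀ l x', Ch l x' → l.2 = G.cls l.1 x → G.col l.1 x' = G.col l.1 x →
        Avoids T l.1.1 true (J x)) ∧
      (∀ u h, τ = some (Sum.inl (x, u), h) → Avoids T u h (J x)) := by
    intro x v hv
    rcases hJ x with ⟨_, h0⟩ | h
    · rw [h0] at hv
      simp at hv
    · exact h
  set I : Finset (StepV V U X Y d c g) :=
    (Finset.univ.filter fun z : X × V => z.2 ∈ J z.1).disjSum
      (Finset.univ.filter fun z : (Opt U d × Y) × Cell c g => z.2 ∈ C z.1) with hI
  have memL : ∀ x v, (Sum.inl (x, v) : StepV V U X Y d c g) ∈ I ↔ v ∈ J x := by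
    intro x v
    rw [hI, Finset.inl_mem_disjSum]
    simp
  have memR : ∀ l s, (Sum.inr (l, s) : StepV V U X Y d c g) ∈ I ↔ s ∈ C l := by
    intro l s
    rw [hI, Finset.inr_mem_disjSum]
    simp
  refine ⟨I, ?_, ?_, ?_, ?_⟩
  · -- independence
    rintro (⟨x, v⟩ | ⟨⟨o, y⟩, ((⟨b, i⟩ | (a | a)))⟩) hz (⟨x', v'⟩ | ⟨⟨o', y'⟩, ((⟨b', i'⟩ | (a' | a')))⟩)
      hz' hne hR
    · -- copy, copy
      rw [memL] at hz hz'
      obtain ⟨hxx, hvv⟩ : x = x' ∧ R v v' := hR
      subst hxx
      exact (hJmem x v hz).2.1 v hz v' hz' (fun e => hne (by rw [e])) hvv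
    · exact hR
    · -- copy, row
      rw [memL] at hz
      rw [memR] at hz'
      obtain ⟨h1, h2, h4⟩ : G.cls o' x = y' ∧ G.row o' x = a' ∧ T o'.1 false v := hR
      obtain ⟨x1, hx1, ha1⟩ := hrow _ _ hz'
      exact (hJmem x v hz).2.2.2.2.1 (o', y') x1 hx1 h1.symm (by rw [← ha1, h2]) v hz h4
    · -- copy, column
      rw [memL] at hz
      rw [memR] at hz'
      obtain ⟨h1, h2, h4⟩ : G.cls o' x = y' ∧ G.col o' x = a' ∧ T o'.1 true v := hR
      obtain ⟨x1, hx1, ha1⟩ := hcol _ _ hz'
      exact (hJmem x v hz).2.2.2.2.2.1 (o', y') x1 hx1 h1.symm (by rw [← ha1, h2]) v hz h4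
    · exact hR
    · -- base, base
      rw [memR] at hz hz'
      have hll : (o, y) = (o', y') := hR
      rw [← hll] at hz'
      have h1 := (hbase _ _ hz).1
      rw [h1, Finset.mem_singleton] at hz'
      apply hne
      rw [← hll, hz']
    · -- base, row
      rw [memR] at hz hz'
      have hll : (o, y) = (o', y') := hR
      rw [← hll] at hz'
      have h1 := (hbase _ _ hz).1
      rw [h1, Finset.mem_singleton] at hz'
      simp at hz'
    · -- base, column
      rw [memR] at hz hz'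
      have hll : (o, y) = (o', y') := hR
      rw [← hll] at hz'
      have h1 := (hbase _ _ hz).1
      rw [h1, Finset.mem_singleton] at hz'
      simp at hz'
    · exact hR
    · exact hR
    · -- row, row
      rw [memR] at hz hz'
      obtain ⟨x1, hx1, ha1⟩ := hrow _ _ hz
      obtain ⟨x2, hx2, ha2⟩ := hrow _ _ hz'
      have key : x1 = x2 → (o, y) ≠ (o', y') := by
        intro h1 h2
        obtain ⟨h3', h4⟩ := Prod.mk.inj h2
        subst h3'
        subst h4
        subst h1
        exact hne (by rw [ha1, ha2])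
      rcases hR with ⟨h1, h2⟩ | ⟨h1, x, h2, _, h4, _⟩
      · subst h1
        subst h2
        exact key (huniq _ _ _ hx1 hx2) rfl
      · have hxx := hmeet (o, y) (o', y') x1 x2 x hx1 hx2 h2.symm h4.symm
        refine key hxx ?_
        subst hxx
        have g1 := (hCh _ _).1 hx1
        have g2 := (hCh _ _).1 hx2
        have e1 : o = o' := by
          have q1 : o.2 = L x1 o.1 := g1.2.1
          have q2 : o'.2 = L x1 o'.1 := g2.2.1
          have q3 : (o.1, L x1 o.1) = (o'.1, L x1 o'.1) := by rw [h1]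
          rwa [hopt _ _ q1, hopt _ _ q2] at q3
        rw [Prod.mk.injEq]
        refine ⟨e1, ?_⟩
        have g3 : y = G.cls o x1 := g1.2.2
        have g4 : y' = G.cls o' x1 := g2.2.2
        rw [g3, g4, e1]
    · -- row, column
      rw [memR] at hz hz'
      obtain ⟨h1, h2, h4⟩ : o = o' ∧ y = y' ∧
        ¬ ∃ x, G.cls o x = y ∧ G.row o x = a ∧ G.col o x = a' := hR
      subst h1
      subst h2
      obtain ⟨x1, hx1, ha1⟩ := hrow _ _ hz
      obtain ⟨x2, hx2, ha2⟩ := hcol _ _ hz'
      have hxx := huniq _ _ _ hx1 hx2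
      subst hxx
      exact h4 ⟨x1, (((hCh _ _).1 hx1).2.2).symm, ha1.symm, ha2.symm⟩
    · exact hR
    · exact hR
    · exact hR
    · -- column, column
      rw [memR] at hz hz'
      have hll : (o, y) = (o', y') := hR
      obtain ⟨h1, h2⟩ := Prod.mk.inj hll
      subst h1
      subst h2
      obtain ⟨x1, hx1, ha1⟩ := hcol _ _ hz
      obtain ⟨x2, hx2, ha2⟩ := hcol _ _ hz'
      have hxx := huniq _ _ _ hx1 hx2
      subst hxx
      exact hne (by rw [ha1, ha2])
  · -- cardinality
    have hcardL : (Finset.univ.filter fun z : X × V => z.2 ∈ J z.1).card + B.card * Fintype.card U =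
        Fintype.card X * Fintype.card U := by
      have h1 : (Finset.univ.filter fun z : X × V => z.2 ∈ J z.1).card = ∑ x, (J x).card := by
        rw [Finset.card_filter, Fintype.sum_prod_type]
        refine Finset.sum_congr rfl fun x _ => ?_
        rw [← Finset.card_filter]
        congr 1
        ext v
        simp
      have h2 : ∀ x, (J x).card = if x ∈ B then 0 else Fintype.card U := by
        intro x
        rcases hJ x with ⟨h0, h0'⟩ | h
        · rw [h0', if_pos h0, Finset.card_empty]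
        · rw [if_neg h.1, h.2.2.1]
      rw [h1, Finset.sum_congr rfl fun x _ => h2 x, Finset.sum_ite, Finset.sum_const_zero, zero_add,
        Finset.sum_const, smul_eq_mul, ← Nat.add_mul]
      congr 1
      have h3' : (Finset.univ.filter fun x => x ∉ B) = Bᶜ := by
        ext x
        simp
      rw [h3', Finset.card_compl]
      have h4 := B.card_le_univ
      omega
    have hcardR : (Finset.univ.filter fun z : (Opt U d × Y) × Cell c g => z.2 ∈ C z.1).card =
        Fintype.card (Opt U d × Y) + B.card * Fintype.card U := by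
      have h1 : (Finset.univ.filter fun z : (Opt U d × Y) × Cell c g => z.2 ∈ C z.1).card =
          ∑ l, (C l).card := by
        rw [Finset.card_filter, Fintype.sum_prod_type]
        refine Finset.sum_congr rfl fun x _ => ?_
        rw [← Finset.card_filter]
        congr 1
        ext v
        simp
      have h2 : ∀ l, (C l).card = 1 + if ∃ x, Ch l x then 1 else 0 := by
        intro l
        rcases hC l with ⟨x, hx, hS⟩ | ⟨h0, h, i, hS, _, _⟩
        · rw [hS, if_pos ⟨x, hx⟩, Finset.card_pair (by simp)]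
        · rw [hS, Finset.card_singleton, if_neg]
          rintro ⟨x, hx⟩
          exact h0 x hx
      rw [h1, Finset.sum_congr rfl fun x _ => h2 x, Finset.sum_add_distrib, Finset.sum_const,
        smul_eq_mul, mul_one, Finset.card_univ, ← Finset.card_filter]
      congr 1
      have h3' : B.card * Fintype.card U = (B ×ˢ (Finset.univ : Finset U)).card := by
        rw [Finset.card_product, Finset.card_univ]
      rw [h3']
      symm
      refine Finset.card_bij (fun z _ => ((z.2, L z.1 z.2), G.cls (z.2, L z.1 z.2) z.1)) ?_ ?_ ?_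
      · rintro ⟨x, u⟩ hz
        rw [Finset.mem_product] at hz
        rw [Finset.mem_filter]
        exact ⟨Finset.mem_univ _, x, (hCh _ _).2 ⟨hz.1, rfl, rfl⟩⟩
      · rintro ⟨x, u⟩ hz ⟨x', u'⟩ hz' he
        rw [Finset.mem_product] at hz hz'
        have g1 : Ch ((u, L x u), G.cls (u, L x u) x) x := (hCh _ _).2 ⟨hz.1, rfl, rfl⟩
        have g2 : Ch ((u', L x' u'), G.cls (u', L x' u') x') x' := (hCh _ _).2 ⟨hz'.1, rfl, rfl⟩
        simp only at he
        rw [← he] at g2
        have h5 := huniq _ _ _ g1 g2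
        have h6 : u = u' := congrArg (fun z : Opt U d × Y => z.1.1) he
        rw [h5, h6]
      · rintro ⟨⟨u, i⟩, y⟩ hz
        rw [Finset.mem_filter] at hz
        obtain ⟨_, x, hx⟩ := hz
        have hx' := (hCh _ _).1 hx
        have h5 : i = L x u := hx'.2.1
        have h6 : y = G.cls (u, i) x := hx'.2.2
        refine ⟨(x, u), Finset.mem_product.2 ⟨hx'.1, Finset.mem_univ _⟩, ?_⟩
        simp only
        rw [← h5, ← h6]
    have h1 : I.card = (Finset.univ.filter fun z : X × V => z.2 ∈ J z.1).card +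
        (Finset.univ.filter fun z : (Opt U d × Y) × Cell c g => z.2 ∈ C z.1).card := by
      rw [hI, Finset.card_disjSum]
    have h2 : Fintype.card (StepU U X Y d) =
        Fintype.card X * Fintype.card U + Fintype.card (Opt U d × Y) := by
      rw [Fintype.card_sum, Fintype.card_prod]
    omega
  · -- disjointness
    rw [Finset.disjoint_left]
    rintro (⟨x, v⟩ | ⟨l, s⟩) hz hzD
    · rw [memL] at hz
      have h1 := (hJmem x v hz).2.2.2.1
      rw [Finset.disjoint_left] at h1
      exact h1 hz ((mem_slice_robust D x v).2 hzD)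
    · rw [memR] at hz
      rcases hC l with ⟨x, hx, hS⟩ | ⟨_, h, i, hS, hD, _⟩
      · have hx' := (hCh _ _).1 hx
        have hf := hL1 x hx'.1 l.1.1
        rw [hopt _ _ hx'.2.1] at hf
        unfold Free at hf
        rw [← hx'.2.2] at hf
        rw [hS] at hz
        simp only [Finset.mem_insert, Finset.mem_singleton] at hz
        rcases hz with rfl | rfl
        · exact hf.1 hzD
        · exact hf.2 hzD
      · rw [hS] at hz
        rw [Finset.mem_singleton] at hz
        subst hz
        exact hD hzD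
  · -- the touch
    rintro (⟨x₀, u₀⟩ | l₀) h hτ (⟨x, v⟩ | ⟨⟨o, y⟩, ((⟨b, i⟩ | (a | a)))⟩) hz hT
    · rw [memL] at hz
      obtain ⟨h1, h2⟩ : x = x₀ ∧ T u₀ h v := hT
      subst h1
      exact (hJmem x v hz).2.2.2.2.2.2 u₀ h hτ v hz h2
    · exact hT
    · rw [memR] at hz
      obtain ⟨h1, h2, h4, h5⟩ : o.1 = u₀ ∧ o.2.1 = h ∧ G.cls o x₀ = y ∧ G.row o x₀ = a := hT
      obtain ⟨x1, hx1, ha1⟩ := hrow _ _ hz
      have hx1' := (hCh _ _).1 hx1
      have g1 : o.2 = L x1 o.1 := hx1'.2.1
      have g2 : y = G.cls o x1 := hx1'.2.2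
      by_cases hx0 : x₀ ∈ B
      · by_cases hxx : x1 = x₀
        · subst hxx
          apply hL4 x1 u₀ h hτ hx0
          rw [← h1, ← g1, h2]
        · refine hL2 x1 hx1'.1 x₀ hx0 hxx o.1 u₀ x₀ ?_ rfl
          rw [hopt _ _ g1, ← g2, h4]
      · refine hL3 x₀ u₀ h hτ hx0 x1 hx1'.1 o.1 ?_
        rw [hopt _ _ g1, ← g2, h4]
    · exact hT
    · exact hT
    · rw [memR] at hz
      obtain ⟨h1, h2⟩ : (o, y) = l₀ ∧ b = h := hT
      subst h1
      exact (hbase _ _ hz).2.2 h hτ h2
    · rw [memR] at hz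
      obtain ⟨h1, h2⟩ : (o, y) = l₀ ∧ h = false := hT
      subst h1
      obtain ⟨x1, hx1, ha1⟩ := hrow _ _ hz
      have hx1' := (hCh _ _).1 hx1
      exact hL5 o y h hτ x1 hx1'.1 o.1 (hopt _ _ hx1'.2.1)
    · rw [memR] at hz
      obtain ⟨h1, h2⟩ : (o, y) = l₀ ∧ h = true := hT
      subst h1
      obtain ⟨x1, hx1, ha1⟩ := hcol _ _ hz
      have hx1' := (hCh _ _).1 hx1
      exact hL5 o y h hτ x1 hx1'.1 o.1 (hopt _ _ hx1'.2.1)

theorem step_alive {V U X Y : Type} [Fintype V] [DecidableEq V] [Fintype U] [DecidableEq U]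
    [Fintype X] [DecidableEq X] [Fintype Y] [DecidableEq Y] {d c g t : ℕ} {R : V → V → Prop}
    {T : U → Bool → V → Prop} (G : Design (Opt U d) X Y g)
    (D : Finset (StepV V U X Y d c g)) (B : Finset X) (hB : B.card ≤ t) (hd0 : 0 < d)
    (hgood : ∀ x, x ∉ B → Alive R T (slice D x))
    (h2 : ∀ x ∈ B, ∀ u h, ∃ M : Finset (Fin d), 2 * t ≤ M.card ∧
      ∀ i ∈ M, Free G D (u, (h, i)) x)
    (h3 : ∀ (l : Opt U d × Y) (h : Bool), ∃ i : Fin c, Sum.inr (l, Sum.inl (h, i)) ∉ D) :
    Alive (stepR R T G) (stepT T G) D := by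
  intro τ
  obtain ⟨L, hL1, hL2, hL3, hL4, hL5⟩ := step_choice G B (fun o x => Free G D o x) hB hd0 h2 τ
  exact step_build G D B hgood h3 τ L hL1 hL2 hL3 hL4 hL5

end FB7530
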