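import Mathlib
import Pool.Agent.Lib_MP_fb7530_co.Geometry
import Pool.Agent.Lib_MP_fb7530_co.StepExact
import Pool.Agent.Lib_MP_fb7530_co.StepRobust
import Pool.Agent.Lib_MP_fb7530_co.StepKill

/-! PIECE ASSEMBLY: base, step, gadget. -/

namespace FB7530

open Finset

private theorem killOn_nonneg_asm {V : Type} {b : ℕ} {S : Finset V} {P : Finset V → Prop} {β : ℝ}
    (h : KillOn b S P β) : 0 ≤ β := by
  obtain ⟨K, -, h2, -⟩ := h
  exact le_trans (Finset.sum_nonneg fun A _ => by positivity) h2

theorem gad_of_sys {w N b : ℕ} {β : ℝ} (h : SysEx w N b β) : GadEx w N b β := by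
  classical
  obtain ⟨V, U, iV, dV, iU, dU, R, T, hV, hU, hE, K, -, hKw, hK⟩ := h
  let H : SimpleGraph V :=
    { Adj := fun x y => x ≠ y ∧ ¬ R x y ∧ ¬ R y x
      symm := ⟨fun x y h => ⟨h.1.symm, h.2.2, h.2.1⟩⟩
      loopless := ⟨fun x h => h.1 rfl⟩ }
  refine ⟨V, iV, dV, H, K, hV, ?_, hKw, ?_⟩
  · intro S hS
    have h1 : Indep R S := by
      intro x hx y hy hxy
      exact (hS.isClique hx hy hxy).2.1
    have h2 := hE ∅ S h1 (by simp)
    have h3 := hS.card_eq
    rw [Finset.card_empty, hU] at h2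
    omega
  · intro D hD
    have h1 : Alive R T D := by
      by_contra hA
      obtain ⟨A, hA1, hA2⟩ := hK D hA
      exact hD A hA1 hA2
    obtain ⟨I, hI1, hI2, hI3, -⟩ := h1 none
    refine ⟨I, ?_, hI3⟩
    rw [SimpleGraph.isNClique_iff]
    refine ⟨?_, by rw [hI2, hU]⟩
    intro x hx y hy hxy
    exact ⟨hxy, hI1 x hx y hy hxy, hI1 y hy x hx hxy.symm⟩

theorem sys_base (c b : ℕ) : SysEx 1 (2 * c) b (2 * (1 / 2 : ℝ) ^ (b * c)) := by
  classical
  refine ⟨Bool × Fin c, Unit, inferInstance, inferInstance, inferInstance, inferInstance,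
    fun _ _ => True, fun _ h v => v.1 = h, ?_, ?_, ?_, ?_⟩
  · simp
  · simp
  · intro P I hI hP
    have h1 : I.card ≤ 1 := by
      rw [Finset.card_le_one]
      intro x hx y hy
      by_contra hxy
      exact hI x hx y hy hxy trivial
    have h2 : P.card ≤ 1 := by
      have := Finset.card_le_univ P
      simpa using this
    rw [Fintype.card_unit]
    rcases Finset.eq_empty_or_nonempty P with hPe | ⟨u, hu⟩
    · rw [hPe, Finset.card_empty]
      omega
    · have h3 : I = ∅ := by
        rw [Finset.eq_empty_iff_forall_notMem]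
        intro x hx
        exact hP u hu x.1 x hx rfl
      rw [h3, Finset.card_empty]
      omega
  · have h1 : ∀ h ∈ (univ : Finset Bool), KillOn b (univ : Finset (Bool × Fin c))
        (fun D => (univ.filter fun v : Bool × Fin c => v.1 = h) ⊆ D)
        ((1 / 2 : ℝ) ^ (b * c)) := by
      intro h _
      have h2 := killOn_subset (b := b) (univ.filter fun v : Bool × Fin c => v.1 = h)
      have h3 : (univ.filter fun v : Bool × Fin c => v.1 = h).card = c := by
        have h4 : (univ.filter fun v : Bool × Fin c => v.1 = h) =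
            (univ : Finset (Fin c)).map ⟨fun i => (h, i), fun i j hij => by
              simpa using hij⟩ := by
          ext ⟨h', i⟩
          simp [eq_comm]
        rw [h4, Finset.card_map, Finset.card_univ, Fintype.card_fin]
      rw [h3] at h2
      exact h2.mono (Finset.subset_univ _) (fun D hD => hD) le_rfl
    have h2 := killOn_exists (univ : Finset Bool) h1
    refine h2.mono (Finset.Subset.refl _) ?_ (by simp)
    intro D hD
    by_contra hno
    push Not at hno
    apply hD
    have h3 : ∀ h : Bool, ∃ i : Fin c, (h, i) ∉ D := by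
      intro h
      obtain ⟨v, hv1, hv2⟩ := Finset.not_subset.1 (hno h (Finset.mem_univ _))
      rw [Finset.mem_filter] at hv1
      refine ⟨v.2, ?_⟩
      rw [← hv1.2]
      exact hv2
    intro τ
    obtain ⟨h, hh⟩ : ∃ h : Bool, ∀ u h', τ = some (u, h') → h = !h' := by
      rcases τ with _ | ⟨u, h'⟩
      · exact ⟨true, fun u h' e => by simp at e⟩
      · refine ⟨!h', fun u' h'' e => ?_⟩
        simp only [Option.some.injEq, Prod.mk.injEq] at e
        rw [e.2]
    obtain ⟨i, hi⟩ := h3 h
    refine ⟨{(h, i)}, ?_, ?_, ?_, ?_⟩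
    · intro x hx y hy hxy
      rw [Finset.mem_singleton] at hx hy
      exact absurd (hx.trans hy.symm) hxy
    · simp
    · exact Finset.disjoint_singleton_left.2 hi
    · intro u h' e v hv hvh
      rw [Finset.mem_singleton] at hv
      subst hv
      have h4 := hh u h' e
      have h5 : h = h' := hvh
      rw [h5] at h4
      cases h' <;> simp at h4

theorem sys_mono {w N b : ℕ} {β β' : ℝ} (h : SysEx w N b β) (hβ : β ≤ β') : SysEx w N b β' := by
  obtain ⟨V, U, iV, dV, iU, dU, R, T, hV, hU, hE, hK⟩ := h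
  exact ⟨V, U, iV, dV, iU, dU, R, T, hV, hU, hE,
    hK.mono (Finset.Subset.refl _) (fun D hD => hD) hβ⟩

theorem sys_step {w N b : ℕ} {β : ℝ} (hb : 1 ≤ b) (h : SysEx w N b β) {p g d c t : ℕ}
    [Fact p.Prime] (hO : w * (2 * d) ≤ p) (hg : p ≤ g ^ 2) (hd : 2 * t ≤ d)
    (hd0 : 0 < d) :
    SysEx (p ^ 4 * w + w * (2 * d) * p ^ 3)
      (p ^ 4 * N + w * (2 * d) * p ^ 3 * (2 * c + 2 * g)) b
      ((p ^ 4 * β) ^ (t + 1) + 2 * p ^ 4 * w * β * (2 ^ d * (1 / 2 : ℝ) ^ ((b - 1) * (d + 1 - 2 * t))) +
        2 * (w * (2 * d) * p ^ 3) * (1 / 2 : ℝ) ^ (b * c)) := by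
  classical
  obtain ⟨V, U, iV, dV, iU, dU, R, T, hV, hU, hE, hK⟩ := h
  have : NeZero p := ⟨(Fact.out : p.Prime).ne_zero⟩
  have hβ : 0 ≤ β := killOn_nonneg_asm hK
  have hcO : Fintype.card (Opt U d) = w * (2 * d) := by
    rw [Fintype.card_prod, Fintype.card_prod, Fintype.card_bool, Fintype.card_fin, hU]
  obtain ⟨G⟩ := design_exists (O := Opt U d) (p := p) (g := g) (by rw [hcO]; exact hO) hg
  have hX : Fintype.card (Fin 4 → ZMod p) = p ^ 4 := by
    rw [Fintype.card_fun, ZMod.card, Fintype.card_fin]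
  have hY : Fintype.card (Fin 3 → ZMod p) = p ^ 3 := by
    rw [Fintype.card_fun, ZMod.card, Fintype.card_fin]
  refine ⟨StepV V U (Fin 4 → ZMod p) (Fin 3 → ZMod p) d c g,
    StepU U (Fin 4 → ZMod p) (Fin 3 → ZMod p) d, inferInstance, inferInstance, inferInstance,
    inferInstance, stepR R T G, stepT T G, ?_, ?_, step_exact hE G, ?_⟩
  · rw [Fintype.card_sum, Fintype.card_prod, Fintype.card_prod, Fintype.card_prod, hcO, hX, hY, hV,
      Fintype.card_sum, Fintype.card_sum, Fintype.card_prod, Fintype.card_bool, Fintype.card_fin,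
      Fintype.card_fin]
    ring
  · rw [Fintype.card_sum, Fintype.card_prod, Fintype.card_prod, hcO, hX, hY, hU]
  · have k1 := step_kill1 (W := (Opt U d × (Fin 3 → ZMod p)) × Cell c g) (X := Fin 4 → ZMod p)
      (t := t) _ hK hβ
    have k2 := step_kill2 (U := U) (X := Fin 4 → ZMod p) (Y := Fin 3 → ZMod p) (c := c) (t := t)
      _ hK hβ hb hd G
    have k3 := step_kill3 (V := V) (U := U) (X := Fin 4 → ZMod p) (Y := Fin 3 → ZMod p) (b := b)
      (d := d) (c := c) (g := g)
    have k := killOn_or (killOn_or k1 k2) k3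
    refine k.mono (Finset.Subset.refl _) ?_ ?_
    · intro D hD
      by_contra hno
      rw [not_or, not_or] at hno
      obtain ⟨⟨h1, h2⟩, h3⟩ := hno
      apply hD
      rw [not_not] at h3
      set B : Finset (Fin 4 → ZMod p) := univ.filter fun x => ¬ Alive R T (slice D x) with hB
      have hBmem : ∀ x, x ∈ B ↔ ¬ Alive R T (slice D x) := fun x => by simp [hB]
      have hBc : B.card ≤ t := by
        by_contra hlt
        rw [not_le] at hlt
        obtain ⟨M, hM1, hM2⟩ := Finset.exists_subset_card_eq (show t + 1 ≤ B.card from hlt)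
        exact h1 ⟨M, hM2, fun x hx => (hBmem x).1 (hM1 hx)⟩
      refine step_alive G D B hBc hd0 ?_ ?_ h3
      · intro x hx
        rw [hBmem, not_not] at hx
        exact hx
      · intro x hx u h
        by_contra hno
        exact h2 ⟨x, u, h, (hBmem x).1 hx, hno⟩
    · rw [hX, hY, hU]
      push_cast
      exact le_refl _

end FB7530
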