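import Mathlib
import Pool.Agent.Lib_MP_fb7530_co.SysStep

/-! PIECE ITER: iteration of `sys_step`, `n = 6 · 8^j`.

Base `j = 0`: `sys_base 43 17`: `N = 86`, `β = 2 (1/2)^731 ≤ (1/2)^720`.
Step `n → 8n` (`n ≥ 6`): `d = 68 n + 21`, `c = 60 n + 1`, `t = 10`, `g = 2^(3n)`, `p` prime with
`2^(4n) · 2d < p ≤ 2 · 2^(4n) · 2d` (`Nat.exists_prime_lt_and_le_two_mul`), so `p ≤ 2^(6n)` since
`4 d ≤ 2^(2n)`.
The three terms of `β'` are at most `(1/2)^(960 n + 2)`: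
`(p^4 β)^11 ≤ 2^((24n-120n)·11) = 2^(-1056 n)`;
`2 p^4 w β 2^d (1/2)^(16 (d-19)) ≤ 2^(1 + 24n + 4n + d - 16 d + 304)` (use `β ≤ 1`) `= 2^(-992 n - 10)`;
`2 (w 2d p^3) (1/2)^(17c) ≤ 2^(1 + 4n + 24n - 17 c) = 2^(-992n - 16)` (use `2d ≤ p`).
Ratio: `N' ≤ p^4 N + w·2d·p^3·(2c+2g)`, `(2c+2g)·2^(n) ≤ 3·2^(4n)`, `2d · 2^(4n) ≤ p`, hence
`N' 2^n ≤ (87·2^n - 4 + 3) p^4 w`. -/

namespace FB7530

private theorem iter_pow_bound {n : ℕ} (hn : 6 ≤ n) : 4 * (68 * n + 21) ≤ 2 ^ (2 * n) := by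
  induction n, hn using Nat.le_induction with
  | base => norm_num
  | succ n hn ih =>
    have h1 : 2 ^ (2 * (n + 1)) = 4 * 2 ^ (2 * n) := by
      rw [show 2 * (n + 1) = 2 * n + 2 by ring, pow_add]
      ring
    rw [h1]
    omega

private theorem iter_g_bound {n : ℕ} (hn : 6 ≤ n) : 2 * (60 * n + 1) ≤ 2 ^ (3 * n) := by
  induction n, hn using Nat.le_induction with
  | base => norm_num
  | succ n hn ih =>
    have h1 : 2 ^ (3 * (n + 1)) = 8 * 2 ^ (3 * n) := by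
      rw [show 3 * (n + 1) = 3 * n + 3 by ring, pow_add]
      ring
    rw [h1]
    omega

private theorem iter_beta {n w p : ℕ} (hn : 6 ≤ n) (hw : w ≤ 2 ^ (4 * n)) (hp : p ≤ 2 ^ (6 * n))
    (hd : 2 * (68 * n + 21) ≤ p) :
    ((p : ℝ) ^ 4 * (1 / 2 : ℝ) ^ (120 * n)) ^ (10 + 1) +
      2 * (p : ℝ) ^ 4 * w * (1 / 2 : ℝ) ^ (120 * n) *
        (2 ^ (68 * n + 21) * (1 / 2 : ℝ) ^ ((17 - 1) * (68 * n + 21 + 1 - 2 * 10))) +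
      2 * ((w : ℝ) * (2 * ((68 * n + 21 : ℕ) : ℝ)) * (p : ℝ) ^ 3) *
        (1 / 2 : ℝ) ^ (17 * (60 * n + 1)) ≤ (1 / 2 : ℝ) ^ (120 * (8 * n)) := by
  have hpR : (p : ℝ) ≤ 2 ^ (6 * n) := by exact_mod_cast hp
  have hwR : (w : ℝ) ≤ 2 ^ (4 * n) := by exact_mod_cast hw
  have hdR : 2 * ((68 * n + 21 : ℕ) : ℝ) ≤ p := by exact_mod_cast hd
  have hp0 : (0 : ℝ) ≤ p := Nat.cast_nonneg _
  have hw0 : (0 : ℝ) ≤ w := Nat.cast_nonneg _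
  have hp4 : (p : ℝ) ^ 4 ≤ 2 ^ (24 * n) := by
    calc (p : ℝ) ^ 4 ≤ (2 ^ (6 * n)) ^ 4 := pow_le_pow_left₀ hp0 hpR 4
      _ = 2 ^ (24 * n) := by rw [← pow_mul]; congr 1; ring
  have hhalf : ∀ a b : ℕ, b ≤ a → (2 : ℝ) ^ b * (1 / 2 : ℝ) ^ a = (1 / 2 : ℝ) ^ (a - b) := by
    intro a b hab
    obtain ⟨k, rfl⟩ := Nat.exists_eq_add_of_le hab
    rw [Nat.add_sub_cancel_left, pow_add, ← mul_assoc, ← mul_pow]
    norm_num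
  have hanti : ∀ a b : ℕ, b ≤ a → (1 / 2 : ℝ) ^ a ≤ (1 / 2 : ℝ) ^ b := fun a b hab =>
    pow_le_pow_of_le_one (by norm_num) (by norm_num) hab
  have t1 : ((p : ℝ) ^ 4 * (1 / 2 : ℝ) ^ (120 * n)) ^ (10 + 1) ≤ (1 / 2 : ℝ) ^ (960 * n + 2) := by
    have h1 : (p : ℝ) ^ 4 * (1 / 2 : ℝ) ^ (120 * n) ≤ (1 / 2 : ℝ) ^ (96 * n) := by
      calc (p : ℝ) ^ 4 * (1 / 2 : ℝ) ^ (120 * n) ≤ 2 ^ (24 * n) * (1 / 2 : ℝ) ^ (120 * n) := by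
            gcongr
        _ = (1 / 2 : ℝ) ^ (120 * n - 24 * n) := hhalf _ _ (by omega)
        _ = (1 / 2 : ℝ) ^ (96 * n) := by congr 1; omega
    calc ((p : ℝ) ^ 4 * (1 / 2 : ℝ) ^ (120 * n)) ^ (10 + 1) ≤ ((1 / 2 : ℝ) ^ (96 * n)) ^ (10 + 1) :=
          pow_le_pow_left₀ (by positivity) h1 _
      _ = (1 / 2 : ℝ) ^ (96 * n * 11) := by rw [← pow_mul]
      _ ≤ _ := hanti _ _ (by omega)
  have t2 : 2 * (p : ℝ) ^ 4 * w * (1 / 2 : ℝ) ^ (120 * n) *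
        (2 ^ (68 * n + 21) * (1 / 2 : ℝ) ^ ((17 - 1) * (68 * n + 21 + 1 - 2 * 10))) ≤
      (1 / 2 : ℝ) ^ (960 * n + 2) := by
    have h1 : (1 / 2 : ℝ) ^ (120 * n) ≤ 1 := pow_le_one₀ (by norm_num) (by norm_num)
    have h2 : (2 : ℝ) ^ (68 * n + 21) * (1 / 2 : ℝ) ^ ((17 - 1) * (68 * n + 21 + 1 - 2 * 10)) =
        (1 / 2 : ℝ) ^ ((17 - 1) * (68 * n + 21 + 1 - 2 * 10) - (68 * n + 21)) :=
      hhalf _ _ (by omega)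
    rw [h2]
    calc 2 * (p : ℝ) ^ 4 * w * (1 / 2 : ℝ) ^ (120 * n) *
          (1 / 2 : ℝ) ^ ((17 - 1) * (68 * n + 21 + 1 - 2 * 10) - (68 * n + 21))
        ≤ 2 * 2 ^ (24 * n) * 2 ^ (4 * n) * 1 *
          (1 / 2 : ℝ) ^ ((17 - 1) * (68 * n + 21 + 1 - 2 * 10) - (68 * n + 21)) := by
            gcongr
      _ = 2 ^ (1 + 24 * n + 4 * n) *
          (1 / 2 : ℝ) ^ ((17 - 1) * (68 * n + 21 + 1 - 2 * 10) - (68 * n + 21)) := by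
            rw [pow_add, pow_add]; ring
      _ = (1 / 2 : ℝ) ^ ((17 - 1) * (68 * n + 21 + 1 - 2 * 10) - (68 * n + 21) -
            (1 + 24 * n + 4 * n)) := hhalf _ _ (by omega)
      _ ≤ _ := hanti _ _ (by omega)
  have t3 : 2 * ((w : ℝ) * (2 * ((68 * n + 21 : ℕ) : ℝ)) * (p : ℝ) ^ 3) *
        (1 / 2 : ℝ) ^ (17 * (60 * n + 1)) ≤ (1 / 2 : ℝ) ^ (960 * n + 2) := by
    have h1 : (w : ℝ) * (2 * ((68 * n + 21 : ℕ) : ℝ)) * (p : ℝ) ^ 3 ≤ 2 ^ (4 * n) * 2 ^ (24 * n) := by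
      calc (w : ℝ) * (2 * ((68 * n + 21 : ℕ) : ℝ)) * (p : ℝ) ^ 3 ≤ w * p * (p : ℝ) ^ 3 := by
            gcongr
        _ = w * (p : ℝ) ^ 4 := by ring
        _ ≤ _ := by gcongr
    calc 2 * ((w : ℝ) * (2 * ((68 * n + 21 : ℕ) : ℝ)) * (p : ℝ) ^ 3) *
          (1 / 2 : ℝ) ^ (17 * (60 * n + 1))
        ≤ 2 * (2 ^ (4 * n) * 2 ^ (24 * n)) * (1 / 2 : ℝ) ^ (17 * (60 * n + 1)) := by gcongr
      _ = 2 ^ (1 + 4 * n + 24 * n) * (1 / 2 : ℝ) ^ (17 * (60 * n + 1)) := by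
            rw [pow_add, pow_add]; ring
      _ = (1 / 2 : ℝ) ^ (17 * (60 * n + 1) - (1 + 4 * n + 24 * n)) := hhalf _ _ (by omega)
      _ ≤ _ := hanti _ _ (by omega)
  have h4 : (1 / 2 : ℝ) ^ (960 * n + 2) = (1 / 2 : ℝ) ^ (120 * (8 * n)) / 4 := by
    rw [pow_add, show 120 * (8 * n) = 960 * n by ring]
    norm_num
    ring
  have h5 : (0 : ℝ) ≤ (1 / 2 : ℝ) ^ (120 * (8 * n)) := by positivity
  rw [h4] at t1 t2 t3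
  linarith

theorem sys_iter_step {n w N : ℕ} (hn : 6 ≤ n) (hw1 : 1 ≤ w) (hw : w ≤ 2 ^ (4 * n))
    (hN : N * 2 ^ n + 4 * w ≤ 87 * w * 2 ^ n) (h : SysEx w N 17 ((1 / 2 : ℝ) ^ (120 * n))) :
    ∃ w' N' : ℕ, 1 ≤ w' ∧ w' ≤ 2 ^ (4 * (8 * n)) ∧
      N' * 2 ^ (8 * n) + 4 * w' ≤ 87 * w' * 2 ^ (8 * n) ∧
      SysEx w' N' 17 ((1 / 2 : ℝ) ^ (120 * (8 * n))) := by
  obtain ⟨p, hp, hp1, hp2⟩ := Nat.exists_prime_lt_and_le_two_mul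
    (2 ^ (4 * n) * (2 * (68 * n + 21))) (by positivity)
  have : Fact p.Prime := ⟨hp⟩
  have hpow := iter_pow_bound hn
  have hgb := iter_g_bound hn
  have hp6 : p ≤ 2 ^ (6 * n) := by
    calc p ≤ 2 * (2 ^ (4 * n) * (2 * (68 * n + 21))) := hp2
      _ = 2 ^ (4 * n) * (4 * (68 * n + 21)) := by ring
      _ ≤ 2 ^ (4 * n) * 2 ^ (2 * n) := Nat.mul_le_mul_left _ hpow
      _ = 2 ^ (6 * n) := by rw [← pow_add]; congr 1; ring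
  have hd : 2 * (68 * n + 21) ≤ p := by
    have h1 : 2 * (68 * n + 21) ≤ 2 ^ (4 * n) * (2 * (68 * n + 21)) :=
      Nat.le_mul_of_pos_left _ (by positivity)
    omega
  have hO : w * (2 * (68 * n + 21)) ≤ p :=
    (Nat.mul_le_mul_right _ hw).trans hp1.le
  have hg : p ≤ (2 ^ (3 * n)) ^ 2 := by
    rw [← pow_mul, show 3 * n * 2 = 6 * n by ring]
    exact hp6
  have hs := sys_step (p := p) (g := 2 ^ (3 * n)) (d := 68 * n + 21) (c := 60 * n + 1) (t := 10)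
    (by norm_num) h hO hg (by omega) (by omega)
  have hp3 : w * (2 * (68 * n + 21)) * p ^ 3 ≤ p ^ 4 * w := by
    calc w * (2 * (68 * n + 21)) * p ^ 3 ≤ w * p * p ^ 3 :=
          Nat.mul_le_mul_right _ (Nat.mul_le_mul_left _ hd)
      _ = p ^ 4 * w := by ring
  refine ⟨_, _, ?_, ?_, ?_, sys_mono hs (iter_beta hn hw hp6 hd)⟩
  · have h1 : 1 ≤ p ^ 4 * w := Nat.one_le_iff_ne_zero.2
      (Nat.mul_ne_zero (pow_ne_zero _ hp.ne_zero) (by omega))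
    omega
  · calc p ^ 4 * w + w * (2 * (68 * n + 21)) * p ^ 3 ≤ 2 * (p ^ 4 * w) := by omega
      _ ≤ 2 * ((2 ^ (6 * n)) ^ 4 * 2 ^ (4 * n)) := by gcongr
      _ = 2 ^ (1 + 6 * n * 4 + 4 * n) := by rw [← pow_mul, pow_add, pow_add]; ring
      _ ≤ 2 ^ (4 * (8 * n)) := Nat.pow_le_pow_right (by norm_num) (by omega)
  · have hA : p ^ 4 * (N * 2 ^ n + 4 * w) ≤ p ^ 4 * (87 * w * 2 ^ n) := Nat.mul_le_mul_left _ hN
    have hB : w * (2 * (68 * n + 21)) * p ^ 3 * (2 * (60 * n + 1) + 2 * 2 ^ (3 * n)) * 2 ^ n ≤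
        3 * (p ^ 4 * w) := by
      calc w * (2 * (68 * n + 21)) * p ^ 3 * (2 * (60 * n + 1) + 2 * 2 ^ (3 * n)) * 2 ^ n
          ≤ w * (2 * (68 * n + 21)) * p ^ 3 * (3 * 2 ^ (3 * n)) * 2 ^ n := by
            have : 2 * (60 * n + 1) + 2 * 2 ^ (3 * n) ≤ 3 * 2 ^ (3 * n) := by omega
            gcongr
        _ = 3 * (w * ((2 ^ (3 * n) * 2 ^ n) * (2 * (68 * n + 21))) * p ^ 3) := by ring
        _ = 3 * (w * (2 ^ (4 * n) * (2 * (68 * n + 21))) * p ^ 3) := by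
            rw [← pow_add, show 3 * n + n = 4 * n by ring]
        _ ≤ 3 * (w * p * p ^ 3) := by gcongr
        _ = 3 * (p ^ 4 * w) := by ring
    have h7 : 8 ≤ 2 ^ (7 * n) := by
      calc 8 = 2 ^ 3 := by norm_num
        _ ≤ 2 ^ (7 * n) := Nat.pow_le_pow_right (by norm_num) (by omega)
    have h8 : (2 : ℕ) ^ (8 * n) = 2 ^ n * 2 ^ (7 * n) := by
      rw [← pow_add]; congr 1; ring
    set X := p ^ 4 * w with hX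
    set Y := w * (2 * (68 * n + 21)) * p ^ 3 with hY
    set S := 2 * (60 * n + 1) + 2 * 2 ^ (3 * n) with hS
    have hC : (p ^ 4 * N + Y * S) * 2 ^ n + X ≤ 87 * X * 2 ^ n := by
      have e1 : p ^ 4 * (N * 2 ^ n + 4 * w) = p ^ 4 * N * 2 ^ n + 4 * X := by rw [hX]; ring
      have e2 : p ^ 4 * (87 * w * 2 ^ n) = 87 * X * 2 ^ n := by rw [hX]; ring
      rw [e1, e2] at hA
      have e3 : (p ^ 4 * N + Y * S) * 2 ^ n = p ^ 4 * N * 2 ^ n + Y * S * 2 ^ n := by ring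
      rw [e3]
      omega
    have hD : ((p ^ 4 * N + Y * S) * 2 ^ n + X) * 2 ^ (7 * n) ≤ 87 * X * 2 ^ n * 2 ^ (7 * n) :=
      Nat.mul_le_mul_right _ hC
    have e4 : ((p ^ 4 * N + Y * S) * 2 ^ n + X) * 2 ^ (7 * n) =
        (p ^ 4 * N + Y * S) * 2 ^ (8 * n) + X * 2 ^ (7 * n) := by rw [h8]; ring
    have e5 : 87 * X * 2 ^ n * 2 ^ (7 * n) = 87 * X * 2 ^ (8 * n) := by rw [h8]; ring
    rw [e4, e5] at hD
    have hE : 8 * X ≤ X * 2 ^ (7 * n) := by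
      rw [mul_comm 8 X]
      exact Nat.mul_le_mul_left _ h7
    have hF : 87 * (X + Y) * 2 ^ (8 * n) = 87 * X * 2 ^ (8 * n) + 87 * Y * 2 ^ (8 * n) := by ring
    rw [hF]
    have hY0 : 0 ≤ 87 * Y * 2 ^ (8 * n) := Nat.zero_le _
    omega

theorem sys_iter (j : ℕ) : ∃ w N : ℕ, 1 ≤ w ∧ w ≤ 2 ^ (4 * (6 * 8 ^ j)) ∧
    N * 2 ^ (6 * 8 ^ j) + 4 * w ≤ 87 * w * 2 ^ (6 * 8 ^ j) ∧
    SysEx w N 17 ((1 / 2 : ℝ) ^ (120 * (6 * 8 ^ j))) := by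
  induction j with
  | zero =>
    refine ⟨1, 2 * 43, le_rfl, Nat.one_le_two_pow, by norm_num, ?_⟩
    refine sys_mono (sys_base 43 17) ?_
    have h1 : 17 * 43 = 120 * (6 * 8 ^ 0) + 11 := by norm_num
    rw [h1, pow_add]
    have h2 : (0 : ℝ) ≤ (1 / 2 : ℝ) ^ (120 * (6 * 8 ^ 0)) := by positivity
    linarith [mul_nonneg h2 (show (0 : ℝ) ≤ 1 - 2 * (1 / 2) ^ 11 by norm_num)]
  | succ j ih =>
    obtain ⟨w, N, h1, h2, h3, h4⟩ := ih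
    have h6 : 6 ≤ 6 * 8 ^ j := Nat.le_mul_of_pos_right _ (by positivity)
    obtain ⟨w', N', g1, g2, g3, g4⟩ := sys_iter_step h6 h1 h2 h3 h4
    have e : 6 * 8 ^ (j + 1) = 8 * (6 * 8 ^ j) := by ring
    rw [e]
    exact ⟨w', N', g1, g2, g3, g4⟩

end FB7530
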