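import Mathlib
import Pool.Agent.Lib_MP_fb7530_co.SysIter
import Pool.Agent.Lib_MP_fb7530_co.Gadget

/-! PIECE GADALL: gadgets of ratio 349 for all `k ≥ C E^5`.

Take `s` least with `k 2^E ≤ 2^s` (so `s ≤ clog k + E`), `j` minimal with `s ≤ 2^(56 n)`, `n = 6·8^j`.
`gad_shift` of the system with parameter `s`: `a' = 4 s² w`, `N = 16 s² N_j ≤ 4·87·a'`,
`β = (16 s² (1/2)^(120 n))^(s+1) ≤ (1/2)^(s+1)`.  If `j = 0` then `w ≤ 2^24`, else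
`2^(7n) = 2^(56 · n/8) < s`, `w ≤ 2^(4n) ≤ s`; so `w ≤ 2^24 s` in all cases.  `k = t a' + ρ`: `t` copies and
`ρ` copies of `gad_indep s 17`; `ρ s ≤ a' s ≤ 2^26 s^4 ≤ k` for `k ≥ C E^5`.  Compare `gad_full` in
`Iter.lean` (same computation) and `params` in `Params.lean`. -/

namespace FB7530

/-- One shifted gadget. -/
private theorem gad_all_one {w N n s : ℕ} (hn : 1 ≤ n) (hs1 : 1 ≤ s) (hs : s ≤ 2 ^ (56 * n))
    (h : GadEx w N 17 ((1 / 2 : ℝ) ^ (120 * n))) :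
    GadEx (4 * s ^ 2 * w) (16 * s ^ 2 * N) 17 ((1 / 2 : ℝ) ^ (s + 1)) := by
  have h1 := gad_shift h s hs1
  refine gad_mono h1 ?_
  apply pow_le_pow_left₀ (by positivity)
  have h2 : (s : ℝ) ≤ (2 : ℝ) ^ (56 * n) := by exact_mod_cast hs
  have h3 : (2 : ℝ) ^ (8 * n) ≠ 0 := by positivity
  calc 16 * (s : ℝ) ^ 2 * (1 / 2 : ℝ) ^ (120 * n)
      ≤ 16 * ((2 : ℝ) ^ (56 * n)) ^ 2 * (1 / 2 : ℝ) ^ (120 * n) := by gcongr
    _ = 16 * ((2 : ℝ) ^ (112 * n) * (1 / 2 : ℝ) ^ (112 * n)) * (1 / 2 : ℝ) ^ (8 * n) := by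
        rw [← pow_mul, show 56 * n * 2 = 112 * n by ring, show 120 * n = 112 * n + 8 * n by ring,
          pow_add]
        ring
    _ = 16 * (1 / 2 : ℝ) ^ (8 * n) := by
        rw [← mul_pow]
        norm_num
    _ ≤ 16 * (1 / 2 : ℝ) ^ 8 := by
        have : (1 / 2 : ℝ) ^ (8 * n) ≤ (1 / 2 : ℝ) ^ 8 :=
          pow_le_pow_of_le_one (by norm_num) (by norm_num) (by omega)
        linarith
    _ ≤ 1 / 2 := by norm_num

/-- Copies of a gadget, and independent sets for the remainder. -/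
private theorem gad_all_fill {a' N' s k E : ℕ} (ha : 1 ≤ a') (hN : N' ≤ 348 * a')
    (h : GadEx a' N' 17 ((1 / 2 : ℝ) ^ (s + 1))) (has : a' * s ≤ k) (hks : k * 2 ^ E ≤ 2 ^ s) :
    ∃ N, N ≤ 349 * k ∧ GadEx k N 17 ((1 / 2 : ℝ) ^ E) := by
  obtain ⟨t, ρ, hkt, hρ⟩ : ∃ t ρ, k = t * a' + ρ ∧ ρ < a' :=
    ⟨k / a', k % a', by rw [mul_comm]; exact (Nat.div_add_mod k a').symm, Nat.mod_lt _ ha⟩
  have g1 := gad_mul h t
  have g2 := gad_mul (gad_indep s 17) ρ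
  have g3 := gad_join g1 g2
  rw [mul_one, ← hkt] at g3
  refine ⟨_, ?_, gad_mono g3 ?_⟩
  · have h1 : t * N' ≤ 348 * k := by
      calc t * N' ≤ t * (348 * a') := Nat.mul_le_mul_left _ hN
        _ = 348 * (t * a') := by ring
        _ ≤ 348 * k := Nat.mul_le_mul_left _ (by omega)
    have h2 : ρ * s ≤ k := (Nat.mul_le_mul_right _ hρ.le).trans has
    omega
  · have h1 : t + ρ ≤ k := by
      have : t * 1 ≤ t * a' := Nat.mul_le_mul_left _ ha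
      omega
    have h2 : (1 / 2 : ℝ) ^ (s + 1) ≤ (1 / 2 : ℝ) ^ s :=
      pow_le_pow_of_le_one (by norm_num) (by norm_num) (by omega)
    have h3 : (1 / 2 : ℝ) ^ (17 * s) ≤ (1 / 2 : ℝ) ^ s :=
      pow_le_pow_of_le_one (by norm_num) (by norm_num) (by omega)
    have h4 : ((t : ℝ) + ρ) ≤ k := by exact_mod_cast h1
    calc (t : ℝ) * (1 / 2 : ℝ) ^ (s + 1) + (ρ : ℝ) * (1 / 2 : ℝ) ^ (17 * s)
        ≤ (t : ℝ) * (1 / 2 : ℝ) ^ s + (ρ : ℝ) * (1 / 2 : ℝ) ^ s := by gcongr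
      _ = ((t : ℝ) + ρ) * (1 / 2 : ℝ) ^ s := by ring
      _ ≤ (k : ℝ) * (1 / 2 : ℝ) ^ s := by gcongr
      _ ≤ (1 / 2 : ℝ) ^ E := by
        have h5 : (k : ℝ) * 2 ^ E ≤ 2 ^ s := by exact_mod_cast hks
        rw [one_div, inv_pow, inv_pow, ← div_eq_mul_inv, div_le_iff₀ (by positivity),
          ← div_eq_inv_mul, le_div_iff₀ (by positivity)]
        exact h5

private theorem gad_all_pow {L : ℕ} (hL : 64 ≤ L) : 2 ^ 31 * L ^ 4 ≤ 2 ^ L := by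
  induction L, hL using Nat.le_induction with
  | base => norm_num
  | succ L hL ih =>
    obtain ⟨m, rfl⟩ := Nat.exists_eq_add_of_le hL
    have h1 : (64 + m + 1) ^ 4 ≤ 2 * (64 + m) ^ 4 := by
      have h2 : (64 + m + 1) ^ 4 = m ^ 4 + 260 * m ^ 3 + 25350 * m ^ 2 + 1098500 * m + 17850625 := by
        ring
      have h3 : 2 * (64 + m) ^ 4 =
          2 * m ^ 4 + 512 * m ^ 3 + 49152 * m ^ 2 + 2097152 * m + 33554432 := by ring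
      rw [h2, h3]
      have := Nat.zero_le (m ^ 4)
      omega
    calc 2 ^ 31 * (64 + m + 1) ^ 4 ≤ 2 ^ 31 * (2 * (64 + m) ^ 4) := Nat.mul_le_mul_left _ h1
      _ = 2 * (2 ^ 31 * (64 + m) ^ 4) := by ring
      _ ≤ 2 * 2 ^ (64 + m) := Nat.mul_le_mul_left _ ih
      _ = 2 ^ (64 + m + 1) := by rw [pow_succ]; ring

/-- The size condition. -/
private theorem gad_all_size {E k : ℕ} (hE : 1 ≤ E) (hk : 2 ^ 64 * E ^ 5 ≤ k) :
    2 ^ 26 * (Nat.clog 2 k + E) ^ 4 ≤ k := by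
  have hE5 : 1 ≤ E ^ 5 := Nat.one_le_pow _ _ (by omega)
  have hk64 : 2 ^ 64 ≤ k := by
    calc 2 ^ 64 = 2 ^ 64 * 1 := by ring
      _ ≤ 2 ^ 64 * E ^ 5 := Nat.mul_le_mul_left _ hE5
      _ ≤ k := hk
  obtain ⟨L, hLdef⟩ : ∃ L, L = Nat.clog 2 k := ⟨_, rfl⟩
  rw [← hLdef]
  have hL64 : 64 ≤ L := by
    rw [hLdef]
    have h1 : Nat.clog 2 (2 ^ 64) ≤ Nat.clog 2 k := Nat.clog_mono_right 2 hk64
    rwa [Nat.clog_pow 2 64 (by norm_num)] at h1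
  have hLk : 2 ^ L ≤ 2 * k := by
    have h1 : 2 ^ (L - 1) < k := by
      rw [hLdef]
      exact Nat.pow_pred_clog_lt_self (by norm_num) (lt_of_lt_of_le (by norm_num) hk64)
    have h2 : 2 ^ L = 2 * 2 ^ (L - 1) := by
      rw [← pow_succ']
      congr 1
      omega
    rw [h2]
    omega
  have h1 := gad_all_pow hL64
  have h2 : 2 ^ 30 * L ^ 4 ≤ k := by
    have : 2 * (2 ^ 30 * L ^ 4) ≤ 2 * k := by
      calc 2 * (2 ^ 30 * L ^ 4) = 2 ^ 31 * L ^ 4 := by ring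
        _ ≤ 2 ^ L := h1
        _ ≤ 2 * k := hLk
    omega
  have h3 : 2 ^ 30 * E ^ 4 ≤ k := by
    calc 2 ^ 30 * E ^ 4 ≤ 2 ^ 64 * E ^ 5 :=
          Nat.mul_le_mul (Nat.pow_le_pow_right (by norm_num) (by norm_num))
            (Nat.pow_le_pow_right hE (by norm_num))
      _ ≤ k := hk
  have h4 : (L + E) ^ 4 ≤ 8 * L ^ 4 + 8 * E ^ 4 := by
    have h5 : (L + E) ^ 2 ≤ 2 * (L ^ 2 + E ^ 2) := add_sq_le
    have h6 : (L ^ 2 + E ^ 2) ^ 2 ≤ 2 * ((L ^ 2) ^ 2 + (E ^ 2) ^ 2) := add_sq_le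
    calc (L + E) ^ 4 = ((L + E) ^ 2) ^ 2 := by ring
      _ ≤ (2 * (L ^ 2 + E ^ 2)) ^ 2 := Nat.pow_le_pow_left h5 2
      _ = 4 * (L ^ 2 + E ^ 2) ^ 2 := by ring
      _ ≤ 4 * (2 * ((L ^ 2) ^ 2 + (E ^ 2) ^ 2)) := Nat.mul_le_mul_left _ h6
      _ = 8 * L ^ 4 + 8 * E ^ 4 := by ring
  calc 2 ^ 26 * (L + E) ^ 4 ≤ 2 ^ 26 * (8 * L ^ 4 + 8 * E ^ 4) := Nat.mul_le_mul_left _ h4
    _ ≤ k := by
      norm_num at h2 h3 ⊢
      omega

theorem gad_all : ∃ C : ℕ, 1 ≤ C ∧ ∀ E k : ℕ, 1 ≤ E → C * E ^ 5 ≤ k →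
    ∃ N, N ≤ 349 * k ∧ GadEx k N 17 ((1 / 2 : ℝ) ^ E) := by
  classical
  refine ⟨2 ^ 64, by norm_num, fun E k hE hk => ?_⟩
  have hsize := gad_all_size hE hk
  obtain ⟨s, hsdef⟩ : ∃ s, s = Nat.clog 2 k + E := ⟨_, rfl⟩
  rw [← hsdef] at hsize
  have hs1 : 1 ≤ s := by omega
  have hks : k * 2 ^ E ≤ 2 ^ s := by
    rw [hsdef, pow_add]
    exact Nat.mul_le_mul_right _ (Nat.le_pow_clog (by norm_num) k)
  have hex : ∃ j, s ≤ 2 ^ (56 * (6 * 8 ^ j)) := by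
    refine ⟨s, ?_⟩
    have h1 : s < 8 ^ s := Nat.lt_pow_self (by norm_num)
    have h2 : 56 * (6 * 8 ^ s) < 2 ^ (56 * (6 * 8 ^ s)) := Nat.lt_two_pow_self
    omega
  obtain ⟨j, hj, hmin⟩ : ∃ j, s ≤ 2 ^ (56 * (6 * 8 ^ j)) ∧
      ∀ i, i < j → ¬ s ≤ 2 ^ (56 * (6 * 8 ^ i)) :=
    ⟨Nat.find hex, Nat.find_spec hex, fun i hi => Nat.find_min hex hi⟩
  obtain ⟨w, N, hw1, hw, hN, hsys⟩ := sys_iter j
  have hn1 : 1 ≤ 6 * 8 ^ j := Nat.mul_pos (by norm_num) (by positivity)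
  have hN' : N ≤ 87 * w := by
    have h1 : N * 2 ^ (6 * 8 ^ j) ≤ 87 * w * 2 ^ (6 * 8 ^ j) := by omega
    exact Nat.le_of_mul_le_mul_right h1 (by positivity)
  have hws : w ≤ 2 ^ 24 * s := by
    rcases Nat.eq_zero_or_pos j with hj0 | hj0
    · subst hj0
      calc w ≤ 2 ^ (4 * (6 * 8 ^ 0)) := hw
        _ = 2 ^ 24 * 1 := by norm_num
        _ ≤ 2 ^ 24 * s := Nat.mul_le_mul_left _ hs1
    · obtain ⟨i, rfl⟩ : ∃ i, j = i + 1 := ⟨j - 1, by omega⟩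
      have h1 : 2 ^ (56 * (6 * 8 ^ i)) < s := not_le.1 (hmin i (by omega))
      have h2 : (2 : ℕ) ^ (4 * (6 * 8 ^ (i + 1))) ≤ 2 ^ (56 * (6 * 8 ^ i)) := by
        apply Nat.pow_le_pow_right (by norm_num)
        rw [pow_succ]
        omega
      have h3 : s ≤ 2 ^ 24 * s := Nat.le_mul_of_pos_left _ (by positivity)
      omega
  have hgad := gad_all_one hn1 hs1 hj (gad_of_sys hsys)
  have hapos : 1 ≤ 4 * s ^ 2 * w := by
    have hs0 : 0 < s := hs1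
    have hw0 : 0 < w := hw1
    have h1 : 0 < 4 * s ^ 2 * w := by positivity
    exact h1
  refine gad_all_fill hapos ?_ hgad ?_ hks
  · calc 16 * s ^ 2 * N ≤ 16 * s ^ 2 * (87 * w) := Nat.mul_le_mul_left _ hN'
      _ = 348 * (4 * s ^ 2 * w) := by ring
  · calc 4 * s ^ 2 * w * s ≤ 4 * s ^ 2 * (2 ^ 24 * s) * s :=
          Nat.mul_le_mul_right _ (Nat.mul_le_mul_left _ hws)
      _ = 2 ^ 26 * s ^ 4 := by ring
      _ ≤ k := hsize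

end FB7530
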