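import Mathlib
import Pool.Agent.Lib_MP_fb7530_co.GadAll
import Pool.Agent.Lib_MP_fb7530_co.Final

/-! PIECE FINAL: the packing bound and the answer to Q1. -/

namespace FB7530

open Filter Topology

/-- The upper bound for the packing parameter. -/
theorem pack_upper2 : ∃ C : ℕ, 2 ≤ C ∧ ∀ r k : ℕ, 2 ≤ r → C * r ^ 15 ≤ k →
    ∃ n : ℕ, n ≤ C * r ^ 2 * k ^ 2 ∧ Pack r k (Fin n) := by
  obtain ⟨C₀, hC₀, hgadall⟩ := gad_all
  refine ⟨C₀ * 150000 ^ 5 + 23732 ^ 2, by norm_num, fun r k hr hk => ?_⟩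
  have hr15 : 1 ≤ r ^ 15 := Nat.one_le_pow _ _ (by omega)
  have hr3 : 1 ≤ r ^ 3 := Nat.one_le_pow _ _ (by omega)
  have hk3 : 3 ≤ k := by
    calc 3 ≤ (C₀ * 150000 ^ 5 + 23732 ^ 2) * 1 := by norm_num
      _ ≤ (C₀ * 150000 ^ 5 + 23732 ^ 2) * r ^ 15 := Nat.mul_le_mul_left _ hr15
      _ ≤ k := hk
  have hkE : C₀ * (150000 * r ^ 3) ^ 5 ≤ k := by
    calc C₀ * (150000 * r ^ 3) ^ 5 = C₀ * 150000 ^ 5 * r ^ 15 := by
          rw [mul_pow, ← pow_mul, mul_assoc]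
      _ ≤ (C₀ * 150000 ^ 5 + 23732 ^ 2) * r ^ 15 := Nat.mul_le_mul_right _ (by omega)
      _ ≤ k := hk
  obtain ⟨N, hN, hgad⟩ := hgadall (150000 * r ^ 3) k (by omega) hkE
  have hrk0 : 0 < r * k := Nat.mul_pos (by omega) (by omega)
  obtain ⟨p, hp, hp1, hp2⟩ := Nat.exists_prime_lt_and_le_two_mul (11866 * (r * k)) (by omega)
  have : Fact p.Prime := ⟨hp⟩
  have hkr : k ≤ r * k := Nat.le_mul_of_pos_left _ (by omega)
  have hpack : Pack r k (ZMod p × ZMod p) := by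
    refine pack_of_gad (N := N) (b := 17) (E := 150000 * r ^ 3) (by omega) (by omega) (by omega)
      ?_ ?_ ?_ hgad
    · have h1 : r * (k / 2) ≤ r * k := Nat.mul_le_mul_left _ (Nat.div_le_self _ _)
      omega
    · have h1 : 2 * r * 17 * N ≤ 2 * r * 17 * (349 * k) := Nat.mul_le_mul_left _ hN
      have h2 : 2 * r * 17 * (349 * k) = 11866 * (r * k) := by ring
      omega
    · have h1 : 2 * r ^ 2 * p ≤ 2 * r ^ 2 * (2 * (11866 * (r * k))) := Nat.mul_le_mul_left _ hp2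
      have h2 : 2 * r ^ 2 * (2 * (11866 * (r * k))) = r ^ 3 * (47464 * k) := by ring
      have h3 : 150000 * r ^ 3 * (k / 2) = r ^ 3 * (150000 * (k / 2)) := by ring
      rw [h3]
      refine lt_of_le_of_lt h1 ?_
      rw [h2]
      apply Nat.mul_lt_mul_of_pos_left
      · omega
      · omega
  refine ⟨p * p, ?_, ?_⟩
  · have h1 : p ≤ 23732 * (r * k) := by omega
    calc p * p ≤ (23732 * (r * k)) * (23732 * (r * k)) := Nat.mul_le_mul h1 h1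
      _ = 23732 ^ 2 * (r ^ 2 * k ^ 2) := by ring
      _ ≤ (C₀ * 150000 ^ 5 + 23732 ^ 2) * (r ^ 2 * k ^ 2) := Nat.mul_le_mul_right _ (by omega)
      _ = (C₀ * 150000 ^ 5 + 23732 ^ 2) * r ^ 2 * k ^ 2 := by ring
  · refine hpack.equiv ?_
    have : NeZero p := ⟨hp.ne_zero⟩
    exact Fintype.equivFinOfCardEq (by rw [Fintype.card_prod, ZMod.card])

theorem main2 : ∃ C : ℕ, 0 < C ∧ ∀ r k : ℕ, 2 ≤ r → C * r ^ 15 ≤ k →
    0 < P r k ∧ P r k ≤ C * r ^ 2 * k ^ 2 ∧ r * k ^ 2 ≤ 2 * ssat r k ∧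
    1 / ((C : ℝ) * r) ≤ (ssat r k : ℝ) / (P r k : ℝ) := by
  obtain ⟨C, hC, h⟩ := pack_upper2
  refine ⟨2 * C, by omega, fun r k hr hk => ?_⟩
  have hr15 : 2 ^ 15 ≤ r ^ 15 := Nat.pow_le_pow_left hr 15
  have hk' : C * r ^ 15 ≤ k := by
    refine le_trans ?_ hk
    apply Nat.mul_le_mul_right
    omega
  have hk2 : 2 ≤ k := by
    have h1 : 1 * 2 ^ 15 ≤ C * r ^ 15 := Nat.mul_le_mul (by omega) hr15
    omega
  obtain ⟨n, hn, hpack⟩ := h r k hr hk'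
  have hP1 : P r k ≤ n := P_le_of_pack (by omega) hk2 hpack
  have hP2 : P r k ≤ C * r ^ 2 * k ^ 2 := hP1.trans hn
  have hPpos : 0 < P r k := P_pos (by omega) hk2 hpack
  have hs1 := ssat_ge hr (by omega) hpack
  have hs : r * k ^ 2 ≤ 2 * ssat r k := by
    obtain ⟨q, rfl⟩ : ∃ q, r = q + 2 := ⟨r - 2, by omega⟩
    obtain ⟨m, rfl⟩ : ∃ m, k = m + 2 := ⟨k - 2, by omega⟩
    have e1 : q + 2 - 2 = q := by omega
    have e2 : m + 2 - 1 = m + 1 := by omega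
    rw [e1, e2] at hs1
    have h3 : q * ((m + 2) * (m + 2)) ≤ q * ((m + 2) * (2 * (m + 1))) :=
      Nat.mul_le_mul_left _ (Nat.mul_le_mul_left _ (by omega))
    calc (q + 2) * (m + 2) ^ 2 = q * ((m + 2) * (m + 2)) + 2 * (m + 2) ^ 2 := by ring
      _ ≤ q * ((m + 2) * (2 * (m + 1))) + 2 * (m + 2) ^ 2 := by omega
      _ = 2 * (q * ((m + 2) * (m + 1)) + (m + 2) ^ 2) := by ring
      _ ≤ 2 * ssat (q + 2) (m + 2) := Nat.mul_le_mul_left _ hs1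
  refine ⟨hPpos, ?_, hs, ?_⟩
  · refine hP2.trans ?_
    calc C * r ^ 2 * k ^ 2 ≤ 2 * (C * r ^ 2 * k ^ 2) := by omega
      _ = 2 * C * r ^ 2 * k ^ 2 := by ring
  · have hPr : (0 : ℝ) < P r k := by exact_mod_cast hPpos
    have hrr : (0 : ℝ) < r := by exact_mod_cast (by omega : 0 < r)
    have hCr : (0 : ℝ) < C := by exact_mod_cast (by omega : 0 < C)
    have hD : (0 : ℝ) < ((2 * C : ℕ) : ℝ) * r := by
      push_cast
      positivity
    rw [div_le_div_iff₀ hD hPr, one_mul]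
    have h1 : (P r k : ℝ) ≤ C * r ^ 2 * k ^ 2 := by exact_mod_cast hP2
    have h2 : (r : ℝ) * k ^ 2 ≤ 2 * ssat r k := by exact_mod_cast hs
    calc (P r k : ℝ) ≤ C * r ^ 2 * k ^ 2 := h1
      _ = (r * k ^ 2) * (C * r) := by ring
      _ ≤ (2 * ssat r k) * (C * r) :=
          mul_le_mul_of_nonneg_right h2 (by positivity)
      _ = (ssat r k : ℝ) * (((2 * C : ℕ) : ℝ) * r) := by push_cast; ring

theorem not_Q1 : ¬ ∀ r : ℕ → ℕ, (∀ k, 3 ≤ r k) →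
    Tendsto (fun k => (ssat (r k) k : ℝ) / (P (r k) k : ℝ)) atTop (𝓝 0) := by
  intro h
  obtain ⟨C, hC, hmain⟩ := main2
  have h3 := h (fun _ => 3) (fun _ => le_rfl)
  have hCr : (0 : ℝ) < C := by exact_mod_cast hC
  have hpos : (0 : ℝ) < 1 / ((C : ℝ) * (3 : ℕ)) := by positivity
  have hev : ∀ᶠ k in atTop, (ssat 3 k : ℝ) / (P 3 k : ℝ) < 1 / ((C : ℝ) * (3 : ℕ)) :=
    h3.eventually (gt_mem_nhds hpos)
  obtain ⟨k, hk1, hk2⟩ := (hev.and (eventually_ge_atTop (C * 3 ^ 15))).exists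
  have h4 := (hmain 3 k (by norm_num) hk2).2.2.2
  exact absurd hk1 (not_lt.2 h4)

end FB7530
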